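import Pool.Agent.Lib.MP_d7b8a3_al.Basic

/-!
# Test algebras
-/

namespace Pool.Agent.Lib.MP_d7b8a3_al

/-! ## The two-element left zero semigroup -/

inductive LZc : Type
  | f | t

/-- The two-element left zero semigroup. -/
def LZ2 : UnarySemigroup where
  carrier := LZc
  toSemigroup := { mul := fun a _ => a, mul_assoc := fun _ _ _ => rfl }
  toNonempty := ⟨LZc.f⟩
  bar := id

theorem LZ2.mul_def (a b : LZ2) : a * b = a := rfl

theorem LZ2.aper : Aper LZ2 0 := ⟨fun _ => rfl, fun _ => rfl⟩

/-- The first variable of a term. -/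
def hd : Term → ℕ
  | .var i => i
  | .mul s _ => hd s
  | .bar s => hd s

theorem LZ2.eval (ρ : ℕ → LZ2) (t : Term) : eval LZ2 ρ t = ρ (hd t) := by
  induction t with
  | var i => rfl
  | mul s t ihs _ => exact ihs
  | bar s ih => exact ih

theorem LZ2.sat_iff {s t : Term} : Sat LZ2 s t ↔ hd s = hd t := by
  classical
  constructor
  · intro h
    by_contra hne
    have h1 := h (fun i => if i = hd s then LZc.t else LZc.f)
    rw [LZ2.eval, LZ2.eval] at h1
    have h2 : (if hd s = hd s then LZc.t else LZc.f) = if hd t = hd s then LZc.t else LZc.f := h1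
    rw [if_pos rfl, if_neg (Ne.symm hne)] at h2
    exact absurd h2 (by simp)
  · intro h ρ
    rw [LZ2.eval, LZ2.eval, h]

theorem hd_wt (a : ℕ) (l : List ℕ) : hd (wt (a :: l)) = a := by
  cases l <;> rfl

theorem ex_eq_hd_cons (m : ℕ) (t : Term) : ∃ l, ex m t = hd t :: l := by
  induction t with
  | var i => exact ⟨[], rfl⟩
  | mul s t ihs _ =>
    obtain ⟨l, hl⟩ := ihs
    exact ⟨l ++ ex m t, by show ex m s ++ ex m t = _; rw [hl]; rfl⟩
  | bar s ih =>
    obtain ⟨l, hl⟩ := ih
    refine ⟨l ++ (List.replicate m (ex m s)).flatten, ?_⟩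
    show (List.replicate (m + 1) (ex m s)).flatten = _
    rw [List.replicate_succ, List.flatten_cons, hl]
    rfl

/-! ## The semigroup `P` -/

inductive P3c : Type
  | e | a | o
  deriving DecidableEq

/-- Multiplication of `P`: `e` is a left identity, `a` and `o` are left zeros with value `o`. -/
def P3c.mul : P3c → P3c → P3c
  | .e, x => x
  | .a, _ => .o
  | .o, _ => .o

/-- The semigroup `P = {e, a, 0}` with `ee = e`, `ea = a`, `ae = aa = 0`. -/
def P3 : UnarySemigroup where
  carrier := P3c
  toSemigroup := { mul := P3c.mul, mul_assoc := by rintro (_ | _ | _) b c <;> rfl }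
  toNonempty := ⟨P3c.e⟩
  bar := fun x => P3c.mul x x

/-- The element `e` of `P`. -/
def P3.e : P3 := P3c.e
/-- The element `a` of `P`. -/
def P3.a : P3 := P3c.a
/-- The element `0` of `P`. -/
def P3.o : P3 := P3c.o

theorem P3.e_mul (x : P3) : P3.e * x = x := rfl
theorem P3.a_mul (x : P3) : P3.a * x = P3.o := rfl
theorem P3.o_mul (x : P3) : P3.o * x = P3.o := rfl
theorem P3.e_ne_a : P3.e ≠ P3.a := fun h => P3c.noConfusion h
theorem P3.e_ne_o : P3.e ≠ P3.o := fun h => P3c.noConfusion h
theorem P3.a_ne_o : P3.a ≠ P3.o := fun h => P3c.noConfusion h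

theorem P3.cases (x : P3) : x = P3.e ∨ x = P3.a ∨ x = P3.o := by
  rcases x with _ | _ | _
  · exact Or.inl rfl
  · exact Or.inr (Or.inl rfl)
  · exact Or.inr (Or.inr rfl)

theorem P3.aper : Aper P3 1 := by
  constructor
  · rintro (_ | _ | _) <;> rfl
  · rintro (_ | _ | _) <;> rfl

theorem P3.eval_append (ρ : ℕ → P3) {l₁ l₂ : List ℕ} (h1 : l₁ ≠ []) (h2 : l₂ ≠ []) :
    eval P3 ρ (wt (l₁ ++ l₂)) = eval P3 ρ (wt l₁) * eval P3 ρ (wt l₂) :=
  eval_wt_append P3 ρ h1 h2

theorem P3.eval_e (ρ : ℕ → P3) {l : List ℕ} (h : l ≠ []) :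
    eval P3 ρ (wt l) = P3.e ↔ ∀ i ∈ l, ρ i = P3.e := by
  induction l with
  | nil => exact absurd rfl h
  | cons b l ih =>
    by_cases hl : l = []
    · subst hl
      simp [wt, eval]
    · rw [wt_cons hl]
      show ρ b * eval P3 ρ (wt l) = P3.e ↔ _
      rw [List.forall_mem_cons, ← ih hl]
      rcases P3.cases (ρ b) with hb | hb | hb
      · rw [hb, P3.e_mul]; simp
      · rw [hb, P3.a_mul]; simp [P3.e_ne_o.symm, P3.e_ne_a.symm]
      · rw [hb, P3.o_mul]; simp [P3.e_ne_o.symm]

theorem P3.eval_a (ρ : ℕ → P3) {l : List ℕ} (h : l ≠ []) :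
    eval P3 ρ (wt l) = P3.a ↔ ∃ l' z, l = l' ++ [z] ∧ (∀ i ∈ l', ρ i = P3.e) ∧ ρ z = P3.a := by
  induction l with
  | nil => exact absurd rfl h
  | cons b l ih =>
    by_cases hl : l = []
    · subst hl
      constructor
      · intro h1
        exact ⟨[], b, rfl, by simp, h1⟩
      · rintro ⟨l', z, h1, -, h3⟩
        cases l' with
        | nil =>
          simp only [List.nil_append, List.cons.injEq, and_true] at h1
          rw [h1]; exact h3
        | cons c l' => simp at h1
    · rw [wt_cons hl]
      show ρ b * eval P3 ρ (wt l) = P3.a ↔ _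
      constructor
      · intro h1
        rcases P3.cases (ρ b) with hb | hb | hb
        · rw [hb, P3.e_mul] at h1
          obtain ⟨l', z, h2, h3, h4⟩ := (ih hl).mp h1
          refine ⟨b :: l', z, by rw [h2]; rfl, ?_, h4⟩
          rw [List.forall_mem_cons]
          exact ⟨hb, h3⟩
        · rw [hb, P3.a_mul] at h1
          exact absurd h1.symm P3.a_ne_o
        · rw [hb, P3.o_mul] at h1
          exact absurd h1.symm P3.a_ne_o
      · rintro ⟨l', z, h1, h2, h3⟩
        cases l' with
        | nil =>
          simp only [List.nil_append, List.cons.injEq] at h1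
          exact absurd h1.2 hl
        | cons c l' =>
          simp only [List.cons_append, List.cons.injEq] at h1
          obtain ⟨rfl, h1⟩ := h1
          rw [List.forall_mem_cons] at h2
          rw [h2.1, P3.e_mul]
          exact (ih hl).mpr ⟨l', z, h1, h2.2, h3⟩

/-! ## The capped counting monoid -/

/-- The set `{0, 1, …, m}`. -/
@[ext]
structure CapC (m : ℕ) : Type where
  val : ℕ
  le : val ≤ m

instance (m : ℕ) : Semigroup (CapC m) where
  mul a b := ⟨min (a.val + b.val) m, min_le_right _ _⟩
  mul_assoc a b c := by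
    apply CapC.ext
    show min (min (a.val + b.val) m + c.val) m = min (a.val + min (b.val + c.val) m) m
    omega

theorem CapC.mul_val {m : ℕ} (a b : CapC m) : (a * b).val = min (a.val + b.val) m := rfl

theorem CapC.pw_val {m : ℕ} (a : CapC m) (n : ℕ) : (pw a n).val = min ((n + 1) * a.val) m := by
  induction n with
  | zero =>
    show a.val = _
    have := a.le
    rw [Nat.zero_add, one_mul]
    omega
  | succ n ih =>
    show (pw a n * a).val = _
    rw [CapC.mul_val, ih]
    have : (n + 1 + 1) * a.val = (n + 1) * a.val + a.val := by ring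
    rw [this]
    omega

/-- The monoid `{1, a, …, a^(m-1), 0}` written additively. -/
def Cap (m : ℕ) : UnarySemigroup where
  carrier := CapC m
  toNonempty := ⟨⟨0, Nat.zero_le _⟩⟩
  bar := fun x => pw x m

/-- The number representing an element of `Cap m`. -/
def Cap.val {m : ℕ} (x : Cap m) : ℕ := CapC.val x

theorem Cap.val_le {m : ℕ} (x : Cap m) : Cap.val x ≤ m := CapC.le x

theorem Cap.ext {m : ℕ} {x y : Cap m} (h : Cap.val x = Cap.val y) : x = y := CapC.ext h

theorem Cap.mul_val {m : ℕ} (a b : Cap m) :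
    Cap.val (a * b) = min (Cap.val a + Cap.val b) m := rfl

theorem Cap.pw_val {m : ℕ} (a : Cap m) (n : ℕ) : Cap.val (pw a n) = min ((n + 1) * Cap.val a) m :=
  CapC.pw_val a n

theorem Cap.aper (m : ℕ) : Aper (Cap m) m := by
  refine ⟨fun _ => rfl, fun x => ?_⟩
  apply Cap.ext
  rw [Cap.mul_val, Cap.pw_val]
  rcases Nat.eq_zero_or_pos (Cap.val x) with h | h
  · rw [h]; omega
  · have h2 : m ≤ (m + 1) * Cap.val x := by nlinarith
    rw [min_eq_right h2]
    omega

theorem Cap.eval_val {m : ℕ} (ρ : ℕ → Cap m) {l : List ℕ} (h : l ≠ []) :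
    Cap.val (eval (Cap m) ρ (wt l)) = min ((l.map (fun i => Cap.val (ρ i))).sum) m := by
  induction l with
  | nil => exact absurd rfl h
  | cons b l ih =>
    by_cases hl : l = []
    · subst hl
      have h1 := Cap.val_le (ρ b)
      simp only [List.map_cons, List.map_nil, List.sum_cons, List.sum_nil, add_zero]
      show Cap.val (ρ b) = _
      omega
    · rw [wt_cons hl, List.map_cons, List.sum_cons]
      show Cap.val (ρ b * eval (Cap m) ρ (wt l)) = _
      rw [Cap.mul_val, ih hl]
      omega

/-- The element of `Cap m` with a given value. -/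
def Cap.of (m v : ℕ) (h : v ≤ m) : Cap m := (⟨v, h⟩ : CapC m)

theorem Cap.val_of (m v : ℕ) (h : v ≤ m) : Cap.val (Cap.of m v h) = v := rfl

/-- The assignment counting the variable `i`. -/
def indic (m : ℕ) (hm : 1 ≤ m) (i : ℕ) : ℕ → Cap m :=
  fun j => if j = i then Cap.of m 1 hm else Cap.of m 0 (Nat.zero_le _)

theorem Cap.eval_indic {m : ℕ} (hm : 1 ≤ m) (i : ℕ) {l : List ℕ} (h : l ≠ []) :
    Cap.val (eval (Cap m) (indic m hm i) (wt l)) = min (l.count i) m := by
  rw [Cap.eval_val _ h]
  congr 1
  clear h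
  induction l with
  | nil => rfl
  | cons b l ih =>
    rw [List.map_cons, List.sum_cons, List.count_cons, ih, add_comm]
    congr 1
    unfold indic
    by_cases hb : b = i
    · simp [hb, Cap.val_of]
    · simp [hb, Cap.val_of]

/-- An identity of `Cap m` preserves the capped numbers of occurrences. -/
theorem Cap.count {m : ℕ} (hm : 1 ≤ m) {s t : Term} (h : Sat (Cap m) s t) {M : ℕ} (hM : m ≤ M)
    (i : ℕ) : min ((ex M s).count i) m = min ((ex M t).count i) m := by
  have h1 := h (indic m hm i)
  have h2 := ((Cap.aper m).mono hM).eval_ex (indic m hm i)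
  rw [h2 s, h2 t] at h1
  have h3 := congrArg Cap.val h1
  rw [Cap.eval_indic hm i (ex_ne_nil _ _), Cap.eval_indic hm i (ex_ne_nil _ _)] at h3
  exact h3

/-! ## Truncated words -/

/-- Nonempty words of length at most `k + 1`. -/
def TLc (k : ℕ) : Type := {l : List ℕ // l ≠ [] ∧ l.length ≤ k + 1}

theorem take_ne_nil {l : List ℕ} (h : l ≠ []) (k : ℕ) : l.take (k + 1) ≠ [] := by
  cases l with
  | nil => exact absurd rfl h
  | cons a l => simp

theorem take_take_append (k : ℕ) (a b : List ℕ) : (a.take k ++ b).take k = (a ++ b).take k := by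
  rw [List.take_append, List.take_append, List.take_take, min_self, List.length_take]
  congr 1
  rcases le_total k a.length with h | h
  · rw [min_eq_left h, Nat.sub_self, Nat.sub_eq_zero_of_le h]
  · rw [min_eq_right h]

theorem take_append_take (k : ℕ) (a b : List ℕ) : (a ++ b.take k).take k = (a ++ b).take k := by
  rw [List.take_append, List.take_append, List.take_take, min_eq_left (Nat.sub_le _ _)]

instance (k : ℕ) : Semigroup (TLc k) where
  mul a b := ⟨(a.1 ++ b.1).take (k + 1), take_ne_nil (by simp [a.2.1]) k, by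
    rw [List.length_take]; exact min_le_left _ _⟩
  mul_assoc a b c := by
    apply Subtype.ext
    show (((a.1 ++ b.1).take (k + 1)) ++ c.1).take (k + 1) =
      (a.1 ++ (b.1 ++ c.1).take (k + 1)).take (k + 1)
    rw [take_take_append, take_append_take, List.append_assoc]

theorem TLc.mul_val {k : ℕ} (a b : TLc k) : (a * b).1 = (a.1 ++ b.1).take (k + 1) := rfl

theorem TLc.pw_length {k : ℕ} (a : TLc k) (n : ℕ) : min (n + 1) (k + 1) ≤ (pw a n).1.length := by
  induction n with
  | zero =>
    have := List.length_pos_iff.mpr a.2.1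
    show min (0 + 1) (k + 1) ≤ a.1.length
    omega
  | succ n ih =>
    show min (n + 1 + 1) (k + 1) ≤ (pw a n * a).1.length
    have := List.length_pos_iff.mpr a.2.1
    rw [TLc.mul_val, List.length_take, List.length_append]
    omega

/-- The free object: words truncated to their first `k + 1` letters. -/
def TL (k : ℕ) : UnarySemigroup where
  carrier := TLc k
  toNonempty := ⟨⟨[0], by simp, by simp⟩⟩
  bar := fun x => pw x k

/-- The word representing an element of `TL k`. -/
def TL.val {k : ℕ} (x : TL k) : List ℕ := Subtype.val (p := fun l => l ≠ [] ∧ l.length ≤ k + 1) x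

theorem TL.ext {k : ℕ} {x y : TL k} (h : TL.val x = TL.val y) : x = y := Subtype.ext h

theorem TL.val_ne {k : ℕ} (x : TL k) : TL.val x ≠ [] :=
  (Subtype.property (p := fun l => l ≠ [] ∧ l.length ≤ k + 1) x).1

theorem TL.val_len {k : ℕ} (x : TL k) : (TL.val x).length ≤ k + 1 :=
  (Subtype.property (p := fun l => l ≠ [] ∧ l.length ≤ k + 1) x).2

theorem TL.mul_val {k : ℕ} (a b : TL k) :
    TL.val (a * b) = (TL.val a ++ TL.val b).take (k + 1) := rfl

theorem TL.aper (k : ℕ) : Aper (TL k) k := by
  refine ⟨fun _ => rfl, fun x => ?_⟩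
  apply TL.ext
  rw [TL.mul_val]
  have h1 : min (k + 1) (k + 1) ≤ (TL.val (pw x k)).length := TLc.pw_length x k
  have h2 : (TL.val (pw x k)).length = k + 1 := by
    have := TL.val_len (pw x k)
    rw [min_self] at h1
    omega
  rw [List.take_append_of_le_length (by rw [h2]), List.take_of_length_le (by rw [h2])]

theorem TL.eval_val {k : ℕ} (ρ : ℕ → TL k) {l : List ℕ} (h : l ≠ []) :
    TL.val (eval (TL k) ρ (wt l)) =
      ((l.map (fun i => TL.val (ρ i))).flatten).take (k + 1) := by
  induction l with
  | nil => exact absurd rfl h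
  | cons b l ih =>
    by_cases hl : l = []
    · subst hl
      simp only [List.map_cons, List.map_nil, List.flatten_cons, List.flatten_nil,
        List.append_nil]
      show TL.val (ρ b) = _
      rw [List.take_of_length_le (TL.val_len (ρ b))]
    · rw [wt_cons hl, List.map_cons, List.flatten_cons]
      show TL.val (ρ b * eval (TL k) ρ (wt l)) = _
      rw [TL.mul_val, ih hl, take_append_take]

/-- The standard assignment. -/
def TL.std (k : ℕ) : ℕ → TL k := fun i => (⟨[i], by simp, by simp⟩ : TLc k)

theorem TL.std_val (k i : ℕ) : TL.val (TL.std k i) = [i] := rfl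

theorem TL.eval_std {k : ℕ} {l : List ℕ} (h : l ≠ []) :
    TL.val (eval (TL k) (TL.std k) (wt l)) = l.take (k + 1) := by
  rw [TL.eval_val _ h]
  congr 1
  clear h
  induction l with
  | nil => rfl
  | cons b l ih =>
    rw [List.map_cons, List.flatten_cons, ih]
    rfl

theorem take_flatten_map (k : ℕ) (f : ℕ → List ℕ) (hf : ∀ i, f i ≠ []) (l : List ℕ) :
    ((l.map f).flatten).take k = (((l.take k).map f).flatten).take k := by
  induction l generalizing k with
  | nil => simp
  | cons b l ih =>
    cases k with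
    | zero => simp
    | succ k =>
      rw [List.map_cons, List.flatten_cons, List.take_succ_cons, List.map_cons, List.flatten_cons,
        List.take_append, List.take_append]
      congr 1
      have h1 : 1 ≤ (f b).length := List.length_pos_iff.mpr (hf b)
      obtain ⟨j, hj⟩ : ∃ j, k + 1 - (f b).length + j = k := ⟨k - (k + 1 - (f b).length), by omega⟩
      have h2 := ih k
      have h3 := congrArg (List.take (k + 1 - (f b).length)) h2
      rw [List.take_take, List.take_take, min_eq_left (by omega)] at h3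
      exact h3

theorem TL.sat_wt {k : ℕ} {l₁ l₂ : List ℕ} (h1 : l₁ ≠ []) (h2 : l₂ ≠ [])
    (h : l₁.take (k + 1) = l₂.take (k + 1)) : Sat (TL k) (wt l₁) (wt l₂) := by
  intro ρ
  apply TL.ext
  rw [TL.eval_val _ h1, TL.eval_val _ h2,
    take_flatten_map (k + 1) _ (fun i => TL.val_ne (ρ i)) l₁, h,
    ← take_flatten_map (k + 1) _ (fun i => TL.val_ne (ρ i)) l₂]

theorem TL.take_eq {k : ℕ} {s t : Term} (h : Sat (TL k) s t) {M : ℕ} (hM : k ≤ M) :
    (ex M s).take (k + 1) = (ex M t).take (k + 1) := by
  have h1 := h (TL.std k)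
  have h2 := ((TL.aper k).mono hM).eval_ex (TL.std k)
  rw [h2 s, h2 t] at h1
  have h3 := congrArg TL.val h1
  rw [TL.eval_std (ex_ne_nil _ _), TL.eval_std (ex_ne_nil _ _)] at h3
  exact h3

theorem TL.sat_ex {k : ℕ} {s t : Term} {M : ℕ} (hM : k ≤ M)
    (h : (ex M s).take (k + 1) = (ex M t).take (k + 1)) : Sat (TL k) s t :=
  ((((TL.aper k).mono hM).sat_ex s).trans
    (TL.sat_wt (ex_ne_nil _ _) (ex_ne_nil _ _) h)).trans (((TL.aper k).mono hM).sat_ex t).symm

/-- The variety of semigroups truncated at length `k + 1`. -/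
def ZV (k : ℕ) : EpigroupVariety := varOf (TL k) k (TL.aper k).uniEpi

/-- The variety generated by `P`. -/
def PV : EpigroupVariety := varOf P3 1 P3.aper.uniEpi

/-- The variety of left zero semigroups. -/
def LZV : EpigroupVariety := varOf LZ2 0 LZ2.aper.uniEpi

/-- The variety generated by `Cap m`. -/
def CV (m : ℕ) : EpigroupVariety := varOf (Cap m) m (Cap.aper m).uniEpi

theorem ZV_satisfies {k : ℕ} {s t : Term} : (ZV k).Satisfies s t ↔ Sat (TL k) s t :=
  varOf_satisfies _

theorem PV_satisfies {s t : Term} : PV.Satisfies s t ↔ Sat P3 s t := varOf_satisfies _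

theorem LZV_satisfies {s t : Term} : LZV.Satisfies s t ↔ Sat LZ2 s t := varOf_satisfies _

theorem CV_satisfies {m : ℕ} {s t : Term} : (CV m).Satisfies s t ↔ Sat (Cap m) s t :=
  varOf_satisfies _

end Pool.Agent.Lib.MP_d7b8a3_al
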