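import Pool.Agent.Lib.MP_d7b8a3_al.Nil

/-!
# The identity `x²y = xy²`
-/

namespace Pool.Agent.Lib.MP_d7b8a3_al

/-- Standing assumptions for the second part: the words in which `0` occurs twice and `1` occurs
once are only equal, in `V`, to such words. -/
structure Bad (V : EpigroupVariety) : Prop where
  um : IsUpperModular V
  k1 : ∀ u : List ℕ, u.Perm [0, 0, 1] → ∀ t, V.Satisfies (wt u) t →
    ∃ u', u'.Perm [0, 0, 1] ∧ fl t = some u'

theorem Bad.op {V : EpigroupVariety} (hV : Bad V) : Bad (opVar V) := by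
  refine ⟨isUpperModular_op hV.um, ?_⟩
  intro u hu t ht
  rw [opVar_satisfies] at ht
  have hu0 : u ≠ [] := by
    rintro rfl
    exact absurd hu (by decide)
  have h1 : V.Satisfies (wt u.reverse) (rev t) := by
    refine EpigroupVariety.Satisfies.trans ?_ ht
    intro S _
    exact (sat_rev_wt hu0).symm
  obtain ⟨u', hu', h2⟩ := hV.k1 u.reverse (u.reverse_perm.trans hu) _ h1
  rw [fl_rev] at h2
  cases hf : fl t with
  | none => rw [hf] at h2; simp at h2
  | some w =>
    rw [hf] at h2
    simp only [Option.map_some, Option.some.injEq] at h2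
    refine ⟨w, ?_, rfl⟩
    rw [← h2] at hu'
    exact w.reverse_perm.symm.trans hu'

/-- The transposition of `0` and `1`. -/
def sw (i : ℕ) : ℕ := if i = 0 then 1 else if i = 1 then 0 else i

theorem sw_sw (i : ℕ) : sw (sw i) = i := by
  unfold sw
  by_cases h0 : i = 0
  · simp [h0]
  · by_cases h1 : i = 1
    · simp [h1]
    · simp [h0, h1]

theorem map_sw_sw (l : List ℕ) : (l.map sw).map sw = l := by
  rw [List.map_map]
  conv_rhs => rw [← List.map_id l]
  apply List.map_congr_left
  intro i _
  exact sw_sw i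

theorem Bad.k2 {V : EpigroupVariety} (hV : Bad V) {u : List ℕ} (hu : u.Perm [0, 1, 1]) {t : Term}
    (ht : V.Satisfies (wt u) t) : ∃ u', u'.Perm [0, 1, 1] ∧ fl t = some u' := by
  have hu0 : u ≠ [] := by
    rintro rfl
    exact absurd hu (by decide)
  have h1 : V.Satisfies (wt (u.map sw)) (ren sw t) := by
    rw [← ren_wt sw hu0]
    exact ht.subst _
  have h2 : (u.map sw).Perm [0, 0, 1] :=
    (hu.map sw).trans (by decide)
  obtain ⟨u', hu', h3⟩ := hV.k1 _ h2 _ h1
  rw [fl_ren] at h3
  cases hf : fl t with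
  | none => rw [hf] at h3; simp at h3
  | some w =>
    rw [hf] at h3
    simp only [Option.map_some, Option.some.injEq] at h3
    refine ⟨w, ?_, rfl⟩
    rw [← h3] at hu'
    have h4 := hu'.map sw
    rw [map_sw_sw] at h4
    exact h4.trans (by decide)

theorem Bad.two {V : EpigroupVariety} (hV : Bad V) {u : List ℕ} (hu : u.Perm [0, 1]) {t : Term}
    (ht : V.Satisfies (wt u) t) : ∃ u', u'.Perm [0, 1] ∧ fl t = some u' := by
  have hu0 : u ≠ [] := by
    rintro rfl
    exact absurd hu (by decide)
  have h1 : V.Satisfies (wt (0 :: u)) (.mul (.var 0) t) := by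
    rw [wt_cons hu0]
    exact (EpigroupVariety.Satisfies.refl V _).mul ht
  obtain ⟨u', hu', h2⟩ := hV.k1 _ (hu.cons 0) _ h1
  obtain ⟨a, b, h3, h4, rfl⟩ := fl_mul_eq_some h2
  simp only [fl, Option.some.injEq] at h3
  subst h3
  exact ⟨b, (List.perm_cons 0).mp hu', h4⟩

/-! ## Once occurring first and last letters -/

/-- `z` is the last letter of `l` and occurs once. -/
def LO (l : List ℕ) (z : ℕ) : Prop := l.getLast? = some z ∧ l.count z = 1

/-- `z` is the first letter of `l` and occurs once. -/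
def FO (l : List ℕ) (z : ℕ) : Prop := l.head? = some z ∧ l.count z = 1

theorem not_LO {l : List ℕ} {a : ℕ} (h : l.getLast? = some a) (h2 : 2 ≤ l.count a) (z : ℕ) :
    ¬ LO l z := by
  rintro ⟨h3, h4⟩
  rw [h] at h3
  simp only [Option.some.injEq] at h3
  subst h3
  omega

theorem not_FO {l : List ℕ} {a : ℕ} (h : l.head? = some a) (h2 : 2 ≤ l.count a) (z : ℕ) :
    ¬ FO l z := by
  rintro ⟨h3, h4⟩
  rw [h] at h3
  simp only [Option.some.injEq] at h3
  subst h3
  omega

theorem LO_reverse {l : List ℕ} {z : ℕ} : LO l.reverse z ↔ FO l z := by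
  unfold LO FO
  rw [List.getLast?_reverse, List.count_reverse]

theorem LO.split {l : List ℕ} {z : ℕ} (h : LO l z) : ∃ l', l = l' ++ [z] ∧ z ∉ l' := by
  obtain ⟨h1, h2⟩ := h
  obtain ⟨l', rfl⟩ := List.getLast?_eq_some_iff.mp h1
  refine ⟨l', rfl, fun hz => ?_⟩
  rw [List.count_append] at h2
  have := List.count_pos_iff.mpr hz
  simp at h2
  omega

theorem FO.split {l : List ℕ} {z : ℕ} (h : FO l z) : ∃ l', l = z :: l' ∧ z ∉ l' := by
  obtain ⟨h1, h2⟩ := h
  obtain ⟨l', rfl⟩ := List.head?_eq_some_iff.mp h1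
  refine ⟨l', rfl, fun hz => ?_⟩
  rw [List.count_cons_self] at h2
  have := List.count_pos_iff.mpr hz
  omega

theorem P3.sat_of {l₁ l₂ : List ℕ} (h1 : l₁ ≠ []) (h2 : l₂ ≠ []) (hc : ∀ i, i ∈ l₁ ↔ i ∈ l₂)
    (hlo : ∀ z, LO l₁ z ↔ LO l₂ z) : Sat P3 (wt l₁) (wt l₂) := by
  intro ρ
  have key : ∀ l₁ l₂ : List ℕ, l₁ ≠ [] → l₂ ≠ [] → (∀ i, i ∈ l₁ ↔ i ∈ l₂) →
      (∀ z, LO l₁ z ↔ LO l₂ z) → eval P3 ρ (wt l₁) = P3.a → eval P3 ρ (wt l₂) = P3.a := by
    intro l₁ l₂ h1 h2 hc hlo h
    obtain ⟨l', z, h3, h4, h5⟩ := (P3.eval_a ρ h1).mp h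
    have hz : z ∉ l' := by
      intro hz
      rw [h4 z hz] at h5
      exact P3.e_ne_a h5
    have h6 : LO l₁ z := by
      refine ⟨by rw [h3]; simp, ?_⟩
      rw [h3, List.count_append, List.count_eq_zero_of_not_mem hz]
      simp
    obtain ⟨l'', h7, h8⟩ := ((hlo z).mp h6).split
    rw [P3.eval_a ρ h2]
    refine ⟨l'', z, h7, fun i hi => ?_, h5⟩
    have h9 : i ∈ l₁ := (hc i).mpr (by rw [h7]; simp [hi])
    rw [h3, List.mem_append, List.mem_singleton] at h9
    rcases h9 with h9 | rfl
    · exact h4 i h9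
    · exact absurd hi h8
  have he : eval P3 ρ (wt l₁) = P3.e ↔ eval P3 ρ (wt l₂) = P3.e := by
    rw [P3.eval_e ρ h1, P3.eval_e ρ h2]
    exact ⟨fun h i hi => h i ((hc i).mpr hi), fun h i hi => h i ((hc i).mp hi)⟩
  rcases P3.cases (eval P3 ρ (wt l₁)) with h | h | h
  · rw [h, he.mp h]
  · rw [h, key l₁ l₂ h1 h2 hc hlo h]
  · rcases P3.cases (eval P3 ρ (wt l₂)) with h' | h' | h'
    · rw [he.mpr h', h']
    · rw [key l₂ l₁ h2 h1 (fun i => (hc i).symm) (fun z => (hlo z).symm) h', h']
    · rw [h, h']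

theorem P3op_sat_of {l₁ l₂ : List ℕ} (h1 : l₁ ≠ []) (h2 : l₂ ≠ []) (hc : ∀ i, i ∈ l₁ ↔ i ∈ l₂)
    (hfo : ∀ z, FO l₁ z ↔ FO l₂ z) : Sat (opAlg P3) (wt l₁) (wt l₂) := by
  rw [sat_op]
  refine ((sat_rev_wt h1).trans ?_).trans (sat_rev_wt h2).symm
  apply P3.sat_of (by simpa using h1) (by simpa using h2)
  · intro i
    rw [List.mem_reverse, List.mem_reverse, hc]
  · intro z
    rw [LO_reverse, LO_reverse, hfo]

theorem head?_wt {l : List ℕ} (h : l ≠ []) : l.head? = some (hd (wt l)) := by
  cases l with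
  | nil => exact absurd rfl h
  | cons a l => rw [hd_wt]; rfl

/-- The variety generated by the left zero band, `P` and its dual. -/
def ZZ : EpigroupVariety := LZV ⊔ (PV ⊔ varOf (opAlg P3) 1 P3.aper.uniEpi.opp)

theorem Aper.opp {S : UnarySemigroup} {m : ℕ} (h : Aper S m) : Aper (opAlg S) m := by
  refine ⟨fun x => ofOp_inj ?_, fun x => ofOp_inj ?_⟩
  · rw [ofOp_bar, ofOp_pw, h.bar_eq]
  · rw [ofOp_mul, ofOp_pw, pw_comm, h.stable]

theorem ZZ_sat {S : UnarySemigroup} (hS : S ∈ ZZ.carrier) {s t : Term} (h1 : Sat LZ2 s t)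
    (h2 : Sat P3 s t) (h3 : Sat (opAlg P3) s t) : Sat S s t :=
  hS s t (LZV_satisfies.mpr h1) (satisfies_sup (PV_satisfies.mpr h2) ((varOf_satisfies _).mpr h3))

theorem ZZ_lz {s t : Term} (h : ZZ.Satisfies s t) : Sat LZ2 s t :=
  h _ ((le_sup_left : LZV ≤ ZZ) (self_mem_varOf _))

theorem ZZ_p {s t : Term} (h : ZZ.Satisfies s t) : Sat P3 s t :=
  h _ ((le_sup_right : _ ≤ ZZ) ((le_sup_left : PV ≤ PV ⊔ varOf (opAlg P3) 1 P3.aper.uniEpi.opp)
    (self_mem_varOf _)))

theorem ZZ_pop {s t : Term} (h : ZZ.Satisfies s t) : Sat (opAlg P3) s t :=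
  h _ ((le_sup_right : _ ≤ ZZ) ((le_sup_right : _ ≤ PV ⊔ varOf (opAlg P3) 1 P3.aper.uniEpi.opp)
    (self_mem_varOf _)))

theorem ZZ_ex {S : UnarySemigroup} (hS : S ∈ ZZ.carrier) (s : Term) : Sat S s (wt (ex 1 s)) :=
  ZZ_sat hS ((LZ2.aper.mono (by norm_num)).sat_ex s) (P3.aper.sat_ex s) (P3.aper.opp.sat_ex s)

theorem ZZ_words {S : UnarySemigroup} (hS : S ∈ ZZ.carrier) {l₁ l₂ : List ℕ} (h1 : l₁ ≠ [])
    (h2 : l₂ ≠ []) (hh : l₁.head? = l₂.head?) (hc : ∀ i, i ∈ l₁ ↔ i ∈ l₂)
    (hlo : ∀ z, LO l₁ z ↔ LO l₂ z) (hfo : ∀ z, FO l₁ z ↔ FO l₂ z) : Sat S (wt l₁) (wt l₂) := by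
  apply ZZ_sat hS
  · rw [LZ2.sat_iff]
    rw [head?_wt h1, head?_wt h2] at hh
    exact Option.some.inj hh
  · exact P3.sat_of h1 h2 hc hlo
  · exact P3op_sat_of h1 h2 hc hfo

/-- The renaming sending `c` to `1` and every other variable to `0`. -/
def ind (c : ℕ) (j : ℕ) : ℕ := if j = c then 1 else 0

theorem map_ind_mem {c : ℕ} {l : List ℕ} {i : ℕ} (h : i ∈ l.map (ind c)) : i = 0 ∨ i = 1 := by
  obtain ⟨k, -, rfl⟩ := List.mem_map.mp h
  unfold ind
  split_ifs
  · exact Or.inr rfl
  · exact Or.inl rfl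

theorem map_ind_not_mem {c : ℕ} {l : List ℕ} (h : c ∉ l) :
    l.map (ind c) = List.replicate l.length 0 := by
  rw [List.eq_replicate_iff]
  refine ⟨by simp, fun b hb => ?_⟩
  obtain ⟨k, hk, rfl⟩ := List.mem_map.mp hb
  exact if_neg (by rintro rfl; exact h hk)

theorem one_mem_map_ind {c : ℕ} {l : List ℕ} (h : c ∈ l) : 1 ∈ l.map (ind c) :=
  List.mem_map.mpr ⟨c, h, if_pos rfl⟩

theorem count_map_ind (c : ℕ) (l : List ℕ) : (l.map (ind c)).count 1 = l.count c := by
  induction l with
  | nil => rfl
  | cons b l ih =>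
    rw [List.map_cons, List.count_cons, List.count_cons, ih]
    congr 1
    unfold ind
    by_cases hb : b = c
    · simp [hb]
    · simp [hb]

theorem getLast?_map_ind {c : ℕ} {l : List ℕ} (h : (l.map (ind c)).getLast? = some 1) :
    l.getLast? = some c := by
  rw [List.getLast?_map] at h
  cases hl : l.getLast? with
  | none => rw [hl] at h; simp at h
  | some y =>
    rw [hl] at h
    simp only [Option.map_some, Option.some.injEq] at h
    unfold ind at h
    by_contra hne
    rw [if_neg (by rintro rfl; exact hne rfl)] at h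
    simp at h

theorem head?_map_ind {c : ℕ} {l : List ℕ} (h : (l.map (ind c)).head? = some 1) :
    l.head? = some c := by
  rw [List.head?_map] at h
  cases hl : l.head? with
  | none => rw [hl] at h; simp at h
  | some y =>
    rw [hl] at h
    simp only [Option.map_some, Option.some.injEq] at h
    unfold ind at h
    by_contra hne
    rw [if_neg (by rintro rfl; exact hne rfl)] at h
    simp at h

theorem mem_two {w : List ℕ} (hw : ∀ i ∈ w, i = 0 ∨ i = 1) (h1 : 1 ∈ w) (h0 : 0 ∈ w) (i : ℕ) :
    i ∈ w ↔ i = 0 ∨ i = 1 :=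
  ⟨hw i, fun h => by rcases h with rfl | rfl <;> assumption⟩

theorem getLast?_two (l : List ℕ) (a b : ℕ) : (l ++ [a, b]).getLast? = some b := by
  rw [List.getLast?_append_of_ne_nil _ (by simp)]
  rfl

/-- An identity with different contents. -/
theorem ZZ_d1 {S : UnarySemigroup} (hS : S ∈ ZZ.carrier) {l₁ l₂ : List ℕ} (h1 : l₁ ≠ [])
    (h2 : l₂ ≠ []) (h : Sat S (wt l₁) (wt l₂)) {c : ℕ} (hc1 : c ∉ l₁) (hc2 : c ∈ l₂) :
    Sat S (wt [0, 0, 1]) (wt [0, 1, 1]) := by
  have h3 := h.ren h1 h2 (ind c)
  rw [map_ind_not_mem hc1] at h3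
  have hlen : 0 < l₁.length := List.length_pos_iff.mpr h1
  have h4 := h3.cong (by simp; omega) (by simpa using h2) [0, 0] [0, 0]
  have ha : Sat S (wt ([0, 0] ++ List.replicate l₁.length 0 ++ [0, 0])) (wt [0, 0]) := by
    apply ZZ_words hS (by simp) (by simp) (by simp)
    · intro i
      simp only [List.mem_append, List.mem_cons, List.not_mem_nil, or_false, List.mem_replicate]
      constructor
      · rintro (((h | h) | ⟨-, h⟩) | (h | h)) <;> exact Or.inl h
      · rintro (h | h) <;> exact Or.inr (Or.inl h)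
    · intro z
      refine iff_of_false (not_LO (a := 0) (getLast?_two _ _ _) (by simp [List.count_append]) z)
        (not_LO (a := 0) (by simp) (by simp) z)
    · intro z
      refine iff_of_false (not_FO (a := 0) (by simp) (by simp [List.count_append]) z)
        (not_FO (a := 0) (by simp) (by simp) z)
  have hb : Sat S (wt ([0, 0] ++ l₂.map (ind c) ++ [0, 0])) (wt [0, 0, 1, 1]) := by
    apply ZZ_words hS (by simp) (by simp) (by simp)
    · intro i
      have hw : ∀ i ∈ [0, 0] ++ l₂.map (ind c) ++ [0, 0], i = 0 ∨ i = 1 := by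
        intro i hi
        simp only [List.mem_append, List.mem_cons, List.not_mem_nil, or_false] at hi
        rcases hi with ((h | h) | h) | (h | h)
        · exact Or.inl h
        · exact Or.inl h
        · exact map_ind_mem h
        · exact Or.inl h
        · exact Or.inl h
      rw [mem_two hw (List.mem_append_left _ (List.mem_append_right _ (one_mem_map_ind hc2)))
        (by simp)]
      simp
    · intro z
      refine iff_of_false (not_LO (a := 0) (getLast?_two _ _ _) (by simp [List.count_append]) z)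
        (not_LO (a := 1) (by simp) (by simp) z)
    · intro z
      refine iff_of_false (not_FO (a := 0) (by simp) (by simp [List.count_append]) z)
        (not_FO (a := 0) (by simp) (by simp) z)
  have h5 : Sat S (wt [0, 0]) (wt [0, 0, 1, 1]) := (ha.symm.trans h4).trans hb
  have h6 : Sat S (wt [0, 0, 1]) (wt [0, 0, 1, 1]) := by
    refine (h5.cong_right (by simp) (by simp) (l := [1]) (by simp)).trans ?_
    apply ZZ_words hS (by simp) (by simp) (by simp)
    · intro i; simp
    · intro z
      exact iff_of_false (not_LO (a := 1) (by simp) (by simp) z)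
        (not_LO (a := 1) (by simp) (by simp) z)
    · intro z
      exact iff_of_false (not_FO (a := 0) (by simp) (by simp) z)
        (not_FO (a := 0) (by simp) (by simp) z)
  have h7 : Sat S (wt [0, 1, 1]) (wt [0, 0, 1, 1]) := by
    have h8 : Sat S (wt [1, 1]) (wt [1, 1, 0, 0]) := by
      have := h5.ren (by simp) (by simp) sw
      simpa [sw] using this
    refine (h8.cong_left (by simp) (by simp) (l := [0]) (by simp)).trans ?_
    apply ZZ_words hS (by simp) (by simp) (by simp)
    · intro i; simp; tauto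
    · intro z
      exact iff_of_false (not_LO (a := 0) (by simp) (by simp) z)
        (not_LO (a := 1) (by simp) (by simp) z)
    · intro z
      exact iff_of_false (not_FO (a := 0) (by simp) (by simp) z)
        (not_FO (a := 0) (by simp) (by simp) z)
  exact h6.trans h7.symm

/-- An identity with the same content and different once occurring last letters. -/
theorem ZZ_d2 {S : UnarySemigroup} (hS : S ∈ ZZ.carrier) {l₁ l₂ : List ℕ} (h1 : l₁ ≠ [])
    (h2 : l₂ ≠ []) (h : Sat S (wt l₁) (wt l₂)) (hcont : ∀ i, i ∈ l₁ ↔ i ∈ l₂) {z : ℕ}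
    (hz1 : LO l₁ z) (hz2 : ¬ LO l₂ z) : Sat S (wt [0, 0, 1]) (wt [0, 0, 1, 1]) := by
  have h3 := h.ren h1 h2 (ind z)
  obtain ⟨l', rfl, hl'⟩ := hz1.split
  have e1 : (l' ++ [z]).map (ind z) = List.replicate l'.length 0 ++ [1] := by
    rw [List.map_append, map_ind_not_mem hl']
    simp [ind]
  rw [e1] at h3
  have hz : z ∈ l₂ := (hcont z).mp (by simp)
  have hw0 : l₂.map (ind z) ≠ [] := by simpa using h2
  have h4 := h3.cong_left (by simp) hw0 (l := [0, 0]) (by simp)
  have ha : Sat S (wt ([0, 0] ++ (List.replicate l'.length 0 ++ [1]))) (wt [0, 0, 1]) := by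
    apply ZZ_words hS (by simp) (by simp) (by simp)
    · intro i
      simp only [List.mem_append, List.mem_cons, List.not_mem_nil, or_false, List.mem_replicate]
      tauto
    · intro z'
      have h5 : ([0, 0] ++ (List.replicate l'.length 0 ++ [1])).getLast? = some 1 := by
        rw [← List.append_assoc, List.getLast?_append]; rfl
      have h6 : ([0, 0] ++ (List.replicate l'.length 0 ++ [1])).count 1 = 1 := by
        simp [List.count_append, List.count_replicate]
      constructor
      · rintro ⟨h7, -⟩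
        rw [h5] at h7
        simp only [Option.some.injEq] at h7
        subst h7
        exact ⟨rfl, by simp⟩
      · rintro ⟨h7, -⟩
        simp at h7
        subst h7
        exact ⟨h5, h6⟩
    · intro z
      refine iff_of_false (not_FO (a := 0) (by simp) (by simp [List.count_append]) z)
        (not_FO (a := 0) (by simp) (by simp) z)
  have hb : Sat S (wt ([0, 0] ++ l₂.map (ind z))) (wt [0, 0, 1, 1]) := by
    apply ZZ_words hS (by simp) (by simp) (by simp)
    · intro i
      have hw : ∀ i ∈ [0, 0] ++ l₂.map (ind z), i = 0 ∨ i = 1 := by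
        intro i hi
        simp only [List.mem_append, List.mem_cons, List.not_mem_nil, or_false] at hi
        rcases hi with (h | h) | h
        · exact Or.inl h
        · exact Or.inl h
        · exact map_ind_mem h
      rw [mem_two hw (List.mem_append_right _ (one_mem_map_ind hz)) (by simp)]
      simp
    · intro z'
      refine iff_of_false ?_ (not_LO (a := 1) (by simp) (by simp) z')
      rintro ⟨h5, h6⟩
      rw [List.getLast?_append_of_ne_nil _ hw0] at h5
      have h7 : z' ∈ l₂.map (ind z) := List.mem_of_getLast? h5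
      rcases map_ind_mem h7 with rfl | rfl
      · rw [List.count_append] at h6
        simp at h6
        omega
      · apply hz2
        refine ⟨getLast?_map_ind h5, ?_⟩
        rw [List.count_append, count_map_ind] at h6
        simpa using h6
    · intro z
      refine iff_of_false (not_FO (a := 0) (by simp) (by simp [List.count_append]) z)
        (not_FO (a := 0) (by simp) (by simp) z)
  exact (ha.symm.trans h4).trans hb

/-- An identity with the same content and different once occurring first letters. -/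
theorem ZZ_d3 {S : UnarySemigroup} (hS : S ∈ ZZ.carrier) {l₁ l₂ : List ℕ} (h1 : l₁ ≠ [])
    (h2 : l₂ ≠ []) (h : Sat S (wt l₁) (wt l₂)) (hcont : ∀ i, i ∈ l₁ ↔ i ∈ l₂) {z : ℕ}
    (hz1 : FO l₁ z) (hz2 : ¬ FO l₂ z) : Sat S (wt [0, 1, 1]) (wt [0, 0, 1, 1]) := by
  have h3 := h.ren h1 h2 (ind z)
  obtain ⟨l', rfl, hl'⟩ := hz1.split
  have e1 : (z :: l').map (ind z) = 1 :: List.replicate l'.length 0 := by
    rw [List.map_cons, map_ind_not_mem hl']
    simp [ind]
  rw [e1] at h3
  have hz : z ∈ l₂ := (hcont z).mp (by simp)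
  have hw0 : l₂.map (ind z) ≠ [] := by simpa using h2
  have h4 := h3.cong_right (by simp) hw0 (l := [0, 0]) (by simp)
  have ha : Sat S (wt (1 :: List.replicate l'.length 0 ++ [0, 0])) (wt [1, 0, 0]) := by
    apply ZZ_words hS (by simp) (by simp) (by simp)
    · intro i
      simp only [List.mem_append, List.mem_cons, List.not_mem_nil, or_false, List.mem_replicate]
      tauto
    · intro z
      refine iff_of_false (not_LO (a := 0) (getLast?_two _ _ _) (by simp [List.count_append]) z)
        (not_LO (a := 0) (by simp) (by simp) z)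
    · intro z'
      have h6 : (1 :: List.replicate l'.length 0 ++ [0, 0]).count 1 = 1 := by
        simp [List.count_append, List.count_replicate]
      constructor
      · rintro ⟨h7, -⟩
        simp at h7
        subst h7
        exact ⟨rfl, by simp⟩
      · rintro ⟨h7, -⟩
        simp at h7
        subst h7
        exact ⟨by simp, h6⟩
  have hmem : ∀ i, i ∈ l₂.map (ind z) ++ [0, 0] ↔ i = 0 ∨ i = 1 := by
    have hw : ∀ i ∈ l₂.map (ind z) ++ [0, 0], i = 0 ∨ i = 1 := by
      intro i hi
      simp only [List.mem_append, List.mem_cons, List.not_mem_nil, or_false] at hi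
      rcases hi with h | (h | h)
      · exact map_ind_mem h
      · exact Or.inl h
      · exact Or.inl h
    intro i
    exact mem_two hw (List.mem_append_left _ (one_mem_map_ind hz)) (by simp) i
  have hlo : ∀ z', ¬ LO (l₂.map (ind z) ++ [0, 0]) z' := by
    intro z'
    exact not_LO (a := 0) (by rw [List.getLast?_append]; rfl) (by simp [List.count_append]) z'
  obtain ⟨b, w', hbw⟩ := List.exists_cons_of_ne_nil hw0
  have hb01 : b = 0 ∨ b = 1 := map_ind_mem (l := l₂) (c := z) (by rw [hbw]; simp)
  have hres : Sat S (wt [1, 0, 0]) (wt [1, 1, 0, 0]) := by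
    rcases hb01 with rfl | rfl
    · have hb : Sat S (wt (l₂.map (ind z) ++ [0, 0])) (wt [0, 0, 1, 1]) := by
        apply ZZ_words hS (by simp) (by simp) (by rw [hbw]; rfl)
        · intro i
          rw [hmem]; simp
        · intro z'
          exact iff_of_false (hlo z') (not_LO (a := 1) (by simp) (by simp) z')
        · intro z'
          refine iff_of_false (not_FO (a := 0) (by rw [hbw]; rfl) ?_ z')
            (not_FO (a := 0) (by simp) (by simp) z')
          rw [List.count_append]
          simp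
      have h5 : Sat S (wt [1, 0, 0]) (wt [0, 0, 1, 1]) := (ha.symm.trans h4).trans hb
      have h6 : Sat S (wt [1, 1, 0, 0]) (wt [0, 0, 1, 1, 1, 1]) := by
        intro ρ
        have h7 := h5 (fun i => if i = 1 then ρ 1 * ρ 1 else ρ 0)
        have h8 : ρ 1 * ρ 1 * (ρ 0 * ρ 0) = ρ 0 * (ρ 0 * (ρ 1 * ρ 1 * (ρ 1 * ρ 1))) := h7
        show ρ 1 * (ρ 1 * (ρ 0 * ρ 0)) = ρ 0 * (ρ 0 * (ρ 1 * (ρ 1 * (ρ 1 * ρ 1))))
        simp only [mul_assoc] at h8 ⊢
        exact h8
      have h7 : Sat S (wt [0, 0, 1, 1, 1, 1]) (wt [0, 0, 1, 1]) := by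
        apply ZZ_words hS (by simp) (by simp) (by simp)
        · intro i; simp
        · intro z'
          exact iff_of_false (not_LO (a := 1) (by simp) (by simp) z')
            (not_LO (a := 1) (by simp) (by simp) z')
        · intro z'
          exact iff_of_false (not_FO (a := 0) (by simp) (by simp) z')
            (not_FO (a := 0) (by simp) (by simp) z')
      exact h5.trans (h6.trans h7).symm
    · refine (ha.symm.trans h4).trans ?_
      apply ZZ_words hS (by simp) (by simp) (by rw [hbw]; rfl)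
      · intro i
        rw [hmem]; simp; tauto
      · intro z'
        exact iff_of_false (hlo z') (not_LO (a := 0) (by simp) (by simp) z')
      · intro z'
        refine iff_of_false ?_ (not_FO (a := 1) (by simp) (by simp) z')
        rintro ⟨h5, h6⟩
        have h7 : (l₂.map (ind z)).head? = some 1 := by rw [hbw]; rfl
        have h8 : z' = 1 := by
          rw [hbw] at h5
          simp at h5
          exact h5.symm
        subst h8
        apply hz2
        refine ⟨head?_map_ind h7, ?_⟩
        rw [List.count_append, count_map_ind] at h6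
        simpa using h6
  have := hres.ren (by simp) (by simp) sw
  simpa [sw] using this

/-! ## The languages -/

theorem perm001 {u : List ℕ} (h : u.Perm [0, 0, 1]) : u = [0, 0, 1] ∨ u = [0, 1, 0] ∨ u = [1, 0, 0] := by
  have hl := h.length_eq
  match u, hl with
  | [a, b, c], _ =>
    have h0 := h.count_eq 0
    have h1 := h.count_eq 1
    simp only [List.count_cons, List.count_nil] at h0 h1
    by_cases ha : a = 0 <;> by_cases hb : b = 0 <;> by_cases hc : c = 0 <;> simp_all

theorem perm011 {u : List ℕ} (h : u.Perm [0, 1, 1]) : u = [0, 1, 1] ∨ u = [1, 0, 1] ∨ u = [1, 1, 0] := by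
  have h1 := perm001 (u := u.map sw) ((h.map sw).trans (by decide))
  rcases h1 with h1 | h1 | h1
  · have := congrArg (List.map sw) h1
    rw [map_sw_sw] at this
    exact Or.inr (Or.inr this)
  · have := congrArg (List.map sw) h1
    rw [map_sw_sw] at this
    exact Or.inr (Or.inl this)
  · have := congrArg (List.map sw) h1
    rw [map_sw_sw] at this
    exact Or.inl this

end Pool.Agent.Lib.MP_d7b8a3_al
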