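import Pool.Agent.Lib.MP_d7b8a3_al.Defs

/-!
# Basic tools: substitutions, words, generated varieties, syntactic algebras
-/

namespace Pool.Agent.Lib.MP_d7b8a3_al

/-! ## Identities of joins and meets, upper-modularity -/

theorem satisfies_sup {V W : EpigroupVariety} {s t : Term} (h1 : V.Satisfies s t)
    (h2 : W.Satisfies s t) : (V ⊔ W).Satisfies s t := fun _ hS => hS s t h1 h2

theorem satisfies_mono {V W : EpigroupVariety} (h : V ≤ W) {s t : Term} (h2 : W.Satisfies s t) :
    V.Satisfies s t := fun S hS => h2 S (h hS)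

theorem mem_inf {V W : EpigroupVariety} {S : UnarySemigroup} :
    S ∈ (V ⊓ W).carrier ↔ S ∈ V.carrier ∧ S ∈ W.carrier := Iff.rfl

theorem mem_sup {V W : EpigroupVariety} {S : UnarySemigroup} :
    S ∈ (V ⊔ W).carrier ↔ ∀ s t, V.Satisfies s t → W.Satisfies s t → Sat S s t := Iff.rfl

/-- The key consequence of upper-modularity. -/
theorem lemmaU {V : EpigroupVariety} (hV : IsUpperModular V) {Y Z : EpigroupVariety} (hY : Y ≤ V)
    {A : UnarySemigroup} (hA : A ∈ V.carrier) (hA2 : A ∈ (Z ⊔ Y).carrier) {s t : Term}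
    (h1 : (Z ⊓ V).Satisfies s t) (h2 : Y.Satisfies s t) : Sat A s t := by
  have h3 : A ∈ ((Z ⊔ Y) ⊓ V).carrier := ⟨hA2, hA⟩
  rw [hV Y Z hY] at h3
  exact h3 s t h1 h2

/-! ## Substitution -/

/-- Substitution of terms for variables. -/
def subst (σ : ℕ → Term) : Term → Term
  | .var i => σ i
  | .mul s t => .mul (subst σ s) (subst σ t)
  | .bar s => .bar (subst σ s)

theorem eval_subst (S : UnarySemigroup) (ρ : ℕ → S) (σ : ℕ → Term) (t : Term) :
    eval S ρ (subst σ t) = eval S (fun i => eval S ρ (σ i)) t := by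
  induction t with
  | var i => rfl
  | mul s t ihs iht =>
    show eval S ρ (subst σ s) * eval S ρ (subst σ t) = _
    rw [ihs, iht]; rfl
  | bar s ih =>
    show S.bar (eval S ρ (subst σ s)) = _
    rw [ih]; rfl

theorem Sat.subst {S : UnarySemigroup} {s t : Term} (h : Sat S s t) (σ : ℕ → Term) :
    Sat S (subst σ s) (subst σ t) := by
  intro ρ
  rw [eval_subst, eval_subst]
  exact h _

theorem Sat.symm {S : UnarySemigroup} {s t : Term} (h : Sat S s t) : Sat S t s :=
  fun ρ => (h ρ).symm

theorem Sat.trans {S : UnarySemigroup} {s t u : Term} (h : Sat S s t) (h' : Sat S t u) :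
    Sat S s u := fun ρ => (h ρ).trans (h' ρ)

theorem Sat.mul {S : UnarySemigroup} {s t s' t' : Term} (h : Sat S s t) (h' : Sat S s' t') :
    Sat S (.mul s s') (.mul t t') := by
  intro ρ
  show eval S ρ s * eval S ρ s' = eval S ρ t * eval S ρ t'
  rw [h ρ, h' ρ]

theorem Sat.refl (S : UnarySemigroup) (s : Term) : Sat S s s := fun _ => rfl

theorem EpigroupVariety.Satisfies.subst {V : EpigroupVariety} {s t : Term} (h : V.Satisfies s t) (σ : ℕ → Term) :
    V.Satisfies (subst σ s) (subst σ t) := fun S hS => (h S hS).subst σ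

theorem EpigroupVariety.Satisfies.symm {V : EpigroupVariety} {s t : Term} (h : V.Satisfies s t) :
    V.Satisfies t s := fun S hS => (h S hS).symm

theorem EpigroupVariety.Satisfies.trans {V : EpigroupVariety} {s t u : Term} (h : V.Satisfies s t)
    (h' : V.Satisfies t u) : V.Satisfies s u := fun S hS => (h S hS).trans (h' S hS)

theorem EpigroupVariety.Satisfies.mul {V : EpigroupVariety} {s t s' t' : Term} (h : V.Satisfies s t)
    (h' : V.Satisfies s' t') : V.Satisfies (.mul s s') (.mul t t') :=
  fun S hS => (h S hS).mul (h' S hS)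

theorem EpigroupVariety.Satisfies.refl (V : EpigroupVariety) (s : Term) : V.Satisfies s s := fun S _ => Sat.refl S s

/-! ## The variety generated by an algebra -/

/-- The epigroup variety generated by an epigroup of bounded index. -/
def varOf (A : UnarySemigroup) (n : ℕ) (h : UniEpi A n) : EpigroupVariety where
  carrier := {S | ∀ s t, Sat A s t → Sat S s t}
  isEpigroup := by
    intro S hS
    refine UniEpi.isEpigroup (n := n) ?_
    rw [uniEpi_iff_sat] at h ⊢
    exact ⟨hS _ _ h.1, hS _ _ h.2.1, hS _ _ h.2.2⟩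
  defined := by
    refine ⟨{p | Sat A p.1 p.2}, fun S => ?_⟩
    constructor
    · intro h p hp
      exact h _ _ hp
    · intro h s t hst
      exact h (s, t) hst

theorem self_mem_varOf {A : UnarySemigroup} {n : ℕ} (h : UniEpi A n) :
    A ∈ (varOf A n h).carrier := fun _ _ h => h

theorem varOf_satisfies {A : UnarySemigroup} {n : ℕ} (h : UniEpi A n) {s t : Term} :
    (varOf A n h).Satisfies s t ↔ Sat A s t :=
  ⟨fun h2 => h2 A (self_mem_varOf h), fun h2 _ hS => hS s t h2⟩

theorem varOf_le {A : UnarySemigroup} {n : ℕ} (h : UniEpi A n) {V : EpigroupVariety}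
    (hA : A ∈ V.carrier) : varOf A n h ≤ V := by
  intro S hS
  rw [mem_iff]
  intro s t hst
  exact hS s t (hst A hA)

/-! ## Words -/

/-- The term associated with a word (a nonempty list of variables). -/
def wt : List ℕ → Term
  | [] => .var 0
  | [a] => .var a
  | a :: b :: l => .mul (.var a) (wt (b :: l))

theorem wt_cons {a : ℕ} {l : List ℕ} (h : l ≠ []) : wt (a :: l) = .mul (.var a) (wt l) := by
  cases l with
  | nil => exact absurd rfl h
  | cons b l => rfl

theorem eval_wt_append (S : UnarySemigroup) (ρ : ℕ → S) {l₁ l₂ : List ℕ} (h1 : l₁ ≠ [])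
    (h2 : l₂ ≠ []) : eval S ρ (wt (l₁ ++ l₂)) = eval S ρ (wt l₁) * eval S ρ (wt l₂) := by
  induction l₁ with
  | nil => exact absurd rfl h1
  | cons a l ih =>
    by_cases hl : l = []
    · subst hl
      rw [List.singleton_append, wt_cons h2]
      rfl
    · rw [List.cons_append, wt_cons (by simp [hl]), wt_cons hl]
      show ρ a * eval S ρ (wt (l ++ l₂)) = ρ a * eval S ρ (wt l) * eval S ρ (wt l₂)
      rw [ih hl, mul_assoc]

theorem sat_wt_append {S : UnarySemigroup} {l₁ l₂ : List ℕ} (h1 : l₁ ≠ [])
    (h2 : l₂ ≠ []) : Sat S (wt (l₁ ++ l₂)) (.mul (wt l₁) (wt l₂)) :=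
  fun ρ => eval_wt_append S ρ h1 h2

/-- The word obtained from a term by replacing `bar s` by the power `s ^ (m + 1)`. -/
def ex (m : ℕ) : Term → List ℕ
  | .var i => [i]
  | .mul s t => ex m s ++ ex m t
  | .bar s => (List.replicate (m + 1) (ex m s)).flatten

/-- The word of a term without `bar`. -/
def fl : Term → Option (List ℕ)
  | .var i => some [i]
  | .mul s t => match fl s, fl t with
    | some a, some b => some (a ++ b)
    | _, _ => none
  | .bar _ => none

theorem ex_ne_nil (m : ℕ) (t : Term) : ex m t ≠ [] := by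
  induction t with
  | var i => simp [ex]
  | mul s t ihs iht => simp [ex, ihs]
  | bar s ih =>
    show (List.replicate (m + 1) (ex m s)).flatten ≠ []
    rw [List.replicate_succ, List.flatten_cons]
    simp [ih]

theorem fl_mul_eq_some {s t : Term} {u : List ℕ} (h : fl (.mul s t) = some u) :
    ∃ a b, fl s = some a ∧ fl t = some b ∧ u = a ++ b := by
  unfold fl at h
  cases hs : fl s with
  | none => rw [hs] at h; simp at h
  | some a =>
    cases ht : fl t with
    | none => rw [hs, ht] at h; simp at h
    | some b =>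
      rw [hs, ht] at h
      simp only [Option.some.injEq] at h
      exact ⟨a, b, rfl, rfl, h.symm⟩

theorem fl_mul {s t : Term} {a b : List ℕ} (h1 : fl s = some a) (h2 : fl t = some b) :
    fl (.mul s t) = some (a ++ b) := by
  unfold fl
  rw [h1, h2]

theorem ex_of_fl {t : Term} {u : List ℕ} (h : fl t = some u) (m : ℕ) : ex m t = u := by
  induction t generalizing u with
  | var i => simpa [fl, ex] using h
  | mul s t ihs iht =>
    obtain ⟨a, b, h1, h2, rfl⟩ := fl_mul_eq_some h
    show ex m s ++ ex m t = a ++ b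
    rw [ihs h1, iht h2]
  | bar s ih => simp [fl] at h

theorem fl_ne_nil {t : Term} {u : List ℕ} (h : fl t = some u) : u ≠ [] := by
  rw [← ex_of_fl h 0]
  exact ex_ne_nil 0 t

theorem length_ex_of_fl_none {t : Term} (h : fl t = none) (m : ℕ) : m + 1 ≤ (ex m t).length := by
  induction t with
  | var i => simp [fl] at h
  | mul s t ihs iht =>
    show m + 1 ≤ (ex m s ++ ex m t).length
    rw [List.length_append]
    cases hs : fl s with
    | none => have := ihs hs; omega
    | some a =>
      cases ht : fl t with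
      | none => have := iht ht; omega
      | some b => rw [fl_mul hs ht] at h; simp at h
  | bar s ih =>
    show m + 1 ≤ (List.replicate (m + 1) (ex m s)).flatten.length
    have h1 : 1 ≤ (ex m s).length := List.length_pos_iff.mpr (ex_ne_nil m s)
    rw [List.length_flatten, List.map_replicate, List.sum_replicate, smul_eq_mul]
    nlinarith

theorem fl_of_ex {t : Term} {m : ℕ} {u : List ℕ} (h : ex m t = u) (hm : u.length ≤ m) :
    fl t = some u := by
  cases ht : fl t with
  | none =>
    have := length_ex_of_fl_none ht m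
    rw [h] at this
    omega
  | some a => rw [← h, ex_of_fl ht]

theorem eval_of_fl (S : UnarySemigroup) (ρ : ℕ → S) {t : Term} {u : List ℕ} (h : fl t = some u) :
    eval S ρ t = eval S ρ (wt u) := by
  induction t generalizing u with
  | var i =>
    simp only [fl, Option.some.injEq] at h
    subst h
    rfl
  | mul s t ihs iht =>
    obtain ⟨a, b, h1, h2, rfl⟩ := fl_mul_eq_some h
    rw [eval_wt_append S ρ (fl_ne_nil h1) (fl_ne_nil h2)]
    show eval S ρ s * eval S ρ t = _
    rw [ihs h1, iht h2]
  | bar s ih => simp [fl] at h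

theorem fl_wt {u : List ℕ} (h : u ≠ []) : fl (wt u) = some u := by
  induction u with
  | nil => exact absurd rfl h
  | cons a l ih =>
    by_cases hl : l = []
    · subst hl; rfl
    · rw [wt_cons hl]
      exact fl_mul (a := [a]) rfl (ih hl)

/-- `S` satisfies `bar x = x ^ (m + 1)` and `x ^ (m + 2) = x ^ (m + 1)`. -/
structure Aper (S : UnarySemigroup) (m : ℕ) : Prop where
  bar_eq : ∀ x : S, S.bar x = pw x m
  stable : ∀ x : S, pw x m * x = pw x m

theorem pw_stable {S : Type} [Semigroup S] {x : S} {m : ℕ} (h : pw x m * x = pw x m) (k : ℕ) :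
    pw x (m + k) = pw x m := by
  induction k with
  | zero => rfl
  | succ k ih =>
    show pw x (m + k) * x = pw x m
    rw [ih, h]

theorem Aper.mono {S : UnarySemigroup} {m m' : ℕ} (h : Aper S m) (hm : m ≤ m') : Aper S m' := by
  obtain ⟨k, rfl⟩ := Nat.exists_eq_add_of_le hm
  constructor
  · intro x
    rw [pw_stable (h.stable x), h.bar_eq]
  · intro x
    rw [pw_stable (h.stable x), h.stable]

theorem Aper.uniEpi {S : UnarySemigroup} {m : ℕ} (h : Aper S m) : UniEpi S m := by
  intro x
  rw [h.bar_eq]
  have h1 : x * pw x m = pw x m := by rw [pw_comm, h.stable]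
  have h2 : pw x m * pw x m = pw x m := by
    rw [pw_add, show m + m + 1 = m + (m + 1) by omega, pw_stable (h.stable x)]
  refine ⟨pw_comm x m, by rw [h.stable, h2], ?_⟩
  show pw x m * x * pw x m = pw x m
  rw [h.stable, h2]

theorem flatten_replicate_ne_nil {l : List ℕ} (h : l ≠ []) (m : ℕ) :
    (List.replicate (m + 1) l).flatten ≠ [] := by
  rw [List.replicate_succ, List.flatten_cons]
  simp [h]

theorem eval_wt_replicate (S : UnarySemigroup) (ρ : ℕ → S) {l : List ℕ} (h : l ≠ []) (m : ℕ) :
    eval S ρ (wt (List.replicate (m + 1) l).flatten) = pw (eval S ρ (wt l)) m := by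
  induction m with
  | zero => simp [List.replicate_succ, pw]
  | succ m ih =>
    rw [List.replicate_succ, List.flatten_cons, eval_wt_append S ρ h (flatten_replicate_ne_nil h m),
      ih]
    rw [pw_comm]
    rfl

theorem Aper.eval_ex {S : UnarySemigroup} {m : ℕ} (h : Aper S m) (ρ : ℕ → S) (t : Term) :
    eval S ρ t = eval S ρ (wt (ex m t)) := by
  induction t with
  | var i => rfl
  | mul s t ihs iht =>
    show eval S ρ s * eval S ρ t = eval S ρ (wt (ex m s ++ ex m t))
    rw [eval_wt_append S ρ (ex_ne_nil m s) (ex_ne_nil m t), ihs, iht]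
  | bar s ih =>
    show S.bar (eval S ρ s) = eval S ρ (wt (List.replicate (m + 1) (ex m s)).flatten)
    rw [eval_wt_replicate S ρ (ex_ne_nil m s), ← ih, h.bar_eq]

theorem Aper.sat_ex {S : UnarySemigroup} {m : ℕ} (h : Aper S m) (t : Term) :
    Sat S t (wt (ex m t)) := fun ρ => h.eval_ex ρ t

/-- Renaming of variables. -/
def ren (f : ℕ → ℕ) (t : Term) : Term := subst (fun i => .var (f i)) t

theorem ren_wt (f : ℕ → ℕ) {l : List ℕ} (h : l ≠ []) : ren f (wt l) = wt (l.map f) := by
  induction l with
  | nil => exact absurd rfl h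
  | cons a l ih =>
    by_cases hl : l = []
    · subst hl; rfl
    · rw [wt_cons hl, List.map_cons, wt_cons (by simpa using hl), ← ih hl]
      rfl

theorem Sat.ren {S : UnarySemigroup} {l₁ l₂ : List ℕ} (h : Sat S (wt l₁) (wt l₂)) (h1 : l₁ ≠ [])
    (h2 : l₂ ≠ []) (f : ℕ → ℕ) : Sat S (wt (l₁.map f)) (wt (l₂.map f)) := by
  rw [← ren_wt f h1, ← ren_wt f h2]
  exact h.subst _

/-! ## Contexts -/

/-- `lmul α s` is the product of the variables in `α` and `s`. -/
def lmul (α : List ℕ) (s : Term) : Term := α.foldr (fun a t => .mul (.var a) t) s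

/-- `rmul s β` is the product of `s` and the variables in `β`. -/
def rmul (s : Term) (β : List ℕ) : Term := β.foldl (fun t b => .mul t (.var b)) s

theorem fl_lmul (α : List ℕ) (s : Term) : fl (lmul α s) = (fl s).map (fun u => α ++ u) := by
  induction α with
  | nil => simp [lmul]
  | cons a α ih =>
    show fl (.mul (.var a) (lmul α s)) = _
    cases hs : fl s with
    | none =>
      rw [hs] at ih
      simp only [Option.map_none] at ih ⊢
      unfold fl
      rw [ih]
      rfl
    | some u =>
      rw [hs] at ih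
      simp only [Option.map_some] at ih ⊢
      rw [fl_mul (a := [a]) rfl ih]
      rfl

theorem fl_rmul (β : List ℕ) (s : Term) : fl (rmul s β) = (fl s).map (fun u => u ++ β) := by
  induction β generalizing s with
  | nil => simp [rmul]
  | cons b β ih =>
    show fl (rmul (.mul s (.var b)) β) = _
    rw [ih]
    cases hs : fl s with
    | none =>
      have : fl (.mul s (.var b)) = none := by unfold fl; rw [hs]
      rw [this]; rfl
    | some u =>
      rw [fl_mul hs (b := [b]) rfl]
      simp

theorem EpigroupVariety.Satisfies.lmul {V : EpigroupVariety} {s t : Term} (h : V.Satisfies s t) (α : List ℕ) :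
    V.Satisfies (lmul α s) (lmul α t) := by
  induction α with
  | nil => exact h
  | cons a α ih => exact (EpigroupVariety.Satisfies.refl V (.var a)).mul ih

theorem EpigroupVariety.Satisfies.rmul {V : EpigroupVariety} {s t : Term} (h : V.Satisfies s t) (β : List ℕ) :
    V.Satisfies (rmul s β) (rmul t β) := by
  induction β generalizing s t with
  | nil => exact h
  | cons b β ih => exact ih (h.mul (EpigroupVariety.Satisfies.refl V (.var b)))

/-! ## Syntactic algebras -/

/-- Two terms are equivalent if they occur in the same contexts within the words of `L`. -/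
def synRel (L : Set (List ℕ)) (s t : Term) : Prop :=
  ∀ α β : List ℕ, (∃ u, fl s = some u ∧ α ++ u ++ β ∈ L) ↔ (∃ u, fl t = some u ∧ α ++ u ++ β ∈ L)

/-- The setoid of `synRel`. -/
def synSetoid (L : Set (List ℕ)) : Setoid Term where
  r := synRel L
  iseqv := ⟨fun _ _ _ => Iff.rfl, fun h α β => (h α β).symm,
    fun h h' α β => (h α β).trans (h' α β)⟩

theorem synRel_mul {L : Set (List ℕ)} {s s' t t' : Term} (h : synRel L s s') (h' : synRel L t t') :
    synRel L (.mul s t) (.mul s' t') := by
  intro α β
  constructor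
  · rintro ⟨u, hu, hL⟩
    obtain ⟨a, b, h1, h2, rfl⟩ := fl_mul_eq_some hu
    obtain ⟨a', h3, h4⟩ := (h α (b ++ β)).mp ⟨a, h1, by simpa using hL⟩
    obtain ⟨b', h5, h6⟩ := (h' (α ++ a') β).mp ⟨b, h2, by simpa using h4⟩
    exact ⟨a' ++ b', fl_mul h3 h5, by simpa using h6⟩
  · rintro ⟨u, hu, hL⟩
    obtain ⟨a, b, h1, h2, rfl⟩ := fl_mul_eq_some hu
    obtain ⟨a', h3, h4⟩ := (h α (b ++ β)).mpr ⟨a, h1, by simpa using hL⟩
    obtain ⟨b', h5, h6⟩ := (h' (α ++ a') β).mpr ⟨b, h2, by simpa using h4⟩
    exact ⟨a' ++ b', fl_mul h3 h5, by simpa using h6⟩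

theorem synRel_of_fl_eq {L : Set (List ℕ)} {s t : Term} (h : fl s = fl t) : synRel L s t := by
  intro α β
  rw [h]

theorem fl_assoc (a b c : Term) : fl (.mul (.mul a b) c) = fl (.mul a (.mul b c)) := by
  cases ha : fl a with
  | none =>
    have h1 : fl (.mul a b) = none := by unfold fl; rw [ha]
    have h2 : fl (.mul (.mul a b) c) = none := by
      show (match fl (.mul a b), fl c with | some a, some b => some (a ++ b) | _, _ => none) = none
      rw [h1]
    have h3 : fl (.mul a (.mul b c)) = none := by
      show (match fl a, fl (.mul b c) with | some a, some b => some (a ++ b) | _, _ => none) = none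
      rw [ha]
    rw [h2, h3]
  | some x =>
    cases hb : fl b with
    | none =>
      have h1 : fl (.mul a b) = none := by unfold fl; rw [ha, hb]
      have h2 : fl (.mul (.mul a b) c) = none := by
        show (match fl (.mul a b), fl c with | some a, some b => some (a ++ b) | _, _ => none) = none
        rw [h1]
      have h4 : fl (.mul b c) = none := by unfold fl; rw [hb]
      have h3 : fl (.mul a (.mul b c)) = none := by
        show (match fl a, fl (.mul b c) with | some a, some b => some (a ++ b) | _, _ => none) = none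
        rw [ha, h4]
      rw [h2, h3]
    | some y =>
      cases hc : fl c with
      | none =>
        have h1 : fl (.mul a b) = some (x ++ y) := fl_mul ha hb
        have h2 : fl (.mul (.mul a b) c) = none := by
          show (match fl (.mul a b), fl c with | some a, some b => some (a ++ b) | _, _ => none) = none
          rw [h1, hc]
        have h4 : fl (.mul b c) = none := by unfold fl; rw [hb, hc]
        have h3 : fl (.mul a (.mul b c)) = none := by
          show (match fl a, fl (.mul b c) with | some a, some b => some (a ++ b) | _, _ => none) = none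
          rw [ha, h4]
        rw [h2, h3]
      | some z =>
        rw [fl_mul (fl_mul ha hb) hc, fl_mul ha (fl_mul hb hc), List.append_assoc]

/-- The syntactic algebra of a language. -/
def Syn (L : Set (List ℕ)) : UnarySemigroup where
  carrier := Quotient (synSetoid L)
  toSemigroup :=
    { mul := Quotient.map₂ Term.mul (fun _ _ h _ _ h' => synRel_mul h h')
      mul_assoc := by
        rintro ⟨a⟩ ⟨b⟩ ⟨c⟩
        exact Quotient.sound (s := synSetoid L) (synRel_of_fl_eq (fl_assoc a b c)) }
  toNonempty := ⟨Quotient.mk _ (.var 0)⟩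
  bar := Quotient.map Term.bar (fun _ _ _ α β => by simp [fl])

/-- The class of a term in the syntactic algebra. -/
def Syn.mk (L : Set (List ℕ)) (t : Term) : Syn L := Quotient.mk (synSetoid L) t

theorem Syn.mk_mul (L : Set (List ℕ)) (s t : Term) :
    Syn.mk L s * Syn.mk L t = Syn.mk L (.mul s t) := rfl

theorem Syn.mk_bar (L : Set (List ℕ)) (s : Term) :
    (Syn L).bar (Syn.mk L s) = Syn.mk L (.bar s) := rfl

theorem Syn.mk_eq {L : Set (List ℕ)} {s t : Term} : Syn.mk L s = Syn.mk L t ↔ synRel L s t :=
  ⟨fun h => Quotient.exact (s := synSetoid L) h, fun h => Quotient.sound (s := synSetoid L) h⟩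

theorem Syn.eval_mk (L : Set (List ℕ)) (σ : ℕ → Term) (t : Term) :
    eval (Syn L) (fun i => Syn.mk L (σ i)) t = Syn.mk L (subst σ t) := by
  induction t with
  | var i => rfl
  | mul s t ihs iht =>
    show eval (Syn L) (fun i => Syn.mk L (σ i)) s * eval (Syn L) (fun i => Syn.mk L (σ i)) t = _
    rw [ihs, iht, Syn.mk_mul]
    rfl
  | bar s ih =>
    show (Syn L).bar (eval (Syn L) (fun i => Syn.mk L (σ i)) s) = _
    rw [ih, Syn.mk_bar]
    rfl

theorem Syn.sat_iff {L : Set (List ℕ)} {s t : Term} :
    Sat (Syn L) s t ↔ ∀ σ : ℕ → Term, synRel L (subst σ s) (subst σ t) := by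
  constructor
  · intro h σ
    have h1 := h (fun i => Syn.mk L (σ i))
    rw [Syn.eval_mk, Syn.eval_mk] at h1
    exact Syn.mk_eq.mp h1
  · intro h ρ
    have h1 : ∀ i, ∃ s, ρ i = Syn.mk L s := fun i => by
      obtain ⟨s, hs⟩ := Quotient.exists_rep (ρ i)
      exact ⟨s, hs.symm⟩
    choose σ hσ using h1
    have h2 : ρ = fun i => Syn.mk L (σ i) := funext hσ
    rw [h2, Syn.eval_mk, Syn.eval_mk]
    exact Syn.mk_eq.mpr (h σ)

theorem fl_pwT_length {s : Term} {n : ℕ} {u : List ℕ} (h : fl (pwT s n) = some u) :
    n + 1 ≤ u.length := by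
  induction n generalizing u with
  | zero =>
    have := List.length_pos_iff.mpr (fl_ne_nil h)
    omega
  | succ n ih =>
    obtain ⟨a, b, h1, h2, rfl⟩ := fl_mul_eq_some (s := pwT s n) (t := s) h
    have h3 := ih h1
    have h4 := List.length_pos_iff.mpr (fl_ne_nil h2)
    rw [List.length_append]
    omega

theorem Syn.uniEpi {L : Set (List ℕ)} {B : ℕ} (hB : ∀ u ∈ L, u.length ≤ B) : UniEpi (Syn L) B := by
  rw [uniEpi_iff_sat]
  have hbar : ∀ s, fl (.bar s) = none := fun s => rfl
  have hmulr : ∀ s t, fl t = none → fl (.mul s t) = none := by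
    intro s t h
    cases hst : fl (.mul s t) with
    | none => rfl
    | some u =>
      obtain ⟨a, b, h1, h2, rfl⟩ := fl_mul_eq_some hst
      rw [h] at h2
      simp at h2
  have hmull : ∀ s t, fl s = none → fl (.mul s t) = none := by
    intro s t h
    cases hst : fl (.mul s t) with
    | none => rfl
    | some u =>
      obtain ⟨a, b, h1, h2, rfl⟩ := fl_mul_eq_some hst
      rw [h] at h1
      simp at h1
  refine ⟨?_, ?_, ?_⟩
  · rw [Syn.sat_iff]
    intro σ
    apply synRel_of_fl_eq
    show fl (.mul (σ 0) (.bar (σ 0))) = fl (.mul (.bar (σ 0)) (σ 0))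
    rw [hmulr _ _ (hbar _), hmull _ _ (hbar _)]
  · rw [Syn.sat_iff]
    intro σ
    apply synRel_of_fl_eq
    show fl (.mul (.mul (.bar (σ 0)) (σ 0)) (.bar (σ 0))) = fl (.bar (σ 0))
    rw [hmulr _ _ (hbar _), hbar]
  · rw [Syn.sat_iff]
    intro σ α β
    have h1 : subst σ (pwT (.var 0) B) = pwT (σ 0) B := by
      induction B with
      | zero => rfl
      | succ n ih =>
        show Term.mul (subst σ (pwT (.var 0) n)) (σ 0) = Term.mul (pwT (σ 0) n) (σ 0)
        congr 1
        clear hB ih
        induction n with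
        | zero => rfl
        | succ n ih =>
          show Term.mul (subst σ (pwT (.var 0) n)) (σ 0) = Term.mul (pwT (σ 0) n) (σ 0)
          rw [ih]
    have h2 : subst σ (.mul (pwT (.var 0) (B + 1)) (.bar (.var 0))) =
        .mul (.mul (subst σ (pwT (.var 0) B)) (σ 0)) (.bar (σ 0)) := rfl
    rw [h2, h1]
    constructor
    · rintro ⟨u, hu, -⟩
      rw [hmulr _ _ (hbar _)] at hu
      simp at hu
    · rintro ⟨u, hu, hL⟩
      have h3 := fl_pwT_length hu
      have h4 := hB _ hL
      simp only [List.length_append] at h4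
      omega

/-- Membership of a syntactic algebra in a variety. -/
theorem Syn.mem {L : Set (List ℕ)} {V : EpigroupVariety}
    (h : ∀ u ∈ L, ∀ t, V.Satisfies (wt u) t → ∃ u' ∈ L, fl t = some u') :
    Syn L ∈ V.carrier := by
  rw [mem_iff]
  intro s t hst
  rw [Syn.sat_iff]
  have key : ∀ s t : Term, V.Satisfies s t → ∀ α β, (∃ u, fl s = some u ∧ α ++ u ++ β ∈ L) →
      (∃ u, fl t = some u ∧ α ++ u ++ β ∈ L) := by
    rintro s t hst α β ⟨u, hu, hL⟩
    have h1 : fl (rmul (lmul α s) β) = some (α ++ u ++ β) := by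
      rw [fl_rmul, fl_lmul, hu]
      rfl
    have h2 : V.Satisfies (wt (α ++ u ++ β)) (rmul (lmul α s) β) :=
      fun S _ ρ => (eval_of_fl S ρ h1).symm
    obtain ⟨u', hu', h3⟩ := h _ hL _ (h2.trans ((hst.lmul α).rmul β))
    rw [fl_rmul, fl_lmul] at h3
    cases ht : fl t with
    | none => rw [ht] at h3; simp at h3
    | some v =>
      rw [ht] at h3
      simp only [Option.map_some, Option.some.injEq] at h3
      exact ⟨v, rfl, by rw [h3]; exact hu'⟩
  intro σ α β
  exact ⟨key _ _ (hst.subst σ) α β, key _ _ (hst.symm.subst σ) α β⟩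

theorem subst_var (t : Term) : subst (fun i => .var i) t = t := by
  induction t with
  | var i => rfl
  | mul s t ihs iht => show Term.mul _ _ = _; rw [ihs, iht]
  | bar s ih => show Term.bar _ = _; rw [ih]

/-- Reading off information from an identity of a syntactic algebra. -/
theorem Syn.sat_mem {L : Set (List ℕ)} {u : List ℕ} {t : Term} (h : Sat (Syn L) (wt u) t)
    (hu : u ∈ L) (hne : u ≠ []) : ∃ u' ∈ L, fl t = some u' := by
  rw [Syn.sat_iff] at h
  have h1 := (h (fun i => .var i) [] []).mp ⟨u, by rw [subst_var]; exact fl_wt hne, by simpa using hu⟩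
  obtain ⟨v, hv, hL⟩ := h1
  rw [subst_var] at hv
  exact ⟨v, by simpa using hL, hv⟩

end Pool.Agent.Lib.MP_d7b8a3_al
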