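import Mathlib

/-!
# Epigroups, epigroup varieties and the lattice `EPI`

Statement-level definitions for problem `MP_d7b8a3_al`.
-/

namespace Pool.Agent.Lib.MP_d7b8a3_al

/-- Terms in the signature with one binary operation and one unary operation `x ↦ x̄`, over the
variables `x₀, x₁, x₂, …`. -/
inductive Term : Type
  | var : ℕ → Term
  | mul : Term → Term → Term
  | bar : Term → Term

/-- A (nonempty) semigroup together with a unary operation `bar`. -/
structure UnarySemigroup : Type 1 where
  carrier : Type
  [toSemigroup : Semigroup carrier]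
  [toNonempty : Nonempty carrier]
  bar : carrier → carrier

instance : CoeSort UnarySemigroup Type := ⟨UnarySemigroup.carrier⟩

attribute [instance] UnarySemigroup.toSemigroup UnarySemigroup.toNonempty

/-- The value of a term under an assignment of the variables. -/
def eval (S : UnarySemigroup) (ρ : ℕ → S) : Term → S
  | Term.var i => ρ i
  | Term.mul s t => eval S ρ s * eval S ρ t
  | Term.bar s => S.bar (eval S ρ s)

/-- `S` satisfies the identity `s = t`. -/
def Sat (S : UnarySemigroup) (s t : Term) : Prop := ∀ ρ : ℕ → S, eval S ρ s = eval S ρ t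

/-- Powers in a semigroup: `pw x n = x ^ (n + 1)`. -/
def pw {S : Type} [Semigroup S] (x : S) : ℕ → S
  | 0 => x
  | n + 1 => pw x n * x

/-- The maximal subgroup with identity `e`: the set of all `a` with `ea = a = ae` for which there is
a `b` with `eb = b = be` and `ab = e = ba`. -/
def maxSubgroup {S : Type} [Semigroup S] (e : S) : Set S :=
  {a | e * a = a ∧ a * e = a ∧ ∃ b, e * b = b ∧ b * e = b ∧ a * b = e ∧ b * a = e}

/-- `y` is the pseudoinverse of `x`: there is an idempotent `e` such that some power `x ^ (n + 1)`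
lies in the maximal subgroup with identity `e`, and `y` is the inverse of `x * e` in this
subgroup. -/
def IsPseudoinverse {S : Type} [Semigroup S] (x y : S) : Prop :=
  ∃ e : S, e * e = e ∧ (∃ n : ℕ, pw x n ∈ maxSubgroup e) ∧ x * e ∈ maxSubgroup e ∧
    y ∈ maxSubgroup e ∧ (x * e) * y = e ∧ y * (x * e) = e

/-- `S` is an epigroup, and its unary operation is the pseudoinversion. -/
def IsEpigroup (S : UnarySemigroup) : Prop := ∀ x : S, IsPseudoinverse x (S.bar x)

/-- An epigroup variety: a class of epigroups (in `Type`, as algebras with multiplication and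
pseudoinversion) defined by a set of identities. -/
@[ext]
structure EpigroupVariety : Type 1 where
  /-- the members of the variety -/
  carrier : Set UnarySemigroup
  isEpigroup : ∀ S ∈ carrier, IsEpigroup S
  defined : ∃ E : Set (Term × Term), ∀ S : UnarySemigroup, S ∈ carrier ↔ ∀ p ∈ E, Sat S p.1 p.2

/-- Epigroup varieties are ordered by inclusion. -/
instance : PartialOrder EpigroupVariety :=
  PartialOrder.lift EpigroupVariety.carrier (fun _ _ h => EpigroupVariety.ext h)

theorem le_def (V W : EpigroupVariety) : V ≤ W ↔ V.carrier ⊆ W.carrier := Iff.rfl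

/-- The variety `V` satisfies the identity `s = t`. -/
def EpigroupVariety.Satisfies (V : EpigroupVariety) (s t : Term) : Prop :=
  ∀ S ∈ V.carrier, Sat S s t

/-- An element `x` of a lattice is upper-modular if `(z ⊔ y) ⊓ x = (z ⊓ x) ⊔ y` for all `y ≤ x`
and all `z`. -/
def IsUpperModular {L : Type*} [Lattice L] (x : L) : Prop :=
  ∀ y z : L, y ≤ x → (z ⊔ y) ⊓ x = (z ⊓ x) ⊔ y

/-- `S` is a nil-semigroup: it has a zero `z`, and every element has a power equal to `z`. -/
def IsNilSemigroup (S : Type) [Semigroup S] : Prop :=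
  ∃ z : S, (∀ x, z * x = z ∧ x * z = z) ∧ ∀ x, ∃ n, pw x n = z

/-- All members of the variety are nil-semigroups. -/
def EpigroupVariety.IsNil (V : EpigroupVariety) : Prop :=
  ∀ S ∈ V.carrier, IsNilSemigroup S

/-! ## The pseudoinverse is the Drazin inverse -/

section Drazin

variable {S : Type} [Semigroup S]

theorem pw_comm (x : S) (n : ℕ) : x * pw x n = pw x n * x := by
  induction n with
  | zero => rfl
  | succ n ih =>
    show x * (pw x n * x) = pw x n * x * x
    rw [← mul_assoc, ih]

theorem pw_add (x : S) (m n : ℕ) : pw x m * pw x n = pw x (m + n + 1) := by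
  induction n with
  | zero => rfl
  | succ n ih =>
    show pw x m * (pw x n * x) = pw x (m + n + 1) * x
    rw [← mul_assoc, ih]

theorem pw_comm_of_comm {x y : S} (h : x * y = y * x) (n : ℕ) : pw x n * y = y * pw x n := by
  induction n with
  | zero => exact h
  | succ n ih =>
    show pw x n * x * y = y * (pw x n * x)
    rw [mul_assoc, h, ← mul_assoc, ih, mul_assoc]

theorem drazin_of_pseudo {x y : S} (h : IsPseudoinverse x y) :
    x * y = y * x ∧ y * x * y = y ∧ ∃ n, pw x (n + 1) * y = pw x n := by
  obtain ⟨e, he, ⟨n, ha1, ha2, b, hb1, hb2, hab, hba⟩, ⟨hx1, hx2, -⟩, ⟨hy1, hy2, -⟩, hxy, hyx⟩ := h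
  have hex : e * x = x * e := by
    have h1 : e * x = e * x * e := by
      calc e * x = b * pw x n * x := by rw [hba]
        _ = b * (pw x n * x) := by rw [mul_assoc]
        _ = b * (x * pw x n) := by rw [pw_comm]
        _ = b * (x * (pw x n * e)) := by rw [ha2]
        _ = b * (x * pw x n) * e := by simp only [mul_assoc]
        _ = b * (pw x n * x) * e := by rw [pw_comm]
        _ = b * pw x n * x * e := by simp only [mul_assoc]
        _ = e * x * e := by rw [hba]
    rw [h1, mul_assoc]
    exact hx1
  have h1 : x * y = e := by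
    calc x * y = x * (e * y) := by rw [hy1]
      _ = x * e * y := by rw [mul_assoc]
      _ = e := hxy
  have h2 : y * x = e := by
    calc y * x = y * e * x := by rw [hy2]
      _ = y * (e * x) := by rw [mul_assoc]
      _ = y * (x * e) := by rw [hex]
      _ = e := hyx
  refine ⟨by rw [h1, h2], by rw [h2, hy1], n, ?_⟩
  show pw x n * x * y = pw x n
  rw [mul_assoc, h1, ha2]

theorem pseudo_of_drazin {x y : S} (h1 : x * y = y * x) (h2 : y * x * y = y)
    (h3 : ∃ n, pw x (n + 1) * y = pw x n) : IsPseudoinverse x y := by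
  obtain ⟨n, hn⟩ := h3
  have hee : x * y * (x * y) = x * y := by
    calc x * y * (x * y) = x * (y * x * y) := by simp only [mul_assoc]
      _ = x * y := by rw [h2]
  have hey : x * y * y = y := by rw [h1, h2]
  have hye : y * (x * y) = y := by rw [← mul_assoc, h2]
  -- powers
  have hpow : ∀ m, pw x m * pw y m = x * y := by
    intro m
    induction m with
    | zero => rfl
    | succ m ih =>
      show pw x m * x * (pw y m * y) = x * y
      calc pw x m * x * (pw y m * y) = pw x m * (x * pw y m) * y := by simp only [mul_assoc]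
        _ = pw x m * (pw y m * x) * y := by rw [← pw_comm_of_comm h1.symm]
        _ = pw x m * pw y m * (x * y) := by simp only [mul_assoc]
        _ = x * y := by rw [ih, hee]
  have hpow' : ∀ m, pw y m * pw x m = x * y := by
    intro m
    rw [← hpow m]
    exact (pw_comm_of_comm (pw_comm_of_comm h1.symm m).symm m).symm
  have hpy : ∀ m, x * y * pw y m = pw y m := by
    intro m
    induction m with
    | zero => exact hey
    | succ m ih =>
      show x * y * (pw y m * y) = pw y m * y
      rw [← mul_assoc, ih]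
  have hyp : ∀ m, pw y m * (x * y) = pw y m := by
    intro m
    rw [← hpy m]
    have : pw y m * (x * y) = x * y * pw y m := by
      have h4 : y * (x * y) = x * y * y := by rw [hye, hey]
      exact pw_comm_of_comm h4 m
    calc x * y * pw y m * (x * y) = x * y * (pw y m * (x * y)) := by simp only [mul_assoc]
      _ = x * y * (x * y * pw y m) := by rw [this]
      _ = x * y * (x * y) * pw y m := by simp only [mul_assoc]
      _ = x * y * pw y m := by rw [hee]
  have hxn : pw x n * (x * y) = pw x n := by rw [← mul_assoc]; exact hn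
  have hxn' : x * y * pw x n = pw x n := by
    have h4 : x * (x * y) = x * y * x := by rw [h1, ← mul_assoc, h1]
    rw [← pw_comm_of_comm h4 n]
    exact hxn
  refine ⟨x * y, hee, ⟨n, hxn', hxn, pw y n, hpy n, hyp n, hpow n, hpow' n⟩, ⟨?_, ?_, y, hey, hye,
    ?_, ?_⟩, ⟨hey, hye, x * (x * y), ?_, ?_, ?_, ?_⟩, ?_, ?_⟩
  · calc x * y * (x * (x * y)) = x * (y * x) * (x * y) := by simp only [mul_assoc]
      _ = x * (x * y) * (x * y) := by rw [h1]
      _ = x * (x * y * (x * y)) := by simp only [mul_assoc]
      _ = x * (x * y) := by rw [hee]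
  · calc x * (x * y) * (x * y) = x * (x * y * (x * y)) := by simp only [mul_assoc]
      _ = x * (x * y) := by rw [hee]
  · calc x * (x * y) * y = x * (x * y * y) := by simp only [mul_assoc]
      _ = x * y := by rw [hey]
  · calc y * (x * (x * y)) = y * x * (x * y) := by simp only [mul_assoc]
      _ = x * y * (x * y) := by rw [h1]
      _ = x * y := hee
  · calc x * y * (x * (x * y)) = x * (y * x) * (x * y) := by simp only [mul_assoc]
      _ = x * (x * y) * (x * y) := by rw [h1]
      _ = x * (x * y * (x * y)) := by simp only [mul_assoc]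
      _ = x * (x * y) := by rw [hee]
  · calc x * (x * y) * (x * y) = x * (x * y * (x * y)) := by simp only [mul_assoc]
      _ = x * (x * y) := by rw [hee]
  · calc y * (x * (x * y)) = y * x * (x * y) := by simp only [mul_assoc]
      _ = x * y * (x * y) := by rw [h1]
      _ = x * y := hee
  · calc x * (x * y) * y = x * (x * y * y) := by simp only [mul_assoc]
      _ = x * y := by rw [hey]
  · calc x * (x * y) * y = x * (x * y * y) := by simp only [mul_assoc]
      _ = x * y := by rw [hey]
  · calc y * (x * (x * y)) = y * x * (x * y) := by simp only [mul_assoc]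
      _ = x * y * (x * y) := by rw [h1]
      _ = x * y := hee

theorem pw_index_mono {x y : S} {n : ℕ} (h : pw x (n + 1) * y = pw x n) (hc : x * y = y * x)
    {m : ℕ} (hm : n ≤ m) : pw x (m + 1) * y = pw x m := by
  induction m, hm using Nat.le_induction with
  | base => exact h
  | succ m hm ih =>
    show pw x (m + 1) * x * y = pw x m * x
    rw [mul_assoc, hc, ← mul_assoc, ih]

end Drazin

/-! ## The lattice structure -/

/-- Term powers: `pwT t n = t ^ (n + 1)`. -/
def pwT (t : Term) : ℕ → Term
  | 0 => t
  | n + 1 => Term.mul (pwT t n) t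

theorem eval_pwT (S : UnarySemigroup) (ρ : ℕ → S) (t : Term) (n : ℕ) :
    eval S ρ (pwT t n) = pw (eval S ρ t) n := by
  induction n with
  | zero => rfl
  | succ n ih =>
    show eval S ρ (pwT t n) * eval S ρ t = pw (eval S ρ t) n * eval S ρ t
    rw [ih]

/-- `S` is an epigroup of index at most `n + 1`, with pseudoinversion. -/
def UniEpi (S : UnarySemigroup) (n : ℕ) : Prop :=
  ∀ x : S, x * S.bar x = S.bar x * x ∧ S.bar x * x * S.bar x = S.bar x ∧
    pw x (n + 1) * S.bar x = pw x n

theorem UniEpi.isEpigroup {S : UnarySemigroup} {n : ℕ} (h : UniEpi S n) : IsEpigroup S :=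
  fun x => pseudo_of_drazin (h x).1 (h x).2.1 ⟨n, (h x).2.2⟩

/-- The product of a sequence of unary semigroups. -/
def prodAlg (T : ℕ → UnarySemigroup) : UnarySemigroup where
  carrier := ∀ n, T n
  bar x := fun n => (T n).bar (x n)

theorem eval_prodAlg (T : ℕ → UnarySemigroup) (ρ : ℕ → prodAlg T) (t : Term) (n : ℕ) :
    (eval (prodAlg T) ρ t) n = eval (T n) (fun i => ρ i n) t := by
  induction t with
  | var i => rfl
  | mul s t ihs iht =>
    show (eval (prodAlg T) ρ s) n * (eval (prodAlg T) ρ t) n = _
    rw [ihs, iht]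
    rfl
  | bar s ih =>
    show (T n).bar ((eval (prodAlg T) ρ s) n) = _
    rw [ih]
    rfl

theorem pw_prodAlg (T : ℕ → UnarySemigroup) (x : prodAlg T) (m n : ℕ) :
    (pw x m : prodAlg T) n = pw (x n) m := by
  induction m with
  | zero => rfl
  | succ m ih =>
    show (pw x m : prodAlg T) n * x n = pw (x n) m * x n
    rw [ih]

theorem prodAlg_mem (V : EpigroupVariety) (T : ℕ → UnarySemigroup) (h : ∀ n, T n ∈ V.carrier) :
    prodAlg T ∈ V.carrier := by
  obtain ⟨E, hE⟩ := V.defined
  rw [hE]
  intro p hp ρ
  funext n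
  rw [eval_prodAlg, eval_prodAlg]
  exact (hE (T n)).mp (h n) p hp _

/-- An epigroup variety has bounded index. -/
theorem exists_index (V : EpigroupVariety) : ∃ n, ∀ S ∈ V.carrier, UniEpi S n := by
  by_contra hcon
  push Not at hcon
  have h1 : ∀ n, ∃ S : UnarySemigroup, S ∈ V.carrier ∧ ∃ x : S, pw x (n + 1) * S.bar x ≠ pw x n := by
    intro n
    obtain ⟨S, hS, hS2⟩ := hcon n
    refine ⟨S, hS, ?_⟩
    unfold UniEpi at hS2
    push Not at hS2
    obtain ⟨x, hx⟩ := hS2
    obtain ⟨h1, h2, -⟩ := drazin_of_pseudo (V.isEpigroup S hS x)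
    exact ⟨x, hx h1 h2⟩
  choose T hT x hx using h1
  have hP := prodAlg_mem V T hT
  obtain ⟨-, -, n, hn⟩ := drazin_of_pseudo (V.isEpigroup _ hP x)
  have h3 := congrFun hn n
  apply hx n
  have h4 := pw_prodAlg T x (n + 1) n
  have h5 := pw_prodAlg T x n n
  rw [← h4, ← h5]
  exact h3

theorem uniEpi_mono {S : UnarySemigroup} {n m : ℕ} (h : UniEpi S n) (hm : n ≤ m) : UniEpi S m :=
  fun x => ⟨(h x).1, (h x).2.1, pw_index_mono (h x).2.2 (h x).1 hm⟩

/-- `UniEpi` is expressed by identities. -/
theorem uniEpi_iff_sat (S : UnarySemigroup) (n : ℕ) : UniEpi S n ↔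
    Sat S (Term.mul (.var 0) (.bar (.var 0))) (Term.mul (.bar (.var 0)) (.var 0)) ∧
    Sat S (Term.mul (.mul (.bar (.var 0)) (.var 0)) (.bar (.var 0))) (.bar (.var 0)) ∧
    Sat S (Term.mul (pwT (.var 0) (n + 1)) (.bar (.var 0))) (pwT (.var 0) n) := by
  constructor
  · intro h
    refine ⟨fun ρ => (h (ρ 0)).1, fun ρ => (h (ρ 0)).2.1, fun ρ => ?_⟩
    show eval S ρ (pwT (.var 0) (n + 1)) * S.bar (ρ 0) = eval S ρ (pwT (.var 0) n)
    rw [eval_pwT, eval_pwT]
    exact (h (ρ 0)).2.2
  · rintro ⟨h1, h2, h3⟩ x
    refine ⟨h1 (fun _ => x), h2 (fun _ => x), ?_⟩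
    have h4 : eval S (fun _ => x) (pwT (.var 0) (n + 1)) * S.bar x =
      eval S (fun _ => x) (pwT (.var 0) n) := h3 (fun _ => x)
    rw [eval_pwT, eval_pwT] at h4
    exact h4

/-- The variety defined by a set of identities all of which hold in a class of epigroups of bounded
index. -/
def joinVar (V W : EpigroupVariety) : EpigroupVariety where
  carrier := {S | ∀ s t, V.Satisfies s t → W.Satisfies s t → Sat S s t}
  isEpigroup := by
    intro S hS
    obtain ⟨n, hn⟩ := exists_index V
    obtain ⟨m, hm⟩ := exists_index W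
    have hn' : ∀ T ∈ V.carrier, UniEpi T (max n m) :=
      fun T hT => uniEpi_mono (hn T hT) (le_max_left _ _)
    have hm' : ∀ T ∈ W.carrier, UniEpi T (max n m) :=
      fun T hT => uniEpi_mono (hm T hT) (le_max_right _ _)
    refine UniEpi.isEpigroup (n := max n m) ?_
    rw [uniEpi_iff_sat]
    refine ⟨hS _ _ (fun T hT => ((uniEpi_iff_sat T _).mp (hn' T hT)).1)
      (fun T hT => ((uniEpi_iff_sat T _).mp (hm' T hT)).1),
      hS _ _ (fun T hT => ((uniEpi_iff_sat T _).mp (hn' T hT)).2.1)
      (fun T hT => ((uniEpi_iff_sat T _).mp (hm' T hT)).2.1),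
      hS _ _ (fun T hT => ((uniEpi_iff_sat T _).mp (hn' T hT)).2.2)
      (fun T hT => ((uniEpi_iff_sat T _).mp (hm' T hT)).2.2)⟩
  defined := by
    refine ⟨{p | V.Satisfies p.1 p.2 ∧ W.Satisfies p.1 p.2}, fun S => ?_⟩
    constructor
    · intro h p hp
      exact h _ _ hp.1 hp.2
    · intro h s t h1 h2
      exact h (s, t) ⟨h1, h2⟩

/-- The intersection of two varieties. -/
def meetVar (V W : EpigroupVariety) : EpigroupVariety where
  carrier := V.carrier ∩ W.carrier
  isEpigroup := fun S hS => V.isEpigroup S hS.1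
  defined := by
    obtain ⟨E, hE⟩ := V.defined
    obtain ⟨F, hF⟩ := W.defined
    refine ⟨E ∪ F, fun S => ?_⟩
    rw [Set.mem_inter_iff, hE, hF]
    constructor
    · rintro ⟨h1, h2⟩ p (hp | hp)
      · exact h1 p hp
      · exact h2 p hp
    · intro h
      exact ⟨fun p hp => h p (Or.inl hp), fun p hp => h p (Or.inr hp)⟩

theorem mem_iff (V : EpigroupVariety) (S : UnarySemigroup) :
    S ∈ V.carrier ↔ ∀ s t, V.Satisfies s t → Sat S s t := by
  constructor
  · intro h s t hst
    exact hst S h
  · intro h
    obtain ⟨E, hE⟩ := V.defined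
    rw [hE]
    intro p hp
    apply h
    intro T hT
    exact (hE T).mp hT p hp

/-- The lattice `EPI` of all epigroup varieties. -/
instance : Lattice EpigroupVariety where
  sup := joinVar
  inf := meetVar
  le_sup_left V W := fun S hS s t h1 _ => h1 S hS
  le_sup_right V W := fun S hS s t _ h2 => h2 S hS
  sup_le V W U hV hW := by
    intro S hS
    rw [mem_iff]
    intro s t hst
    exact hS s t (fun T hT => hst T (hV hT)) (fun T hT => hst T (hW hT))
  inf_le_left V W := fun S hS => hS.1
  inf_le_right V W := fun S hS => hS.2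
  le_inf V W U h1 h2 := fun S hS => ⟨h1 hS, h2 hS⟩

end Pool.Agent.Lib.MP_d7b8a3_al
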