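import Pool.Agent.Lib.MP_d7b8a3_al.Bad

/-!
# Conclusion
-/

namespace Pool.Agent.Lib.MP_d7b8a3_al

/-- The rearrangements of `001`. -/
def L1 : Set (List ℕ) := {u | u.Perm [0, 0, 1]}

/-- The rearrangements of `001` and of `011`. -/
def L0 : Set (List ℕ) := {u | u.Perm [0, 0, 1] ∨ u.Perm [0, 1, 1]}

theorem L0_length {u : List ℕ} (hu : u ∈ L0) : u.length = 3 := by
  rcases hu with h | h
  · exact h.length_eq
  · exact h.length_eq

theorem L0_bounded : ∀ u ∈ L0, u.length ≤ 3 := fun _ hu => (L0_length hu).le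

theorem L0_ne {u : List ℕ} (hu : u ∈ L0) : u ≠ [] := by
  rintro rfl
  have := L0_length hu
  simp at this

theorem Bad.synL1 {V : EpigroupVariety} (hV : Bad V) : Syn L1 ∈ V.carrier :=
  Syn.mem (fun u hu t ht => hV.k1 u hu t ht)

theorem Bad.synL0 {V : EpigroupVariety} (hV : Bad V) : Syn L0 ∈ V.carrier := by
  apply Syn.mem
  rintro u (hu | hu) t ht
  · obtain ⟨u', h1, h2⟩ := hV.k1 u hu t ht
    exact ⟨u', Or.inl h1, h2⟩
  · obtain ⟨u', h1, h2⟩ := hV.k2 hu ht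
    exact ⟨u', Or.inr h1, h2⟩

theorem L0_shape {α β a b : List ℕ} (ha : a ≠ []) (hb : b ≠ [])
    (h : α ++ (a ++ (a ++ b)) ++ β ∈ L0 ∨ α ++ (a ++ (b ++ b)) ++ β ∈ L0) :
    α = [] ∧ β = [] ∧ ((a = [0] ∧ b = [1]) ∨ (a = [1] ∧ b = [0])) := by
  have h1 := List.length_pos_iff.mpr ha
  have h2 := List.length_pos_iff.mpr hb
  have h3 : α.length + β.length = 0 ∧ a.length = 1 ∧ b.length = 1 := by
    rcases h with h | h
    · have := L0_length h
      simp only [List.length_append] at this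
      omega
    · have := L0_length h
      simp only [List.length_append] at this
      omega
  obtain ⟨x, rfl⟩ := List.length_eq_one_iff.mp h3.2.1
  obtain ⟨y, rfl⟩ := List.length_eq_one_iff.mp h3.2.2
  have hα : α = [] := List.length_eq_zero_iff.mp (by omega)
  have hβ : β = [] := List.length_eq_zero_iff.mp (by omega)
  subst hα hβ
  refine ⟨rfl, rfl, ?_⟩
  have h4 : ([x, x, y] : List ℕ) ∈ L0 ∨ [x, y, y] ∈ L0 := by simpa using h
  have h5 : (x = 0 ∧ y = 1) ∨ (x = 1 ∧ y = 0) := by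
    rcases h4 with (h | h) | (h | h)
    · rcases perm001 h with h | h | h <;> simp at h <;> omega
    · rcases perm011 h with h | h | h <;> simp at h <;> omega
    · rcases perm001 h with h | h | h <;> simp at h <;> omega
    · rcases perm011 h with h | h | h <;> simp at h <;> omega
  rcases h5 with ⟨rfl, rfl⟩ | ⟨rfl, rfl⟩
  · exact Or.inl ⟨rfl, rfl⟩
  · exact Or.inr ⟨rfl, rfl⟩

theorem synL0_sat : Sat (Syn L0) (wt [0, 0, 1]) (wt [0, 1, 1]) := by
  rw [Syn.sat_iff]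
  intro σ α β
  have e1 : subst σ (wt [0, 0, 1]) = .mul (σ 0) (.mul (σ 0) (σ 1)) := rfl
  have e2 : subst σ (wt [0, 1, 1]) = .mul (σ 0) (.mul (σ 1) (σ 1)) := rfl
  rw [e1, e2]
  constructor
  · rintro ⟨u, hu, hL⟩
    obtain ⟨a, c, h1, h2, rfl⟩ := fl_mul_eq_some hu
    obtain ⟨a', b, h3, h4, rfl⟩ := fl_mul_eq_some h2
    have haa : a' = a := by
      rw [h1] at h3
      exact (Option.some.inj h3).symm
    subst haa
    refine ⟨a' ++ (b ++ b), fl_mul h1 (fl_mul h4 h4), ?_⟩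
    obtain ⟨rfl, rfl, ⟨rfl, rfl⟩ | ⟨rfl, rfl⟩⟩ := L0_shape (fl_ne_nil h1) (fl_ne_nil h4)
      (Or.inl hL)
    · right; decide
    · left; decide
  · rintro ⟨u, hu, hL⟩
    obtain ⟨a, c, h1, h2, rfl⟩ := fl_mul_eq_some hu
    obtain ⟨b', b, h3, h4, rfl⟩ := fl_mul_eq_some h2
    have hbb : b' = b := by
      rw [h4] at h3
      exact (Option.some.inj h3).symm
    subst hbb
    refine ⟨a ++ (a ++ b'), fl_mul h1 (fl_mul h1 h4), ?_⟩
    obtain ⟨rfl, rfl, ⟨rfl, rfl⟩ | ⟨rfl, rfl⟩⟩ := L0_shape (fl_ne_nil h1) (fl_ne_nil h4)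
      (Or.inr hL)
    · left; decide
    · right; decide

theorem ZZ_no {u u' : List ℕ} (hu : u.Perm [0, 0, 1]) (hu' : u'.Perm [0, 1, 1]) :
    ¬ ZZ.Satisfies (wt u) (wt u') := by
  intro h
  have h1 := LZ2.sat_iff.mp (ZZ_lz h)
  rcases perm001 hu with rfl | rfl | rfl <;> rcases perm011 hu' with rfl | rfl | rfl
  · have h2 := ZZ_p h (fun i => if i = 0 then P3.e else P3.a)
    exact P3.a_ne_o h2
  · simp [wt, hd] at h1
  · simp [wt, hd] at h1
  · have h2 := congrArg ofOp (ZZ_pop h (fun i => if i = 0 then toOp P3.a else toOp P3.e))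
    exact P3.a_ne_o h2.symm
  · simp [wt, hd] at h1
  · simp [wt, hd] at h1
  · simp [wt, hd] at h1
  · have h2 := congrArg ofOp (ZZ_pop h (fun i => if i = 0 then toOp P3.e else toOp P3.a))
    exact P3.a_ne_o h2
  · have h2 := congrArg ofOp (ZZ_pop h (fun i => if i = 0 then toOp P3.e else toOp P3.a))
    exact P3.a_ne_o h2

theorem ZZ_content {S : UnarySemigroup} (hS : S ∈ ZZ.carrier) {l₁ l₂ : List ℕ} (h1 : l₁ ≠ [])
    (h2 : l₂ ≠ []) (h : Sat S (wt l₁) (wt l₂)) (hc : ¬ ∀ i, i ∈ l₁ ↔ i ∈ l₂) :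
    Sat S (wt [0, 0, 1]) (wt [0, 1, 1]) := by
  rw [not_forall] at hc
  obtain ⟨c, hc⟩ := hc
  by_cases hc1 : c ∈ l₁
  · have hc2 : c ∉ l₂ := fun h => hc ⟨fun _ => h, fun _ => hc1⟩
    exact ZZ_d1 hS h2 h1 h.symm hc2 hc1
  · have hc2 : c ∈ l₂ := by
      by_contra hc2
      exact hc ⟨fun h => absurd h hc1, fun h => absurd h hc2⟩
    exact ZZ_d1 hS h1 h2 h hc1 hc2

/-- One of the two dual semigroups `P` is in `V`. -/
theorem Bad.p3_or {V : EpigroupVariety} (hV : Bad V) :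
    P3 ∈ V.carrier ∨ opAlg P3 ∈ V.carrier := by
  by_contra hcon
  rw [not_or] at hcon
  obtain ⟨hp, hpop⟩ := hcon
  have hu := Syn.uniEpi L0_bounded
  obtain ⟨S, hSZ, hSV, hSne⟩ : ∃ S, S ∈ ZZ.carrier ∧ S ∈ V.carrier ∧
      ¬ Sat S (wt [0, 0, 1]) (wt [0, 1, 1]) := by
    by_contra hcon
    push Not at hcon
    have hA2 : Syn L1 ∈ (ZZ ⊔ varOf _ _ hu).carrier := by
      apply Syn.mem
      intro u hu' t ht
      have h1 : ZZ.Satisfies (wt u) t := fun S hS => ht S ((le_sup_left : ZZ ≤ _) hS)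
      have h2 : Sat (Syn L0) (wt u) t :=
        ht _ ((le_sup_right : _ ≤ ZZ ⊔ varOf _ _ hu) (self_mem_varOf hu))
      obtain ⟨u', hu'', h3⟩ := Syn.sat_mem h2 (Or.inl hu') (L0_ne (Or.inl hu'))
      rcases hu'' with h4 | h4
      · exact ⟨u', h4, h3⟩
      · exact absurd (h1.trans (fun S _ ρ => eval_of_fl S ρ h3)) (ZZ_no hu' h4)
    have h1 := lemmaU hV.um (varOf_le hu hV.synL0) hV.synL1 hA2 (s := wt [0, 0, 1])
      (t := wt [0, 1, 1]) (fun S hS => hcon S hS.1 hS.2) ((varOf_satisfies hu).mpr synL0_sat)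
    obtain ⟨u', hu', h2⟩ := Syn.sat_mem h1 (List.Perm.refl _) (by simp)
    rw [fl_wt (by simp)] at h2
    simp only [Option.some.injEq] at h2
    subst h2
    exact absurd hu' (by decide : ¬ [0, 1, 1].Perm [0, 0, 1])
  have hA : Sat S (wt [0, 0, 1]) (wt [0, 0, 1, 1]) := by
    rw [mem_iff] at hp
    push Not at hp
    obtain ⟨s, t, hst, hne⟩ := hp
    have hS := ((ZZ_ex hSZ s).symm.trans (hst S hSV)).trans (ZZ_ex hSZ t)
    have hne' : ¬ Sat P3 (wt (ex 1 s)) (wt (ex 1 t)) :=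
      fun h => hne (((P3.aper.sat_ex s).trans h).trans (P3.aper.sat_ex t).symm)
    have h1 := ex_ne_nil 1 s
    have h2 := ex_ne_nil 1 t
    generalize ex 1 s = l₁ at *
    generalize ex 1 t = l₂ at *
    by_cases hc : ∀ i, i ∈ l₁ ↔ i ∈ l₂
    · have hlo : ¬ ∀ z, LO l₁ z ↔ LO l₂ z := fun hlo => hne' (P3.sat_of h1 h2 hc hlo)
      rw [not_forall] at hlo
      obtain ⟨z, hz⟩ := hlo
      by_cases hz1 : LO l₁ z
      · exact ZZ_d2 hSZ h1 h2 hS hc hz1 (fun h => hz ⟨fun _ => h, fun _ => hz1⟩)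
      · have hz2 : LO l₂ z := by
          by_contra hz2
          exact hz ⟨fun h => absurd h hz1, fun h => absurd h hz2⟩
        exact ZZ_d2 hSZ h2 h1 hS.symm (fun i => (hc i).symm) hz2 hz1
    · exact absurd (ZZ_content hSZ h1 h2 hS hc) hSne
  have hB : Sat S (wt [0, 1, 1]) (wt [0, 0, 1, 1]) := by
    rw [mem_iff] at hpop
    push Not at hpop
    obtain ⟨s, t, hst, hne⟩ := hpop
    have hS := ((ZZ_ex hSZ s).symm.trans (hst S hSV)).trans (ZZ_ex hSZ t)
    have hne' : ¬ Sat (opAlg P3) (wt (ex 1 s)) (wt (ex 1 t)) :=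
      fun h => hne (((P3.aper.opp.sat_ex s).trans h).trans (P3.aper.opp.sat_ex t).symm)
    have h1 := ex_ne_nil 1 s
    have h2 := ex_ne_nil 1 t
    generalize ex 1 s = l₁ at *
    generalize ex 1 t = l₂ at *
    by_cases hc : ∀ i, i ∈ l₁ ↔ i ∈ l₂
    · have hfo : ¬ ∀ z, FO l₁ z ↔ FO l₂ z := fun hfo => hne' (P3op_sat_of h1 h2 hc hfo)
      rw [not_forall] at hfo
      obtain ⟨z, hz⟩ := hfo
      by_cases hz1 : FO l₁ z
      · exact ZZ_d3 hSZ h1 h2 hS hc hz1 (fun h => hz ⟨fun _ => h, fun _ => hz1⟩)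
      · have hz2 : FO l₂ z := by
          by_contra hz2
          exact hz ⟨fun h => absurd h hz1, fun h => absurd h hz2⟩
        exact ZZ_d3 hSZ h2 h1 hS.symm (fun i => (hc i).symm) hz2 hz1
    · exact absurd (ZZ_content hSZ h1 h2 hS hc) hSne
  exact hSne (hA.trans hB.symm)

theorem Bad.false_of_p3 {V : EpigroupVariety} (hV : Bad V) (hp : P3 ∈ V.carrier) : False := by
  have hE := lemmaE hV.um hp (k := 1) (L := {u | u.Perm [0, 1]}) (by
      intro u hu
      rcases perm01 hu with rfl | rfl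
      · exact ⟨[0], 1, rfl, by simp, rfl⟩
      · exact ⟨[1], 0, rfl, by simp, rfl⟩) (fun u hu t ht => hV.two hu ht)
    (p := [0]) (z := 1) (a := 0) (List.Perm.refl _) (by simp)
  have hnc : ¬ V.Satisfies (wt [0, 1]) (wt [1, 0]) := by
    intro h
    apply hE
    intro S hS
    have h1 : Sat S (wt [0, 0, 1]) (wt [0, 1, 0]) :=
      (h S hS.2).cong_left (by simp) (by simp) (l := [0]) (by simp)
    have h2 : Sat S (wt [0, 0, 1]) (wt [0, 0]) := hS.1 _ _ (TL.sat_wt (by simp) (by simp) rfl)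
    have h3 : Sat S (wt [0, 1, 0]) (wt [0, 1]) := hS.1 _ _ (TL.sat_wt (by simp) (by simp) rfl)
    exact (h2.symm.trans (h1.trans h3)).symm
  apply Good.false (V := V)
  refine ⟨hV.um, ?_⟩
  intro t ht
  obtain ⟨u', hu', h⟩ := hV.two (List.Perm.refl _) ht
  rcases perm01 hu' with rfl | rfl
  · exact h
  · exact absurd (ht.trans (fun S _ ρ => eval_of_fl S ρ h)) hnc

theorem Bad.false {V : EpigroupVariety} (hV : Bad V) : False := by
  rcases hV.p3_or with h | h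
  · exact hV.false_of_p3 h
  · exact hV.op.false_of_p3 (mem_opVar.mpr h)

/-- Q2: nilsubvarieties of upper-modular varieties satisfy `x²y = xy²`. -/
theorem nil_xxy {V : EpigroupVariety} (hV : IsUpperModular V) {N : EpigroupVariety}
    (hN : N ≤ V) (hnil : N.IsNil) : N.Satisfies (wt [0, 0, 1]) (wt [0, 1, 1]) := by
  by_contra hcon
  have hcomm := nil_commutative hV hN hnil
  apply Bad.false (V := V)
  refine ⟨hV, ?_⟩
  intro u hu t ht
  by_contra hne
  push Not at hne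
  apply hcon
  intro S hS
  obtain ⟨z, hz⟩ := exists_nilWith hS (hnil S hS)
  apply hz.xxy (hcomm S hS) (t := t) (((comm_perm (hcomm S hS) hu).symm).trans (ht S (hN hS)))
  intro u' hu' hp
  exact hne u' hp hu'

end Pool.Agent.Lib.MP_d7b8a3_al
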