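import Pool.Agent.Lib.MP_d7b8a3_al.Opposite

/-!
# Forced subvarieties
-/

namespace Pool.Agent.Lib.MP_d7b8a3_al

/-- The word `w` is an isoterm for `V`. -/
def Iso (V : EpigroupVariety) (w : List ℕ) : Prop := ∀ t, V.Satisfies (wt w) t → fl t = some w

theorem fl_ren (f : ℕ → ℕ) (t : Term) : fl (ren f t) = (fl t).map (List.map f) := by
  induction t with
  | var i => rfl
  | mul s t ihs iht =>
    show fl (.mul (ren f s) (ren f t)) = _
    cases hs : fl s with
    | none =>
      rw [hs] at ihs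
      have h1 : fl (.mul s t) = none := by unfold fl; rw [hs]
      rw [h1]
      cases h2 : fl (.mul (ren f s) (ren f t)) with
      | none => rfl
      | some u =>
        obtain ⟨a, b, h4, -, -⟩ := fl_mul_eq_some h2
        rw [ihs] at h4
        simp at h4
    | some a =>
      rw [hs] at ihs
      cases ht : fl t with
      | none =>
        rw [ht] at iht
        have h1 : fl (.mul s t) = none := by unfold fl; rw [hs, ht]
        rw [h1]
        cases h2 : fl (.mul (ren f s) (ren f t)) with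
        | none => rfl
        | some u =>
          obtain ⟨a, b, -, h3, -⟩ := fl_mul_eq_some h2
          rw [iht] at h3
          simp at h3
      | some b =>
        rw [ht] at iht
        rw [fl_mul hs ht, fl_mul ihs iht]
        simp
  | bar s ih => rfl

theorem Iso.ren {V : EpigroupVariety} {w : List ℕ} (h : Iso V w) (hw : w ≠ []) (f g : ℕ → ℕ)
    (hgf : ∀ i, g (f i) = i) (hfg : ∀ i, f (g i) = i) : Iso V (w.map f) := by
  intro t ht
  have h1 : V.Satisfies (wt w) (MP_d7b8a3_al.ren g t) := by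
    have h2 := ht.subst (fun i => .var (g i))
    have h3 : subst (fun i => Term.var (g i)) (wt (w.map f)) = wt w := by
      have h4 := ren_wt g (l := w.map f) (by simpa using hw)
      rw [List.map_map] at h4
      have h5 : (g ∘ f) = id := funext hgf
      rw [h5, List.map_id] at h4
      exact h4
    rw [h3] at h2
    exact h2
  have h2 := h _ h1
  rw [fl_ren] at h2
  cases hf : fl t with
  | none => rw [hf] at h2; simp at h2
  | some u =>
    rw [hf] at h2
    simp only [Option.map_some, Option.some.injEq] at h2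
    rw [← h2, List.map_map]
    have h5 : (f ∘ g) = id := funext hfg
    rw [h5, List.map_id]

theorem swap01 (i : ℕ) : (Equiv.swap 0 1 : Equiv.Perm ℕ) ((Equiv.swap 0 1 : Equiv.Perm ℕ) i) = i :=
  Equiv.swap_apply_self 0 1 i

/-- A language closed under permutations has a commutative syntactic algebra. -/
theorem Syn.comm {L : Set (List ℕ)} (h : ∀ u v, u.Perm v → u ∈ L → v ∈ L) :
    Sat (Syn L) (wt [0, 1]) (wt [1, 0]) := by
  rw [Syn.sat_iff]
  have key : ∀ s t : Term, ∀ α β, (∃ u, fl (.mul s t) = some u ∧ α ++ u ++ β ∈ L) →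
      (∃ u, fl (.mul t s) = some u ∧ α ++ u ++ β ∈ L) := by
    rintro s t α β ⟨u, hu, hL⟩
    obtain ⟨a, b, h1, h2, rfl⟩ := fl_mul_eq_some hu
    refine ⟨b ++ a, fl_mul h2 h1, h _ _ ?_ hL⟩
    apply List.Perm.append_right
    apply List.Perm.append_left
    exact List.perm_append_comm
  intro σ α β
  exact ⟨key _ _ α β, key _ _ α β⟩

/-- The languages used below are bounded. -/
theorem perm_bounded (w : List ℕ) : ∀ u ∈ {u : List ℕ | u.Perm w}, u.length ≤ w.length :=
  fun _ hu => hu.length_eq.le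

/-- Standing assumptions. -/
structure Good (V : EpigroupVariety) : Prop where
  um : IsUpperModular V
  iso : Iso V [0, 1]

theorem perm01 {u : List ℕ} (h : u.Perm [0, 1]) : u = [0, 1] ∨ u = [1, 0] := by
  have hl := h.length_eq
  match u, hl with
  | [a, b], _ =>
    have h0 := h.count_eq 0
    have h1 := h.count_eq 1
    simp only [List.count_cons, List.count_nil] at h0 h1
    by_cases ha : a = 0
    · subst ha
      left
      simp at h1
      simp [h1]
    · have hb : b = 0 := by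
        by_contra hb
        simp [ha, hb] at h0
      subst hb
      right
      simp [ha] at h1
      simp [h1]

theorem Good.iso10 {V : EpigroupVariety} (hV : Good V) : Iso V [1, 0] := by
  have h := hV.iso.ren (by simp) (Equiv.swap 0 1) (Equiv.swap 0 1) swap01 swap01
  have h1 : [0, 1].map (Equiv.swap 0 1 : Equiv.Perm ℕ) = [1, 0] := by simp
  rw [h1] at h
  exact h

theorem Good.syn01 {V : EpigroupVariety} (hV : Good V) : Syn {[0, 1]} ∈ V.carrier := by
  apply Syn.mem
  intro u hu t ht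
  rw [Set.mem_singleton_iff] at hu
  subst hu
  exact ⟨_, rfl, hV.iso t ht⟩

theorem Good.synComm {V : EpigroupVariety} (hV : Good V) :
    Syn {u : List ℕ | u.Perm [0, 1]} ∈ V.carrier := by
  apply Syn.mem
  intro u hu t ht
  rcases perm01 hu with rfl | rfl
  · exact ⟨_, hu, hV.iso t ht⟩
  · exact ⟨_, hu, hV.iso10 t ht⟩

/-- Every noncommutative epigroup variety has a noncommutative intersection with `V`. -/
theorem Good.noncomm {V : EpigroupVariety} (hV : Good V) {Z : EpigroupVariety}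
    (hZ : ¬ Z.Satisfies (wt [0, 1]) (wt [1, 0])) :
    ∃ S, S ∈ Z.carrier ∧ S ∈ V.carrier ∧ ¬ Sat S (wt [0, 1]) (wt [1, 0]) := by
  by_contra hcon
  push Not at hcon
  have hu := Syn.uniEpi (perm_bounded [0, 1])
  have hA : Syn {[0, 1]} ∈ (Z ⊔ varOf _ _ hu).carrier := by
    apply Syn.mem
    intro u hu' t ht
    rw [Set.mem_singleton_iff] at hu'
    subst hu'
    have h1 : Z.Satisfies (wt [0, 1]) t := fun S hS => ht S ((le_sup_left : Z ≤ _) hS)
    have h2 : Sat (Syn {u : List ℕ | u.Perm [0, 1]}) (wt [0, 1]) t :=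
      ht _ ((le_sup_right : _ ≤ Z ⊔ _) (self_mem_varOf hu))
    obtain ⟨u', hu', h3⟩ := Syn.sat_mem h2 (List.Perm.refl _) (by simp)
    rcases perm01 hu' with rfl | rfl
    · exact ⟨_, rfl, h3⟩
    · exfalso
      apply hZ
      refine h1.trans ?_
      intro S _ ρ
      exact eval_of_fl S ρ h3
  have h1 := lemmaU hV.um (varOf_le hu hV.synComm) hV.syn01 hA (s := wt [0, 1]) (t := wt [1, 0])
    (fun S hS => hcon S hS.1 hS.2) ((varOf_satisfies hu).mpr (Syn.comm (fun u v huv h => huv.symm.trans h)))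
  obtain ⟨u', hu', h2⟩ := Syn.sat_mem h1 rfl (by simp)
  rw [Set.mem_singleton_iff] at hu'
  rw [fl_wt (by simp), hu'] at h2
  simp at h2

/-- The two-element left zero semigroup is in `V`. -/
theorem Good.lz {V : EpigroupVariety} (hV : Good V) : LZ2 ∈ V.carrier := by
  obtain ⟨S, hS, hSV, hne⟩ := hV.noncomm (Z := LZV) (by
    rw [LZV_satisfies, LZ2.sat_iff]
    simp [wt, hd])
  rw [mem_iff]
  intro s t hst
  rw [LZ2.sat_iff]
  by_contra hcon
  apply hne
  have h1 : ∀ s : Term, Sat S s (.var (hd s)) := fun s => hS _ _ (LZ2.sat_iff.mpr rfl)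
  have h2 : ∀ x y : S, x = y := by
    intro x y
    have h3 := ((h1 s).symm.trans (hst S hSV)).trans (h1 t)
    have h4 := h3 (fun i => if i = hd s then x else y)
    simp only [eval, if_true, if_neg (Ne.symm hcon)] at h4
    exact h4
  intro ρ
  exact h2 _ _

/-! ### The semigroup `P` is in `V` -/

theorem P3.eval_o {ρ : ℕ → P3} {l : List ℕ} (h1 : eval P3 ρ (wt l) ≠ P3.e)
    (h2 : eval P3 ρ (wt l) ≠ P3.a) : eval P3 ρ (wt l) = P3.o := by
  rcases P3.cases (eval P3 ρ (wt l)) with h | h | h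
  · exact absurd h h1
  · exact absurd h h2
  · exact h

theorem P3.mul_self_ne_e {x : P3} (h : x ≠ P3.e) : x * x = P3.o := by
  rcases P3.cases x with h1 | h1 | h1
  · exact absurd h1 h
  · rw [h1]; rfl
  · rw [h1]; rfl

theorem P3.ne_e_mul_mul {x y z : P3} (h : x ≠ P3.e) : x * (y * z) = P3.o := by
  rcases P3.cases x with h1 | h1 | h1
  · exact absurd h1 h
  · rw [h1]; rfl
  · rw [h1]; rfl

theorem P3.ne_e_mul {x y : P3} (h : x ≠ P3.e) : x * y = P3.o := by
  rcases P3.cases x with h1 | h1 | h1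
  · exact absurd h1 h
  · rw [h1]; rfl
  · rw [h1]; rfl

/-- `P` satisfies `x²wx² = x²y²` if `w` is a word in `x, y` containing `y`. -/
theorem P3.sat1 {w : List ℕ} (hw : ∀ i ∈ w, i = 0 ∨ i = 1) (h1 : 1 ∈ w) :
    Sat P3 (wt ([0, 0] ++ w ++ [0, 0])) (wt [0, 0, 1, 1]) := by
  intro ρ
  have hw0 : w ≠ [] := List.ne_nil_of_mem h1
  rw [P3.eval_append ρ (by simp) (by simp), P3.eval_append ρ (by simp) hw0]
  show ρ 0 * ρ 0 * eval P3 ρ (wt w) * (ρ 0 * ρ 0) = ρ 0 * (ρ 0 * (ρ 1 * ρ 1))
  by_cases h0 : ρ 0 = P3.e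
  · rw [h0, P3.e_mul, P3.e_mul, P3.e_mul, P3.e_mul]
    by_cases h2 : ρ 1 = P3.e
    · have h3 : eval P3 ρ (wt w) = P3.e := by
        rw [P3.eval_e ρ hw0]
        intro i hi
        rcases hw i hi with rfl | rfl
        · exact h0
        · exact h2
      rw [h3, h2]
    · rw [P3.mul_self_ne_e h2]
      apply P3.ne_e_mul
      intro h3
      rw [P3.eval_e ρ hw0] at h3
      exact h2 (h3 1 h1)
  · rw [P3.mul_self_ne_e h0, P3.ne_e_mul h0, P3.o_mul, P3.o_mul]

/-- `P` satisfies `x²w = x²y²` if `w` is a word in `x, y` containing `y` and not of the form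
`x^j y`. -/
theorem P3.sat2 {w : List ℕ} (hw : ∀ i ∈ w, i = 0 ∨ i = 1) (h1 : 1 ∈ w)
    (h2 : ∀ j, w ≠ List.replicate j 0 ++ [1]) :
    Sat P3 (wt ([0, 0] ++ w)) (wt [0, 0, 1, 1]) := by
  intro ρ
  have hw0 : w ≠ [] := List.ne_nil_of_mem h1
  rw [P3.eval_append ρ (by simp) hw0]
  show ρ 0 * ρ 0 * eval P3 ρ (wt w) = ρ 0 * (ρ 0 * (ρ 1 * ρ 1))
  by_cases h0 : ρ 0 = P3.e
  · rw [h0, P3.e_mul, P3.e_mul, P3.e_mul, P3.e_mul]
    by_cases h2' : ρ 1 = P3.e
    · have h3 : eval P3 ρ (wt w) = P3.e := by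
        rw [P3.eval_e ρ hw0]
        intro i hi
        rcases hw i hi with rfl | rfl
        · exact h0
        · exact h2'
      rw [h3, h2']; rfl
    · rw [P3.mul_self_ne_e h2']
      apply P3.eval_o
      · intro h3
        rw [P3.eval_e ρ hw0] at h3
        exact h2' (h3 1 h1)
      · intro h3
        obtain ⟨l', z, h4, h5, h6⟩ := (P3.eval_a ρ hw0).mp h3
        have hz : z = 1 := by
          rcases hw z (by rw [h4]; simp) with rfl | rfl
          · rw [h0] at h6; exact absurd h6 P3.e_ne_a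
          · rfl
        have hl' : l' = List.replicate l'.length 0 := by
          rw [List.eq_replicate_iff]
          refine ⟨rfl, fun b hb => ?_⟩
          rcases hw b (by rw [h4]; simp [hb]) with rfl | rfl
          · rfl
          · exact absurd (h5 1 hb) h2'
        rw [hl', hz] at h4
        exact h2 _ h4
  · rw [P3.mul_self_ne_e h0, P3.ne_e_mul h0, P3.o_mul]

theorem P3.s1 : Sat P3 (wt [0, 0, 1, 1]) (wt [1, 1, 0, 0]) := by
  intro ρ
  rcases P3.cases (ρ 0) with h0 | h0 | h0 <;> rcases P3.cases (ρ 1) with h1 | h1 | h1 <;>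
    simp only [wt, eval, h0, h1] <;> rfl

theorem P3.s2 : Sat P3 (wt [0, 1]) (wt [0, 0, 1]) := by
  intro ρ
  rcases P3.cases (ρ 0) with h0 | h0 | h0 <;> rcases P3.cases (ρ 1) with h1 | h1 | h1 <;>
    simp only [wt, eval, h0, h1] <;> rfl

theorem P3.s3 : Sat P3 (wt [1, 1, 1]) (wt [1, 1]) := by
  intro ρ
  rcases P3.cases (ρ 1) with h1 | h1 | h1 <;> simp only [wt, eval, h1] <;> rfl

theorem Sat.cong_left {S : UnarySemigroup} {l₁ l₂ : List ℕ} (h : Sat S (wt l₁) (wt l₂))
    (h1 : l₁ ≠ []) (h2 : l₂ ≠ []) {l : List ℕ} (hl : l ≠ []) :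
    Sat S (wt (l ++ l₁)) (wt (l ++ l₂)) := by
  intro ρ
  rw [eval_wt_append S ρ hl h1, eval_wt_append S ρ hl h2, h ρ]

theorem Sat.cong_right {S : UnarySemigroup} {l₁ l₂ : List ℕ} (h : Sat S (wt l₁) (wt l₂))
    (h1 : l₁ ≠ []) (h2 : l₂ ≠ []) {l : List ℕ} (hl : l ≠ []) :
    Sat S (wt (l₁ ++ l)) (wt (l₂ ++ l)) := by
  intro ρ
  rw [eval_wt_append S ρ h1 hl, eval_wt_append S ρ h2 hl, h ρ]

/-- Case 1: a semilattice-breaking identity in a member of `var P` gives commutativity. -/
theorem pcase1 {S : UnarySemigroup} (hS : S ∈ PV.carrier) {l₁ l₂ : List ℕ} (hn1 : l₁ ≠ [])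
    (h : Sat S (wt l₁) (wt l₂)) (f : ℕ → ℕ) (hf1 : ∀ i ∈ l₁, f i = 0)
    (hf : ∀ i ∈ l₂, f i = 0 ∨ f i = 1) (hf2 : ∃ i ∈ l₂, f i = 1) :
    Sat S (wt [0, 1]) (wt [1, 0]) := by
  obtain ⟨j, hj, hfj⟩ := hf2
  have hn2 : l₂ ≠ [] := List.ne_nil_of_mem hj
  have h1 := h.ren hn1 hn2 f
  have hm1 : l₁.map f = List.replicate l₁.length 0 := by
    rw [List.eq_replicate_iff]
    refine ⟨by simp, fun b hb => ?_⟩
    obtain ⟨i, hi, rfl⟩ := List.mem_map.mp hb
    exact hf1 i hi
  have hn1' : l₁.map f ≠ [] := by simpa using hn1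
  have hn2' : l₂.map f ≠ [] := by simpa using hn2
  have h2 := ((h1.cong_left hn1' hn2' (l := [0, 0]) (by simp)).cong_right (by simp) (by simp)
    (l := [0, 0]) (by simp))
  have h3 : Sat P3 (wt ([0, 0] ++ l₁.map f ++ [0, 0])) (wt [0, 0]) := by
    intro ρ
    rw [P3.eval_append ρ (by simp) (by simp), P3.eval_append ρ (by simp) hn1']
    show ρ 0 * ρ 0 * eval P3 ρ (wt (l₁.map f)) * (ρ 0 * ρ 0) = ρ 0 * ρ 0
    by_cases h0 : ρ 0 = P3.e
    · have h4 : eval P3 ρ (wt (l₁.map f)) = P3.e := by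
        rw [P3.eval_e ρ hn1', hm1]
        intro i hi
        rw [List.eq_of_mem_replicate hi, h0]
      rw [h4, h0]; rfl
    · rw [P3.mul_self_ne_e h0]; rfl
  have h4 : Sat P3 (wt ([0, 0] ++ l₂.map f ++ [0, 0])) (wt [0, 0, 1, 1]) := by
    apply P3.sat1
    · intro i hi
      obtain ⟨k, hk, rfl⟩ := List.mem_map.mp hi
      exact hf k hk
    · exact List.mem_map.mpr ⟨j, hj, hfj⟩
  have h5 : Sat S (wt [0, 0]) (wt [0, 0, 1, 1]) := ((hS _ _ h3).symm.trans h2).trans (hS _ _ h4)
  have h6 : Sat S (wt [1, 1]) (wt [1, 1, 0, 0]) := by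
    have := h5.ren (by simp) (by simp) (Equiv.swap 0 1)
    simpa using this
  have h7 : Sat S (wt [0, 0, 1, 1]) (wt [1, 1, 0, 0]) := hS _ _ P3.s1
  have h8 : Sat S (wt [0, 0]) (wt [1, 1]) := (h5.trans h7).trans h6.symm
  have h9 : Sat S (wt [0, 1]) (wt [1, 1]) := by
    have a1 : Sat S (wt [0, 1]) (wt [0, 0, 1]) := hS _ _ P3.s2
    have a2 : Sat S (wt [0, 0, 1]) (wt [1, 1, 1]) :=
      h8.cong_right (by simp) (by simp) (l := [1]) (by simp)
    have a3 : Sat S (wt [1, 1, 1]) (wt [1, 1]) := hS _ _ P3.s3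
    exact (a1.trans a2).trans a3
  have h10 : Sat S (wt [1, 0]) (wt [0, 0]) := by
    have := h9.ren (by simp) (by simp) (Equiv.swap 0 1)
    simpa using this
  exact (h9.trans h8.symm).trans h10.symm

/-- Case 2. -/
theorem pcase2 {S : UnarySemigroup} (hS : S ∈ PV.carrier) {l₁ l₂ : List ℕ} (hn1 : l₁ ≠ [])
    (hn2 : l₂ ≠ []) (h : Sat S (wt l₁) (wt l₂)) (ρ : ℕ → P3) (h1 : eval P3 ρ (wt l₁) = P3.a)
    (h2 : eval P3 ρ (wt l₂) = P3.o) (h3 : ∀ i ∈ l₂, ρ i ≠ P3.o) :
    Sat S (wt [0, 1]) (wt [1, 0]) := by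
  classical
  obtain ⟨l', z, hl, hl', hz⟩ := (P3.eval_a ρ hn1).mp h1
  let f : ℕ → ℕ := fun i => if ρ i = P3.e then 0 else 1
  have hn1' : l₁.map f ≠ [] := by simpa using hn1
  have hn2' : l₂.map f ≠ [] := by simpa using hn2
  have hm1 : l₁.map f = List.replicate l'.length 0 ++ [1] := by
    rw [hl, List.map_append]
    congr 1
    · rw [List.eq_replicate_iff]
      refine ⟨by simp, fun b hb => ?_⟩
      obtain ⟨i, hi, rfl⟩ := List.mem_map.mp hb
      exact if_pos (hl' i hi)
    · show [f z] = [1]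
      have : f z = 1 := if_neg (by rw [hz]; exact P3.e_ne_a.symm)
      rw [this]
  have hsat := h.ren hn1 hn2 f
  have hA := hsat.cong_left hn1' hn2' (l := [0, 0]) (by simp)
  -- the value of `l₂.map f` under `0 ↦ e, 1 ↦ a` is `o`
  let ρ' : ℕ → P3 := fun i => if i = 0 then P3.e else P3.a
  have hval : eval P3 ρ' (wt (l₂.map f)) = P3.o := by
    rw [← ren_wt f hn2]
    unfold ren
    rw [eval_subst, ← h2]
    have : ∀ l : List ℕ, l ≠ [] → (∀ i ∈ l, ρ i ≠ P3.o) →
        eval P3 (fun i => eval P3 ρ' (Term.var (f i))) (wt l) = eval P3 ρ (wt l) := by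
      intro l
      induction l with
      | nil => intro h; exact absurd rfl h
      | cons b l ih =>
        intro _ hb
        have hb1 : eval P3 ρ' (Term.var (f b)) = ρ b := by
          show ρ' (f b) = ρ b
          by_cases hbe : ρ b = P3.e
          · have : f b = 0 := if_pos hbe
            rw [this, hbe]
            exact if_pos rfl
          · have hfb : f b = 1 := if_neg hbe
            rw [hfb]
            have hba : ρ b = P3.a := by
              rcases P3.cases (ρ b) with h | h | h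
              · exact absurd h hbe
              · exact h
              · exact absurd h (hb b (by simp))
            rw [hba]
            exact if_neg (by norm_num)
        by_cases hl0 : l = []
        · subst hl0; exact hb1
        · rw [wt_cons hl0]
          show eval P3 ρ' (Term.var (f b)) * _ = ρ b * _
          rw [hb1]
          congr 1
          exact ih hl0 (fun i hi => hb i (by simp [hi]))
    exact this l₂ hn2 h3
  have hmem : ∀ i ∈ l₂.map f, i = 0 ∨ i = 1 := by
    intro i hi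
    obtain ⟨k, -, rfl⟩ := List.mem_map.mp hi
    by_cases hk : ρ k = P3.e
    · left; exact if_pos hk
    · right; exact if_neg hk
  have hP1 : Sat P3 (wt ([0, 0] ++ l₁.map f)) (wt [0, 1]) := by
    intro τ
    rw [P3.eval_append τ (by simp) hn1', hm1]
    show τ 0 * τ 0 * eval P3 τ (wt (List.replicate l'.length 0 ++ [1])) = τ 0 * τ 1
    by_cases h0 : τ 0 = P3.e
    · rw [h0, P3.e_mul, P3.e_mul, P3.e_mul]
      cases hk : l'.length with
      | zero => rfl
      | succ k =>
        rw [P3.eval_append τ (by simp [List.replicate_succ]) (by simp)]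
        have : eval P3 τ (wt (List.replicate (k + 1) 0)) = P3.e := by
          rw [P3.eval_e τ (by simp [List.replicate_succ])]
          intro i hi
          rw [List.eq_of_mem_replicate hi, h0]
        rw [this, P3.e_mul]
        rfl
    · rw [P3.mul_self_ne_e h0, P3.o_mul, P3.ne_e_mul h0]
  have hP2 : Sat P3 (wt ([0, 0] ++ l₂.map f)) (wt [0, 0, 1, 1]) := by
    apply P3.sat2 hmem
    · by_contra h1n
      have hall : ∀ i ∈ l₂.map f, ρ' i = P3.e := by
        intro i hi
        rcases hmem i hi with rfl | rfl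
        · exact if_pos rfl
        · exact absurd hi h1n
      rw [← P3.eval_e ρ' hn2'] at hall
      rw [hall] at hval
      exact P3.e_ne_o hval
    · intro j hj
      have : eval P3 ρ' (wt (l₂.map f)) = P3.a := by
        rw [P3.eval_a ρ' hn2']
        refine ⟨List.replicate j 0, 1, hj, ?_, if_neg (by norm_num)⟩
        intro i hi
        rw [List.eq_of_mem_replicate hi]
        exact if_pos rfl
      rw [this] at hval
      exact P3.a_ne_o hval
  have h5 : Sat S (wt [0, 1]) (wt [0, 0, 1, 1]) := ((hS _ _ hP1).symm.trans hA).trans (hS _ _ hP2)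
  have h6 : Sat S (wt [1, 0]) (wt [1, 1, 0, 0]) := by
    have := h5.ren (by simp) (by simp) (Equiv.swap 0 1)
    simpa using this
  have h7 : Sat S (wt [0, 0, 1, 1]) (wt [1, 1, 0, 0]) := hS _ _ P3.s1
  exact (h5.trans h7).trans h6.symm

/-- A member of `var P` satisfying an identity that fails in `P` is commutative. -/
theorem pcomm {S : UnarySemigroup} (hS : S ∈ PV.carrier) {s t : Term} (h : Sat S s t)
    (hne : ¬ Sat P3 s t) : Sat S (wt [0, 1]) (wt [1, 0]) := by
  classical
  unfold Sat at hne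
  push Not at hne
  obtain ⟨ρ, hρ⟩ := hne
  have hs : ∀ s, Sat S s (wt (ex 1 s)) := fun s => hS _ _ (P3.aper.sat_ex s)
  rw [P3.aper.eval_ex ρ s, P3.aper.eval_ex ρ t] at hρ
  have h' : Sat S (wt (ex 1 s)) (wt (ex 1 t)) := ((hs s).symm.trans h).trans (hs t)
  have hn1 := ex_ne_nil 1 s
  have hn2 := ex_ne_nil 1 t
  generalize ex 1 s = l₁ at *
  generalize ex 1 t = l₂ at *
  -- a value `e`
  have case_e : ∀ l₁ l₂ : List ℕ, l₁ ≠ [] → l₂ ≠ [] → Sat S (wt l₁) (wt l₂) →
      eval P3 ρ (wt l₁) = P3.e → eval P3 ρ (wt l₂) ≠ P3.e → Sat S (wt [0, 1]) (wt [1, 0]) := by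
    intro l₁ l₂ hn1 hn2 h h1 h2
    rw [P3.eval_e ρ hn1] at h1
    rw [Ne, P3.eval_e ρ hn2] at h2
    push Not at h2
    obtain ⟨j, hj, hj2⟩ := h2
    exact pcase1 hS hn1 h (fun i => if ρ i = P3.e then 0 else 1) (fun i hi => if_pos (h1 i hi))
      (fun i _ => by by_cases hi : ρ i = P3.e <;> simp [hi]) ⟨j, hj, if_neg hj2⟩
  have case_ao : ∀ l₁ l₂ : List ℕ, l₁ ≠ [] → l₂ ≠ [] → Sat S (wt l₁) (wt l₂) →
      eval P3 ρ (wt l₁) = P3.a → eval P3 ρ (wt l₂) = P3.o → Sat S (wt [0, 1]) (wt [1, 0]) := by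
    intro l₁ l₂ hn1 hn2 h h1 h2
    by_cases hno : ∀ i ∈ l₂, ρ i ≠ P3.o
    · exact pcase2 hS hn1 hn2 h ρ h1 h2 hno
    · push Not at hno
      obtain ⟨j, hj, hj2⟩ := hno
      refine pcase1 hS hn1 h (fun i => if ρ i = P3.o then 1 else 0) (fun i hi => ?_)
        (fun i _ => by by_cases hi : ρ i = P3.o <;> simp [hi]) ⟨j, hj, if_pos hj2⟩
      obtain ⟨l', z, h3, h4, h5⟩ := (P3.eval_a ρ hn1).mp h1
      apply if_neg
      rw [h3, List.mem_append, List.mem_singleton] at hi
      rcases hi with hi | rfl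
      · rw [h4 i hi]; exact P3.e_ne_o
      · rw [h5]; exact P3.a_ne_o
  rcases P3.cases (eval P3 ρ (wt l₁)) with h1 | h1 | h1
  · exact case_e l₁ l₂ hn1 hn2 h' h1 (fun h2 => hρ (by rw [h1, h2]))
  · rcases P3.cases (eval P3 ρ (wt l₂)) with h2 | h2 | h2
    · exact case_e l₂ l₁ hn2 hn1 h'.symm h2 (by rw [h1]; exact P3.e_ne_a.symm)
    · exact absurd (by rw [h1, h2]) hρ
    · exact case_ao l₁ l₂ hn1 hn2 h' h1 h2
  · rcases P3.cases (eval P3 ρ (wt l₂)) with h2 | h2 | h2
    · exact case_e l₂ l₁ hn2 hn1 h'.symm h2 (by rw [h1]; exact P3.e_ne_o.symm)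
    · exact case_ao l₂ l₁ hn2 hn1 h'.symm h2 h1
    · exact absurd (by rw [h1, h2]) hρ

/-- `P` is in `V`. -/
theorem Good.p3 {V : EpigroupVariety} (hV : Good V) : P3 ∈ V.carrier := by
  obtain ⟨S, hS, hSV, hne⟩ := hV.noncomm (Z := PV) (by
    rw [PV_satisfies]
    intro h
    have h1 := h (fun i => if i = 0 then P3.e else P3.a)
    exact P3.a_ne_o h1)
  rw [mem_iff]
  intro s t hst
  by_contra hcon
  exact hne (pcomm hS (hst S hSV) hcon)

/-- Duality. -/
theorem Good.op {V : EpigroupVariety} (hV : Good V) : Good (opVar V) := by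
  refine ⟨isUpperModular_op hV.um, ?_⟩
  intro t ht
  rw [opVar_satisfies] at ht
  have h1 : V.Satisfies (wt [1, 0]) (rev t) := by
    refine EpigroupVariety.Satisfies.trans ?_ ht
    intro S _
    exact (sat_rev_wt (l := [0, 1]) (by simp)).symm
  have h2 := hV.iso10 _ h1
  rw [fl_rev] at h2
  cases hf : fl t with
  | none => rw [hf] at h2; simp at h2
  | some u =>
    rw [hf] at h2
    simp only [Option.map_some, Option.some.injEq] at h2
    rw [← List.reverse_reverse u, h2]
    rfl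

theorem Good.p3op {V : EpigroupVariety} (hV : Good V) : opAlg P3 ∈ V.carrier :=
  mem_opVar.mp hV.op.p3

end Pool.Agent.Lib.MP_d7b8a3_al
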