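import Pool.Agent.Lib.MP_d7b8a3_al.Visible

/-!
# Many isoterms
-/

namespace Pool.Agent.Lib.MP_d7b8a3_al

/-- Not both letters are zero. -/
def NZ (a b : ℕ) : Prop := ¬ (a = 0 ∧ b = 0)

/-- Words in which all letters but `0` occur at most once, and without consecutive zeros. -/
structure Nice (u : List ℕ) : Prop where
  one : ∀ c, c ≠ 0 → u.count c ≤ 1
  nz : u.IsChain NZ

theorem Nice.take {u : List ℕ} (h : Nice u) (j : ℕ) : Nice (u.take j) :=
  ⟨fun c hc => ((List.take_sublist _ _).count_le c).trans (h.one c hc), h.nz.take j⟩

theorem hE_of_iso {V : EpigroupVariety} (hV : Good V) {p : List ℕ} {z a : ℕ} (hz : z ∉ p)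
    (ha : a ∈ p) (hiso : Iso V (p ++ [z])) :
    ¬ (ZV p.length ⊓ V).Satisfies (wt (p ++ [z])) (wt (p ++ [a])) := by
  apply lemmaE hV.um hV.p3 (L := {p ++ [z]})
  · rintro u rfl
    exact ⟨p, z, rfl, hz, rfl⟩
  · rintro u rfl t ht
    exact ⟨_, rfl, hiso t ht⟩
  · rfl
  · exact ha

theorem P3.last {u : List ℕ} {z : ℕ} (hz : z ∉ u) {t : Term} {M : ℕ} (hM : 1 ≤ M)
    (h : Sat P3 (wt (u ++ [z])) t) : ∃ l, ex M t = l ++ [z] ∧ z ∉ l := by
  have h4 := h (fun i => if i = z then P3.a else P3.e)
  have h5 : eval P3 (fun i => if i = z then P3.a else P3.e) (wt (u ++ [z])) = P3.a := by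
    rw [P3.eval_a _ (by simp)]
    refine ⟨u, z, rfl, fun i hi => ?_, if_pos rfl⟩
    exact if_neg (by rintro rfl; exact hz hi)
  rw [h5, (P3.aper.mono hM).eval_ex] at h4
  obtain ⟨l', z', h6, h7, h8⟩ := (P3.eval_a _ (ex_ne_nil _ _)).mp h4.symm
  have hz' : z' = z := by
    by_contra hne
    rw [if_neg hne] at h8
    exact P3.e_ne_a h8
  subst hz'
  refine ⟨l', h6, fun hmem => ?_⟩
  have := h7 z' hmem
  rw [if_pos rfl] at this
  exact P3.e_ne_a this.symm

/-- Zeros cannot be inserted before the last letter. -/
theorem Good.no_insert {V : EpigroupVariety} (hV : Good V) {u : List ℕ} (hu : Nice u)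
    (h2 : 2 ≤ u.count 0) {z : ℕ} (hz : z ∉ u) {i M : ℕ} (hM : 2 ≤ M) {t : Term}
    (h : V.Satisfies (wt (u ++ [z])) t)
    (hex : ex M t = u ++ List.replicate (i + 1) 0 ++ [z]) : False := by
  have hz0 : z ≠ 0 := by
    rintro rfl
    exact hz (List.count_pos_iff.mp (by omega))
  have hop : (opVar V).Satisfies (wt (u ++ [z]).reverse) (rev t) := by
    rw [opVar_satisfies, rev_rev]
    refine EpigroupVariety.Satisfies.trans ?_ h
    intro S _
    have := sat_rev_wt (S := S) (l := (u ++ [z]).reverse) (by simp)
    rwa [List.reverse_reverse] at this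
  have hex' : ex M (rev t) = z :: (List.replicate (i + 1) 0 ++ u.reverse) := by
    rw [ex_rev, hex]
    simp
  have hu0 : u ≠ [] := by
    rintro rfl
    simp at h2
  obtain ⟨u', c, rfl⟩ : ∃ u' c, u = u' ++ [c] :=
    ⟨u.dropLast, u.getLast hu0, (List.dropLast_append_getLast hu0).symm⟩
  have hzc : z ≠ c := by
    rintro rfl
    exact hz (by simp)
  by_cases hc : c = 0
  · subst hc
    have hu'0 : u' ≠ [] := by
      rintro rfl
      simp at h2
    obtain ⟨u'', d, rfl⟩ : ∃ u'' d, u' = u'' ++ [d] :=
      ⟨u'.dropLast, u'.getLast hu'0, (List.dropLast_append_getLast hu'0).symm⟩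
    have hd : d ≠ 0 := by
      rintro rfl
      have h3 := hu.nz
      rw [List.append_assoc, List.isChain_append] at h3
      have h4 := h3.2.1
      simp [NZ] at h4
    have hzd : z ≠ d := by
      rintro rfl
      exact hz (by simp)
    have h3 : (ZV 2 ⊓ opVar V).Satisfies (wt (u'' ++ [d] ++ [0] ++ [z]).reverse) (rev t) :=
      fun S hS => hop S hS.2
    have h4 := trunc hM (by simp) h3
    rw [hex'] at h4
    have e1 : ((u'' ++ [d] ++ [0] ++ [z]).reverse).take (2 + 1) = [z, 0] ++ [d] := by simp
    have e2 : (z :: (List.replicate (i + 1) 0 ++ (u'' ++ [d] ++ [0]).reverse)).take (2 + 1) =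
        [z, 0] ++ [0] := by
      cases i with
      | zero => simp
      | succ i => simp [List.replicate_succ]
    rw [e1, e2] at h4
    exact hV.op.linear (p := [z, 0]) (by simp [hz0]) (z := d) (a := 0) (by simp [hzd.symm, hd])
      (by simp) h4
  · have h3 : (ZV 1 ⊓ opVar V).Satisfies (wt (u' ++ [c] ++ [z]).reverse) (rev t) :=
      fun S hS => hop S hS.2
    have h4 := trunc (show 1 ≤ M by omega) (by simp) h3
    rw [hex'] at h4
    have e1 : ((u' ++ [c] ++ [z]).reverse).take (1 + 1) = [z] ++ [c] := by simp
    have e2 : (z :: (List.replicate (i + 1) 0 ++ (u' ++ [c]).reverse)).take (1 + 1) =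
        [z] ++ [0] := by simp [List.replicate_succ]
    rw [e1, e2] at h4
    apply hV.op.linear (p := [z]) (by simp) (z := c) (a := z) (by simp [hzc.symm])
      (by simp)
    intro S hS
    have h5 := (h4 S hS).ren (by simp) (by simp) (fun i => if i = 0 then z else i)
    simpa [hz0, hc] using h5

theorem Good.claimA {V : EpigroupVariety} (hV : Good V) : ∀ n, ∀ u : List ℕ, u.length = n →
    Nice u → ∀ z, z ∉ u → Iso V (u ++ [z]) := by
  intro n
  induction n using Nat.strong_induction_on with
  | _ n ih =>
    intro u hun hu z hz t ht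
    obtain ⟨M, hMdef⟩ : ∃ M, M = n + 3 := ⟨_, rfl⟩
    have hc : ∀ i, min ((u ++ [z]).count i) 2 = min ((ex M t).count i) 2 := fun i => by
      have := hV.count ht (M := M) (by omega) i
      rwa [ex_of_fl (fl_wt (by simp))] at this
    obtain ⟨l, hτ, hzl⟩ := P3.last hz (t := t) (M := M) (by omega) (ht _ hV.p3)
    have hone : ∀ c, c ≠ 0 → (u ++ [z]).count c ≤ 1 := by
      intro c hc0
      rw [List.count_append]
      by_cases hcz : c = z
      · subst hcz
        rw [List.count_eq_zero_of_not_mem hz]
        simp
      · have h1 := hu.one c hc0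
        have h2 : [z].count c = 0 := List.count_eq_zero_of_not_mem (by simpa using hcz)
        omega
    have hpre := prefix_lemma (V := V) hV.lz (K := min u.length (ex M t).length) (M := M)
      (by omega) (w := u ++ [z]) (by simp) (t := t) (min_le_right _ _)
      (fun j _ S hS => ht S hS.2) hc hone (by
        intro j hj z' hz' a ha
        have h1 : (u ++ [z]).take j = u.take j := List.take_append_of_le_length (by omega)
        rw [h1] at hz' ha ⊢
        have h2 : (u.take j).length = j := by rw [List.length_take]; omega
        have h3 := hE_of_iso hV hz' ha (ih j (by omega) _ h2 (hu.take j) z' hz')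
        rwa [h2] at h3)
    rcases lt_or_ge (ex M t).length u.length with hlt | hge
    · exfalso
      rw [min_eq_right hlt.le, List.take_length, List.take_append_of_le_length hlt.le] at hpre
      apply hz
      apply List.mem_of_mem_take (i := (ex M t).length)
      rw [hpre, hτ]
      simp
    · rw [min_eq_left hge, List.take_append_of_le_length le_rfl, List.take_length] at hpre
      have hlen : u.length ≤ l.length := by
        by_contra hcon
        push Not at hcon
        have h1 : (ex M t).length = l.length + 1 := by rw [hτ]; simp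
        have h2 : (ex M t).length = u.length := by omega
        rw [← h2, List.take_length] at hpre
        apply hz
        rw [hpre, hτ]
        simp
      have hul : u = l.take u.length := by
        rw [hτ, List.take_append_of_le_length hlen] at hpre
        exact hpre
      obtain ⟨s, hs⟩ : ∃ s, l = u ++ s := ⟨l.drop u.length, by
        conv_lhs => rw [← List.take_append_drop u.length l]
        rw [← hul]⟩
      have hs0 : s = List.replicate s.length 0 := by
        rw [List.eq_replicate_iff]
        refine ⟨rfl, fun c hcs => ?_⟩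
        by_contra hc0
        have h1 := hc c
        have hcz : c ≠ z := by
          rintro rfl
          exact hzl (by rw [hs]; simp [hcs])
        have h2 : [z].count c = 0 := List.count_eq_zero_of_not_mem (by simpa using hcz)
        rw [hτ, hs, List.count_append, List.count_append, List.count_append, h2] at h1
        have h3 := hu.one c hc0
        have h4 := List.count_pos_iff.mpr hcs
        omega
      cases hsl : s.length with
      | zero =>
        rw [List.length_eq_zero_iff] at hsl
        rw [hsl, List.append_nil] at hs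
        rw [hs] at hτ
        apply fl_of_ex hτ
        simp
        omega
      | succ i =>
        exfalso
        rw [hsl] at hs0
        have h0s : 0 ∈ s := by rw [hs0]; simp
        have hz0 : z ≠ 0 := by
          rintro rfl
          exact hzl (by rw [hs]; simp [h0s])
        have h2 : [z].count 0 = 0 := List.count_eq_zero_of_not_mem (by simpa using hz0.symm)
        have h1 := hc 0
        rw [hτ, hs, List.count_append, List.count_append, List.count_append, h2] at h1
        have h4 := List.count_pos_iff.mpr h0s
        exact hV.no_insert hu (by omega) hz (i := i) (M := M) (by omega) ht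
          (by rw [hτ, hs, ← hs0])

end Pool.Agent.Lib.MP_d7b8a3_al
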