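import Pool.Agent.Lib.MP_d7b8a3_al.NoGood

/-!
# Nil-semigroups
-/

namespace Pool.Agent.Lib.MP_d7b8a3_al

/-- `S` is a nil-semigroup with zero `z`, and its unary operation is the constant `z`. -/
structure NilWith (S : UnarySemigroup) (z : S) : Prop where
  zl : ∀ x : S, z * x = z
  zr : ∀ x : S, x * z = z
  nil : ∀ x : S, ∃ n, pw x n = z
  bar : ∀ x : S, S.bar x = z

theorem pw_of_idem {S : Type} [Semigroup S] {e : S} (h : e * e = e) (n : ℕ) : pw e n = e := by
  induction n with
  | zero => rfl
  | succ n ih =>
    show pw e n * e = e
    rw [ih, h]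

theorem exists_nilWith {V : EpigroupVariety} {S : UnarySemigroup} (hS : S ∈ V.carrier)
    (hnil : IsNilSemigroup S) : ∃ z, NilWith S z := by
  obtain ⟨z, h1, h2⟩ := hnil
  refine ⟨z, fun x => (h1 x).1, fun x => (h1 x).2, h2, fun x => ?_⟩
  obtain ⟨e, he, -, -, ⟨hy, -, -⟩, -, -⟩ := V.isEpigroup S hS x
  obtain ⟨n, hn⟩ := h2 e
  rw [pw_of_idem he] at hn
  rw [← hy, hn]
  exact (h1 _).1

theorem NilWith.eval_none {S : UnarySemigroup} {z : S} (h : NilWith S z) (ρ : ℕ → S) {t : Term}
    (ht : fl t = none) : eval S ρ t = z := by
  induction t with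
  | var i => simp [fl] at ht
  | mul s t ihs iht =>
    show eval S ρ s * eval S ρ t = z
    cases hs : fl s with
    | none => rw [ihs hs, h.zl]
    | some a =>
      cases ht' : fl t with
      | none => rw [iht ht', h.zr]
      | some b => rw [fl_mul hs ht'] at ht; simp at ht
  | bar s _ => exact h.bar _

theorem NilWith.eval_zero {S : UnarySemigroup} {z : S} (h : NilWith S z) {ρ : ℕ → S} {l : List ℕ}
    {i : ℕ} (hi : i ∈ l) (hz : ρ i = z) : eval S ρ (wt l) = z := by
  induction l with
  | nil => simp at hi
  | cons b l ih =>
    by_cases hl : l = []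
    · subst hl
      rw [List.mem_singleton] at hi
      subst hi
      exact hz
    · rw [wt_cons hl]
      show ρ b * eval S ρ (wt l) = z
      rcases List.mem_cons.mp hi with rfl | hi
      · rw [hz, h.zl]
      · rw [ih hi, h.zr]

theorem eval_congr {S : UnarySemigroup} {ρ ρ' : ℕ → S} {l : List ℕ} (hl : l ≠ [])
    (h : ∀ i ∈ l, ρ i = ρ' i) : eval S ρ (wt l) = eval S ρ' (wt l) := by
  induction l with
  | nil => exact absurd rfl hl
  | cons b l ih =>
    by_cases hl : l = []
    · subst hl
      exact h b (by simp)
    · rw [wt_cons hl]
      show ρ b * eval S ρ (wt l) = ρ' b * eval S ρ' (wt l)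
      rw [h b (by simp), ih hl (fun i hi => h i (by simp [hi]))]

/-- An identity whose sides have different contents makes both sides zero. -/
theorem NilWith.content {S : UnarySemigroup} {z : S} (h : NilWith S z) {w l : List ℕ}
    (hw : w ≠ []) (hl : l ≠ []) (hs : Sat S (wt w) (wt l)) {c : ℕ} (hc : ¬ (c ∈ w ↔ c ∈ l))
    (ρ : ℕ → S) : eval S ρ (wt w) = z := by
  classical
  obtain ⟨ρ', hρ'⟩ : ∃ ρ' : ℕ → S, ρ' = fun i => if i = c then z else ρ i := ⟨_, rfl⟩
  have h1 : ρ' c = z := by rw [hρ']; exact if_pos rfl
  have h2 : ∀ l : List ℕ, l ≠ [] → c ∉ l → eval S ρ (wt l) = eval S ρ' (wt l) := by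
    intro l hl hcl
    apply eval_congr hl
    intro i hi
    rw [hρ']
    exact (if_neg (by rintro rfl; exact hcl hi)).symm
  by_cases hcw : c ∈ w
  · have hcl : c ∉ l := fun h => hc ⟨fun _ => h, fun _ => hcw⟩
    rw [hs ρ, h2 l hl hcl, ← hs ρ']
    exact h.eval_zero hcw h1
  · have hcl : c ∈ l := by
      by_contra hcl
      exact hc ⟨fun h => absurd h hcw, fun h => absurd h hcl⟩
    rw [h2 w hw hcw, hs ρ']
    exact h.eval_zero hcl h1

theorem NilWith.iter_left {S : UnarySemigroup} {z : S} (h : NilWith S z) {a x : S}
    (ha : a = x * a) : a = z := by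
  have h1 : ∀ n, pw x n * a = a := by
    intro n
    induction n with
    | zero => exact ha.symm
    | succ n ih =>
      show pw x n * x * a = a
      rw [mul_assoc, ← ha, ih]
  obtain ⟨n, hn⟩ := h.nil x
  rw [← h1 n, hn, h.zl]

theorem NilWith.iter_right {S : UnarySemigroup} {z : S} (h : NilWith S z) {a y : S}
    (ha : a = a * y) : a = z := by
  have h1 : ∀ n, a * pw y n = a := by
    intro n
    induction n with
    | zero => exact ha.symm
    | succ n ih =>
      show a * (pw y n * y) = a
      rw [← mul_assoc, ih, ← ha]
  obtain ⟨n, hn⟩ := h.nil y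
  rw [← h1 n, hn, h.zr]

theorem NilWith.iter_both {S : UnarySemigroup} {z : S} (h : NilWith S z) {a x y : S}
    (ha : a = x * a * y) : a = z := by
  have h1 : ∀ n, pw x n * a * pw y n = a := by
    intro n
    induction n with
    | zero => exact ha.symm
    | succ n ih =>
      show pw x n * x * a * (pw y n * y) = a
      rw [← pw_comm y n]
      calc pw x n * x * a * (y * pw y n) = pw x n * (x * a * y) * pw y n := by
            simp only [mul_assoc]
        _ = a := by rw [← ha, ih]
  obtain ⟨n, hn⟩ := h.nil x
  rw [← h1 n, hn, h.zl, h.zl]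

/-- If `w = α w β` with a nonempty context then `w = 0`. -/
theorem NilWith.factor {S : UnarySemigroup} {z : S} (h : NilWith S z) {w α β : List ℕ}
    (hw : w ≠ []) (hne : α ≠ [] ∨ β ≠ []) (hs : Sat S (wt w) (wt (α ++ w ++ β))) (ρ : ℕ → S) :
    eval S ρ (wt w) = z := by
  have h1 := hs ρ
  by_cases hα : α = []
  · have hβ : β ≠ [] := by
      rcases hne with h | h
      · exact absurd hα h
      · exact h
    subst hα
    rw [List.nil_append, eval_wt_append S ρ hw hβ] at h1
    exact h.iter_right h1
  · by_cases hβ : β = []
    · subst hβ
      rw [List.append_nil, eval_wt_append S ρ hα hw] at h1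
      exact h.iter_left h1
    · rw [eval_wt_append S ρ (by simp [hw]) hβ, eval_wt_append S ρ hα hw] at h1
      exact h.iter_both h1

theorem Sat.cong {S : UnarySemigroup} {l₁ l₂ : List ℕ} (h : Sat S (wt l₁) (wt l₂))
    (h1 : l₁ ≠ []) (h2 : l₂ ≠ []) (α β : List ℕ) :
    Sat S (wt (α ++ l₁ ++ β)) (wt (α ++ l₂ ++ β)) := by
  have h3 : Sat S (wt (α ++ l₁)) (wt (α ++ l₂)) := by
    by_cases hα : α = []
    · subst hα; exact h
    · exact h.cong_left h1 h2 hα
  by_cases hβ : β = []
  · subst hβ
    rw [List.append_nil, List.append_nil]
    exact h3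
  · exact h3.cong_right (by simp [h1]) (by simp [h2]) hβ

theorem two_letters {l : List ℕ} (h : ∀ i ∈ l, i = 0 ∨ i = 1) :
    (∃ α β, l = α ++ [0, 1] ++ β) ∨ ∃ i j, l = List.replicate i 1 ++ List.replicate j 0 := by
  induction l with
  | nil => exact Or.inr ⟨0, 0, rfl⟩
  | cons b l ih =>
    rcases ih (fun i hi => h i (by simp [hi])) with ⟨α, β, rfl⟩ | ⟨i, j, rfl⟩
    · exact Or.inl ⟨b :: α, β, rfl⟩
    · rcases h b (by simp) with rfl | rfl
      · cases i with
        | zero => exact Or.inr ⟨0, j + 1, rfl⟩
        | succ i => exact Or.inl ⟨[], List.replicate i 1 ++ List.replicate j 0, rfl⟩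
      · exact Or.inr ⟨i + 1, j, rfl⟩

/-- A nil-semigroup for which `xy` is not an isoterm is commutative. -/
theorem NilWith.comm {S : UnarySemigroup} {z : S} (h : NilWith S z) {t : Term}
    (ht : Sat S (wt [0, 1]) t) (hne : fl t ≠ some [0, 1]) : Sat S (wt [0, 1]) (wt [1, 0]) := by
  -- it is enough to have zero multiplication
  have key : (∀ ρ : ℕ → S, eval S ρ (wt [0, 1]) = z) → Sat S (wt [0, 1]) (wt [1, 0]) := by
    intro hz ρ
    rw [hz ρ]
    have h1 : eval S ρ (wt [1, 0]) = eval S (fun i => if i = 0 then ρ 1 else ρ 0) (wt [0, 1]) := rfl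
    rw [h1, hz]
  cases hl : fl t with
  | none =>
    apply key
    intro ρ
    rw [ht ρ, h.eval_none ρ hl]
  | some l =>
    have hl0 := fl_ne_nil hl
    have hs : Sat S (wt [0, 1]) (wt l) := fun ρ => (ht ρ).trans (eval_of_fl S ρ hl)
    by_cases hc : ∃ c, ¬ (c ∈ [0, 1] ↔ c ∈ l)
    · obtain ⟨c, hc⟩ := hc
      exact key (fun ρ => h.content (by simp) hl0 hs hc ρ)
    · push Not at hc
      have hmem : ∀ i ∈ l, i = 0 ∨ i = 1 := by
        intro i hi
        have := (hc i).mpr hi
        simpa using this
      rcases two_letters hmem with ⟨α, β, hαβ⟩ | ⟨i, j, hij⟩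
      · apply key
        intro ρ
        rw [hαβ] at hs
        apply h.factor (by simp) _ hs
        by_contra hcon
        push Not at hcon
        rw [hcon.1, hcon.2] at hαβ
        apply hne
        rw [hl, hαβ]
        rfl
      · have h0 : 0 ∈ l := (hc 0).mp (by simp)
        have h1 : 1 ∈ l := (hc 1).mp (by simp)
        cases i with
        | zero =>
          rw [hij] at h1
          simp at h1
        | succ i =>
          cases j with
          | zero =>
            rw [hij] at h0
            simp at h0
          | succ j =>
            by_cases hij0 : i = 0 ∧ j = 0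
            · rw [hij, hij0.1, hij0.2] at hs
              exact hs
            · apply key
              intro ρ
              have e1 : l = List.replicate i 1 ++ [1, 0] ++ List.replicate j 0 := by
                rw [hij, List.replicate_succ' (n := i), List.replicate_succ (n := j)]
                simp
              have h2 : Sat S (wt [1, 0])
                  (wt (List.replicate (i + 1) 0 ++ List.replicate (j + 1) 1)) := by
                have h3 := hs.ren (by simp) hl0 (fun i => if i = 0 then 1 else 0)
                rw [hij] at h3
                simpa using h3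
              have h3 := h2.cong (by simp) (by simp) (List.replicate i 1) (List.replicate j 0)
              rw [← e1] at h3
              have h4 := hs.trans h3
              have e2 : List.replicate i 1 ++ (List.replicate (i + 1) 0 ++
                  List.replicate (j + 1) 1) ++ List.replicate j 0 =
                  (List.replicate i 1 ++ List.replicate i 0) ++ [0, 1] ++
                  (List.replicate j 1 ++ List.replicate j 0) := by
                rw [List.replicate_succ' (n := i) (a := 0), List.replicate_succ (n := j) (a := 1)]
                simp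
              rw [e2] at h4
              apply h.factor (by simp) _ h4
              by_contra hcon
              push Not at hcon
              apply hij0
              constructor
              · have := hcon.1
                simp at this
                exact this
              · have := hcon.2
                simp at this
                exact this

/-- Q1: nilsubvarieties of upper-modular varieties are commutative. -/
theorem nil_commutative {V : EpigroupVariety} (hV : IsUpperModular V) {N : EpigroupVariety}
    (hN : N ≤ V) (hnil : N.IsNil) : N.Satisfies (wt [0, 1]) (wt [1, 0]) := by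
  by_contra hcon
  apply Good.false (V := V)
  refine ⟨hV, ?_⟩
  intro t ht
  by_contra hne
  apply hcon
  intro S hS
  obtain ⟨z, hz⟩ := exists_nilWith hS (hnil S hS)
  exact hz.comm (ht S (hN hS)) hne

/-! ## Commutative nil-semigroups -/

theorem comm_perm {S : UnarySemigroup} (hc : Sat S (wt [0, 1]) (wt [1, 0])) {l₁ l₂ : List ℕ}
    (h : l₁.Perm l₂) : Sat S (wt l₁) (wt l₂) := by
  have hc' : ∀ x y : S, x * y = y * x := fun x y => hc (fun i => if i = 0 then x else y)
  induction h with
  | nil => exact Sat.refl S _
  | @cons x l₁ l₂ h ih =>
    by_cases hl : l₁ = []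
    · subst hl
      have : l₂ = [] := List.nil_perm.mp h
      subst this
      exact Sat.refl S _
    · have hl2 : l₂ ≠ [] := by
        rintro rfl
        exact hl (List.perm_nil.mp h)
      rw [wt_cons hl, wt_cons hl2]
      exact (Sat.refl S _).mul ih
  | swap x y l =>
    by_cases hl : l = []
    · subst hl
      intro ρ
      exact hc' _ _
    · rw [wt_cons (by simp), wt_cons hl, wt_cons (by simp), wt_cons hl]
      intro ρ
      show ρ y * (ρ x * eval S ρ (wt l)) = ρ x * (ρ y * eval S ρ (wt l))
      rw [← mul_assoc, hc' (ρ y) (ρ x), mul_assoc]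
  | trans _ _ ih1 ih2 => exact ih1.trans ih2

theorem perm_of_counts {l : List ℕ} (h : ∀ i ∈ l, i = 0 ∨ i = 1) :
    l.Perm (List.replicate (l.count 0) 0 ++ List.replicate (l.count 1) 1) := by
  rw [List.perm_iff_count]
  intro a
  rw [List.count_append, List.count_replicate, List.count_replicate]
  by_cases h0 : a = 0
  · subst h0; simp
  · by_cases h1 : a = 1
    · subst h1; simp
    · have : l.count a = 0 := List.count_eq_zero_of_not_mem (fun h' => by
        rcases h a h' with h | h
        · exact h0 h
        · exact h1 h)
      rw [this]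
      simp [Ne.symm h0, Ne.symm h1]

theorem NilWith.xxy {S : UnarySemigroup} {z : S} (h : NilWith S z)
    (hc : Sat S (wt [0, 1]) (wt [1, 0])) {t : Term} (ht : Sat S (wt [0, 0, 1]) t)
    (hne : ∀ u, fl t = some u → ¬ u.Perm [0, 0, 1]) :
    Sat S (wt [0, 0, 1]) (wt [0, 1, 1]) := by
  have key : (∀ ρ : ℕ → S, eval S ρ (wt [0, 0, 1]) = z) →
      Sat S (wt [0, 0, 1]) (wt [0, 1, 1]) := by
    intro hz ρ
    rw [hz ρ]
    have h1 : eval S ρ (wt [0, 1, 1]) = eval S ρ (wt [1, 1, 0]) :=
      comm_perm hc (by decide) ρ
    have h2 : eval S ρ (wt [1, 1, 0]) =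
      eval S (fun i => if i = 0 then ρ 1 else ρ 0) (wt [0, 0, 1]) := rfl
    rw [h1, h2, hz]
  cases hl : fl t with
  | none =>
    apply key
    intro ρ
    rw [ht ρ, h.eval_none ρ hl]
  | some l =>
    have hl0 := fl_ne_nil hl
    have hnl := hne l hl
    have hs : Sat S (wt [0, 0, 1]) (wt l) := fun ρ => (ht ρ).trans (eval_of_fl S ρ hl)
    by_cases hcc : ∃ c, ¬ (c ∈ [0, 0, 1] ↔ c ∈ l)
    · obtain ⟨c, hcc⟩ := hcc
      exact key (fun ρ => h.content (by simp) hl0 hs hcc ρ)
    · push Not at hcc
      have hmem : ∀ i ∈ l, i = 0 ∨ i = 1 := by
        intro i hi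
        have := (hcc i).mpr hi
        simpa using this
      have h0 := List.count_pos_iff.mpr ((hcc 0).mp (by simp))
      have h1 := List.count_pos_iff.mpr ((hcc 1).mp (by simp))
      have hp := perm_of_counts hmem
      have hs2 := hs.trans (comm_perm hc hp)
      generalize l.count 0 = i at *
      generalize l.count 1 = j at *
      by_cases hi2 : 2 ≤ i
      · obtain ⟨i, rfl⟩ := Nat.exists_eq_add_of_le' hi2
        obtain ⟨j, rfl⟩ := Nat.exists_eq_add_of_le' h1
        apply key
        have hp2 : (List.replicate (i + 2) 0 ++ List.replicate (j + 1) 1).Perm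
            ([] ++ [0, 0, 1] ++ (List.replicate i 0 ++ List.replicate j 1)) := by
          rw [List.perm_iff_count]
          intro a
          simp only [List.count_append, List.count_replicate, List.count_cons, List.count_nil]
          by_cases h0 : a = 0
          · subst h0; simp; omega
          · by_cases h1 : a = 1
            · subst h1; simp; omega
            · simp [Ne.symm h0, Ne.symm h1]
        intro ρ
        apply h.factor (by simp) _ (hs2.trans (comm_perm hc hp2))
        right
        intro hnil
        have hi0 : i = 0 := by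
          have := congrArg List.length hnil
          simp at this
          exact this.1
        have hj0 : j = 0 := by
          have := congrArg List.length hnil
          simp at this
          exact this.2
        subst hi0 hj0
        exact hnl (hp.trans (by decide))
      · have hi1 : i = 1 := by omega
        subst hi1
        by_cases hj1 : j = 1
        · subst hj1
          apply key
          have h2 : Sat S (wt [0, 1]) (wt ([0] ++ [0, 1] ++ [])) := hs2.symm
          intro ρ
          have h3 := h.factor (by simp) (by simp) h2 ρ
          show ρ 0 * eval S ρ (wt [0, 1]) = z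
          rw [h3, h.zr]
        · by_cases hj2 : j = 2
          · subst hj2
            exact hs2
          · obtain ⟨j, rfl⟩ := Nat.exists_eq_add_of_le' (show 3 ≤ j by omega)
            have h2 : Sat S (wt [1, 1, 0]) (wt ([1] ++ List.replicate (j + 3) 0)) := by
              have h3 := hs2.ren (by simp) (by simp) (fun i => if i = 0 then 1 else 0)
              simpa using h3
            have h3 := h2.cong (by simp) (by simp) [] (List.replicate (j + 1) 1)
            have hp2 : (List.replicate 1 0 ++ List.replicate (j + 3) 1).Perm
                ([] ++ [1, 1, 0] ++ List.replicate (j + 1) 1) := by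
              rw [List.perm_iff_count]
              intro a
              simp only [List.count_append, List.count_replicate, List.count_cons, List.count_nil]
              by_cases h0 : a = 0
              · subst h0; simp
              · by_cases h1 : a = 1
                · subst h1; simp; omega
                · simp [Ne.symm h0, Ne.symm h1]
            have hp3 : ([] ++ ([1] ++ List.replicate (j + 3) 0) ++ List.replicate (j + 1) 1).Perm
                ([] ++ [0, 0, 1] ++ (List.replicate (j + 1) 0 ++ List.replicate (j + 1) 1)) := by
              rw [List.perm_iff_count]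
              intro a
              simp only [List.count_append, List.count_replicate, List.count_cons, List.count_nil]
              by_cases h0 : a = 0
              · subst h0; simp; omega
              · by_cases h1 : a = 1
                · subst h1; simp
                · simp [Ne.symm h0, Ne.symm h1]
            apply key
            intro ρ
            exact h.factor (by simp) (Or.inr (by simp))
              (((hs2.trans (comm_perm hc hp2)).trans h3).trans (comm_perm hc hp3)) ρ

end Pool.Agent.Lib.MP_d7b8a3_al
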