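import Pool.Agent.Lib.MP_d7b8a3_al.Isoterm

/-!
# The contradiction
-/

namespace Pool.Agent.Lib.MP_d7b8a3_al

/-- The words `0 1 0 2 0 3 ⋯ 0 k`. -/
def vv : ℕ → List ℕ
  | 0 => []
  | k + 1 => vv k ++ [0, k + 1]

theorem vv_le {k i : ℕ} (h : i ∈ vv k) : i ≤ k := by
  induction k with
  | zero => simp [vv] at h
  | succ k ih =>
    simp only [vv, List.mem_append, List.mem_cons, List.not_mem_nil, or_false] at h
    rcases h with h | h | h
    · have := ih h; omega
    · omega
    · omega

theorem vv_count_zero (k : ℕ) : (vv k).count 0 = k := by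
  induction k with
  | zero => rfl
  | succ k ih =>
    show (vv k ++ [0, k + 1]).count 0 = k + 1
    rw [List.count_append, ih]
    simp

theorem vv_count (k c : ℕ) (hc : c ≠ 0) : (vv k).count c ≤ 1 := by
  induction k with
  | zero => simp [vv]
  | succ k ih =>
    show (vv k ++ [0, k + 1]).count c ≤ 1
    rw [List.count_append]
    by_cases h : c = k + 1
    · subst h
      have : (vv k).count (k + 1) = 0 := List.count_eq_zero_of_not_mem (fun h => by
        have := vv_le h
        omega)
      rw [this]
      simp
    · have : [0, k + 1].count c = 0 := List.count_eq_zero_of_not_mem (by simp [hc, h])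
      omega

theorem vv_length (k : ℕ) : (vv k).length = 2 * k := by
  induction k with
  | zero => rfl
  | succ k ih =>
    show (vv k ++ [0, k + 1]).length = 2 * (k + 1)
    rw [List.length_append, ih]
    simp
    omega

theorem vv_nice (k : ℕ) : Nice (vv k ++ [0]) := by
  constructor
  · intro c hc
    rw [List.count_append]
    have h1 := vv_count k c hc
    have : [0].count c = 0 := List.count_eq_zero_of_not_mem (by simpa using hc)
    omega
  · induction k with
    | zero => simp [vv]
    | succ k ih =>
      have e : vv (k + 1) ++ [0] = (vv k ++ [0]) ++ [k + 1, 0] := by simp [vv]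
      rw [e, List.isChain_append]
      refine ⟨ih, by simp [NZ], ?_⟩
      intro x _ y hy
      simp at hy
      subst hy
      simp [NZ]

theorem Cap.perm {m : ℕ} {l₁ l₂ : List ℕ} (h : l₁.Perm l₂) (h1 : l₁ ≠ []) :
    Sat (Cap m) (wt l₁) (wt l₂) := by
  intro ρ
  have h2 : l₂ ≠ [] := by
    rintro rfl
    exact h1 (List.perm_nil.mp h)
  apply Cap.ext
  rw [Cap.eval_val ρ h1, Cap.eval_val ρ h2, (h.map _).sum_eq]

theorem eval_wt_rep (S : UnarySemigroup) (ρ : ℕ → S) (a k : ℕ) :
    eval S ρ (wt (List.replicate (k + 1) a)) = pw (ρ a) k := by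
  induction k with
  | zero => rfl
  | succ k ih =>
    have e : List.replicate (k + 1 + 1) a = [a] ++ List.replicate (k + 1) a := by
      rw [List.replicate_succ]; rfl
    rw [e, eval_wt_append S ρ (by simp) (by simp), ih]
    show ρ a * pw (ρ a) k = pw (ρ a) k * ρ a
    exact pw_comm _ _

/-- A word is a permutation of its zeros followed by its other letters. -/
theorem zeros_perm (l : List ℕ) :
    (List.replicate (l.count 0) 0 ++ l.filter (fun x => !(x == 0))).Perm l := by
  have h := List.filter_append_perm (fun x => x == 0) l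
  rwa [List.filter_beq] at h

/-- There is no upper-modular variety for which `xy` is an isoterm. -/
theorem Good.false {V : EpigroupVariety} (hV : Good V) : False := by
  obtain ⟨n, hn⟩ := exists_index V
  obtain ⟨p, hp⟩ : ∃ p, p = vv n ++ [0] := ⟨_, rfl⟩
  have hnice : Nice p := hp ▸ vv_nice n
  have hplen : p.length = 2 * n + 1 := by rw [hp, List.length_append, vv_length]; rfl
  have hcount0 : p.count 0 = n + 1 := by
    rw [hp, List.count_append, vv_count_zero]; simp
  have hnp : n + 1 ∉ p := by
    rw [hp]
    simp only [List.mem_append, List.mem_singleton, not_or]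
    exact ⟨fun h => by have := vv_le h; omega, by omega⟩
  have hp0 : p ≠ [] := by rw [hp]; simp
  obtain ⟨v, hv⟩ : ∃ v, v = p ++ [n + 1] := ⟨_, rfl⟩
  have hv0 : v ≠ [] := by rw [hv]; simp
  have hvcount : ∀ i, v.count i ≤ n + 1 := by
    intro i
    rw [hv, List.count_append]
    by_cases hi : i = 0
    · subst hi
      rw [hcount0]; simp
    · by_cases hi2 : i = n + 1
      · subst hi2
        rw [List.count_eq_zero_of_not_mem hnp]; simp
      · have h1 := hnice.one i hi
        have h2 : [n + 1].count i = 0 := List.count_eq_zero_of_not_mem (by simpa using hi2)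
        omega
  have hvone : ∀ c, c ≠ 0 → v.count c ≤ 1 := by
    intro i hi
    rw [hv, List.count_append]
    by_cases hi2 : i = n + 1
    · subst hi2
      rw [List.count_eq_zero_of_not_mem hnp]; simp
    · have h1 := hnice.one i hi
      have h2 : [n + 1].count i = 0 := List.count_eq_zero_of_not_mem (by simpa using hi2)
      omega
  have hiso : Iso V v := hv ▸ hV.claimA _ p rfl hnice (n + 1) hnp
  have hA : Syn {v} ∈ V.carrier := by
    apply Syn.mem
    rintro u rfl t ht
    exact ⟨_, rfl, hiso t ht⟩
  -- membership in the join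
  have hA2 : Syn {v} ∈ (CV (n + 2) ⊔ (ZV (2 * n) ⊓ V)).carrier := by
    apply Syn.mem
    rintro u rfl t ht
    refine ⟨_, rfl, ?_⟩
    have h1 : Sat (Cap (n + 2)) (wt u) t :=
      ht _ ((le_sup_left : CV (n + 2) ≤ CV (n + 2) ⊔ (ZV (2 * n) ⊓ V)) (self_mem_varOf _))
    have h2 : (ZV (2 * n) ⊓ V).Satisfies (wt u) t :=
      fun S hS => ht S ((le_sup_right : ZV (2 * n) ⊓ V ≤ CV (n + 2) ⊔ (ZV (2 * n) ⊓ V)) hS)
    obtain ⟨M, hM⟩ : ∃ M, M = 2 * n + 5 := ⟨_, rfl⟩
    have h3 : ∀ i, (ex M t).count i = u.count i := by
      intro i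
      have h4 := Cap.count (by omega) h1 (M := M) (by omega) i
      rw [ex_of_fl (fl_wt hv0)] at h4
      have h5 := hvcount i
      omega
    have h4 : (ex M t).Perm u := List.perm_iff_count.mpr h3
    have h5 : u.take (2 * n + 1) = (ex M t).take (2 * n + 1) := by
      apply prefix_lemma hV.lz (M := M) (by omega) (by rw [hv]; simp; omega)
        (by rw [h4.length_eq, hv]; simp; omega)
        (fun j hj S hS => h2 S ⟨TL_mem (by omega) hS.1, hS.2⟩)
        (fun i => by rw [h3]) hvone
      intro j hj z' hz' a ha
      have h1 : u.take j = p.take j := by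
        rw [hv]
        exact List.take_append_of_le_length (by omega)
      rw [h1] at hz' ha ⊢
      have h2 : (p.take j).length = j := by rw [List.length_take]; omega
      have h3 := hE_of_iso hV hz' ha (hV.claimA _ _ rfl (hnice.take j) z' hz')
      rwa [h2] at h3
    have h6 : u.take (2 * n + 1) = p := by
      rw [hv, ← hplen, List.take_append_of_le_length le_rfl, List.take_length]
    have h7 : (ex M t) = p ++ (ex M t).drop (2 * n + 1) := by
      conv_lhs => rw [← List.take_append_drop (2 * n + 1) (ex M t)]
      rw [← h5, h6]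
    have h8 : ((ex M t).drop (2 * n + 1)).Perm [n + 1] := by
      rw [h7, hv] at h4
      exact (List.perm_append_left_iff p).mp h4
    have h9 : (ex M t).drop (2 * n + 1) = [n + 1] := List.perm_singleton.mp h8
    apply fl_of_ex (m := M)
    · rw [h7, h9, hv]
    · rw [hv]; simp; omega
  -- the identity in the intersection
  have h1 : (CV (n + 2) ⊓ V).Satisfies (wt v) (wt (p ++ [0, n + 1])) := by
    intro S hS
    have hpw : ∀ x : S, pw x n = pw x (n + 1) := by
      intro x
      have h2 := (hn S hS.2 x).2.2
      have h3 : Sat (Cap (n + 2)) (.mul (pwT (.var 0) (n + 1)) (.bar (.var 0)))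
          (pwT (.var 0) (n + 1)) := by
        intro ρ
        apply Cap.ext
        show Cap.val (eval (Cap (n + 2)) ρ (pwT (.var 0) (n + 1)) * pw (ρ 0) (n + 2)) = _
        rw [eval_pwT, Cap.mul_val, Cap.pw_val, Cap.pw_val]
        show min (min ((n + 1 + 1) * Cap.val (ρ 0)) (n + 2) +
          min ((n + 2 + 1) * Cap.val (ρ 0)) (n + 2)) (n + 2) =
          min ((n + 1 + 1) * Cap.val (ρ 0)) (n + 2)
        rcases Nat.eq_zero_or_pos (Cap.val (ρ 0)) with h | h
        · rw [h]; simp
        · have h4 : n + 2 ≤ (n + 1 + 1) * Cap.val (ρ 0) := by nlinarith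
          omega
      have h4 := hS.1 _ _ h3 (fun _ => x)
      have h5 : eval S (fun _ => x) (pwT (.var 0) (n + 1)) * S.bar x =
        eval S (fun _ => x) (pwT (.var 0) (n + 1)) := h4
      rw [eval_pwT] at h5
      exact h2.symm.trans h5
    have hrep : Sat S (wt (List.replicate (n + 1) 0)) (wt (List.replicate (n + 2) 0)) := by
      intro ρ
      rw [eval_wt_rep, eval_wt_rep]
      exact hpw _
    have hz := zeros_perm v
    have hv0' : v.count 0 = n + 1 := by
      rw [hv, List.count_append, hcount0]; simp
    rw [hv0'] at hz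
    have hrest : v.filter (fun x => !(x == 0)) ≠ [] := by
      apply List.ne_nil_of_mem (a := n + 1)
      rw [List.mem_filter]
      exact ⟨by rw [hv]; simp, by simp⟩
    have hz2 : (List.replicate (n + 2) 0 ++ v.filter (fun x => !(x == 0))).Perm
        (p ++ [0, n + 1]) := by
      rw [List.replicate_succ, List.cons_append]
      refine (hz.cons 0).trans ?_
      rw [hv]
      exact List.perm_middle.symm
    have hne1 : List.replicate (n + 1) 0 ++ v.filter (fun x => !(x == 0)) ≠ [] := by simp
    have hne2 : List.replicate (n + 2) 0 ++ v.filter (fun x => !(x == 0)) ≠ [] := by simp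
    exact ((hS.1 _ _ (Cap.perm hz hne1)).symm.trans
      (hrep.cong_right (by simp) (by simp) hrest)).trans (hS.1 _ _ (Cap.perm hz2 hne2))
  have h2 : (ZV (2 * n) ⊓ V).Satisfies (wt v) (wt (p ++ [0, n + 1])) := by
    intro S hS
    apply hS.1
    apply TL.sat_wt hv0 (by simp)
    rw [hv, ← hplen, List.take_append_of_le_length le_rfl, List.take_append_of_le_length le_rfl]
  have h3 := lemmaU hV.um inf_le_right hA hA2 h1 h2
  obtain ⟨u', hu', h4⟩ := Syn.sat_mem h3 rfl hv0
  rw [Set.mem_singleton_iff] at hu'
  rw [fl_wt (by simp), hu', hv] at h4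
  simp at h4

end Pool.Agent.Lib.MP_d7b8a3_al
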