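import Pool.Agent.Lib.MP_d7b8a3_al.Algebras

/-!
# Left-right duality
-/

namespace Pool.Agent.Lib.MP_d7b8a3_al

open MulOpposite

/-- The opposite of a unary semigroup. -/
def opAlg (S : UnarySemigroup) : UnarySemigroup where
  carrier := S.carrierᵐᵒᵖ
  toNonempty := ⟨op (Classical.choice S.toNonempty)⟩
  bar := fun x => op (S.bar (unop x))

/-- The canonical map to the opposite. -/
def toOp {S : UnarySemigroup} (x : S) : opAlg S := op x

/-- The canonical map from the opposite. -/
def ofOp {S : UnarySemigroup} (x : opAlg S) : S := unop x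

theorem ofOp_toOp {S : UnarySemigroup} (x : S) : ofOp (toOp x) = x := rfl
theorem toOp_ofOp {S : UnarySemigroup} (x : opAlg S) : toOp (ofOp x) = x := rfl
theorem ofOp_mul {S : UnarySemigroup} (x y : opAlg S) : ofOp (x * y) = ofOp y * ofOp x := rfl
theorem toOp_mul {S : UnarySemigroup} (x y : S) : toOp (x * y) = toOp y * toOp x := rfl
theorem ofOp_bar {S : UnarySemigroup} (x : opAlg S) : ofOp ((opAlg S).bar x) = S.bar (ofOp x) := rfl
theorem ofOp_inj {S : UnarySemigroup} {x y : opAlg S} (h : ofOp x = ofOp y) : x = y :=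
  unop_injective h

theorem ofOp_pw {S : UnarySemigroup} (x : opAlg S) (n : ℕ) : ofOp (pw x n) = pw (ofOp x) n := by
  induction n with
  | zero => rfl
  | succ n ih =>
    show ofOp (pw x n * x) = pw (ofOp x) n * ofOp x
    rw [ofOp_mul, ih, pw_comm]

/-- Reversal of terms. -/
def rev : Term → Term
  | .var i => .var i
  | .mul s t => .mul (rev t) (rev s)
  | .bar s => .bar (rev s)

theorem rev_rev (t : Term) : rev (rev t) = t := by
  induction t with
  | var i => rfl
  | mul s t ihs iht => show Term.mul (rev (rev s)) (rev (rev t)) = _; rw [ihs, iht]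
  | bar s ih => show Term.bar (rev (rev s)) = _; rw [ih]

theorem eval_op {S : UnarySemigroup} (ρ : ℕ → opAlg S) (t : Term) :
    ofOp (eval (opAlg S) ρ t) = eval S (fun i => ofOp (ρ i)) (rev t) := by
  induction t with
  | var i => rfl
  | mul s t ihs iht =>
    show ofOp (eval (opAlg S) ρ s * eval (opAlg S) ρ t) = _
    rw [ofOp_mul, ihs, iht]
    rfl
  | bar s ih =>
    show ofOp ((opAlg S).bar (eval (opAlg S) ρ s)) = _
    rw [ofOp_bar, ih]
    rfl

theorem sat_op {S : UnarySemigroup} {s t : Term} : Sat (opAlg S) s t ↔ Sat S (rev s) (rev t) := by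
  constructor
  · intro h ρ
    have h1 := congrArg ofOp (h (fun i => toOp (ρ i)))
    rw [eval_op, eval_op] at h1
    exact h1
  · intro h ρ
    apply ofOp_inj
    rw [eval_op, eval_op]
    exact h _

theorem sat_op_op {S : UnarySemigroup} {s t : Term} :
    Sat (opAlg (opAlg S)) s t ↔ Sat S s t := by
  rw [sat_op, sat_op, rev_rev, rev_rev]

theorem UniEpi.opp {S : UnarySemigroup} {n : ℕ} (h : UniEpi S n) : UniEpi (opAlg S) n := by
  intro x
  obtain ⟨h1, h2, h3⟩ := h (ofOp x)
  refine ⟨ofOp_inj ?_, ofOp_inj ?_, ofOp_inj ?_⟩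
  · rw [ofOp_mul, ofOp_mul, ofOp_bar, h1]
  · rw [ofOp_mul, ofOp_mul, ofOp_bar, ← mul_assoc, h2]
  · rw [ofOp_mul, ofOp_pw, ofOp_pw, ofOp_bar, ← pw_comm_of_comm h1, h3]

theorem epigroup_of_op {S : UnarySemigroup} (h : IsEpigroup (opAlg S)) : IsEpigroup S := by
  intro x
  obtain ⟨h1, h2, n, h3⟩ := drazin_of_pseudo (h (toOp x))
  have h1' := congrArg ofOp h1
  have h2' := congrArg ofOp h2
  have h3' := congrArg ofOp h3
  rw [ofOp_mul, ofOp_mul, ofOp_bar, ofOp_toOp] at h1'
  rw [ofOp_mul, ofOp_mul, ofOp_bar, ofOp_toOp, ← mul_assoc] at h2'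
  rw [ofOp_mul, ofOp_pw, ofOp_pw, ofOp_bar, ofOp_toOp] at h3'
  exact pseudo_of_drazin h1'.symm h2' ⟨n, by rw [pw_comm_of_comm h1'.symm]; exact h3'⟩

theorem mem_op_op (V : EpigroupVariety) (S : UnarySemigroup) :
    opAlg (opAlg S) ∈ V.carrier ↔ S ∈ V.carrier := by
  rw [mem_iff, mem_iff]
  constructor
  · intro h s t hst
    exact sat_op_op.mp (h s t hst)
  · intro h s t hst
    exact sat_op_op.mpr (h s t hst)

/-- The dual variety. -/
def opVar (V : EpigroupVariety) : EpigroupVariety where
  carrier := {S | opAlg S ∈ V.carrier}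
  isEpigroup := fun S hS => epigroup_of_op (V.isEpigroup _ hS)
  defined := by
    refine ⟨{p | V.Satisfies (rev p.1) (rev p.2)}, fun S => ?_⟩
    show opAlg S ∈ V.carrier ↔ _
    rw [mem_iff]
    constructor
    · intro h p hp
      have h1 := h _ _ hp
      rw [sat_op, rev_rev, rev_rev] at h1
      exact h1
    · intro h s t hst
      rw [sat_op]
      apply h (rev s, rev t)
      show V.Satisfies (rev (rev s)) (rev (rev t))
      rw [rev_rev, rev_rev]
      exact hst

theorem mem_opVar {V : EpigroupVariety} {S : UnarySemigroup} :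
    S ∈ (opVar V).carrier ↔ opAlg S ∈ V.carrier := Iff.rfl

theorem opVar_satisfies {V : EpigroupVariety} {s t : Term} :
    (opVar V).Satisfies s t ↔ V.Satisfies (rev s) (rev t) := by
  constructor
  · intro h S hS
    have h1 : opAlg S ∈ (opVar V).carrier := by
      rw [mem_opVar, mem_op_op]
      exact hS
    exact sat_op.mp (h _ h1)
  · intro h S hS
    have h1 := h _ (mem_opVar.mp hS)
    rw [sat_op, rev_rev, rev_rev] at h1
    exact h1

theorem opVar_opVar (V : EpigroupVariety) : opVar (opVar V) = V := by
  apply EpigroupVariety.ext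
  ext S
  rw [mem_opVar, mem_opVar, mem_op_op]

theorem opVar_mono {V W : EpigroupVariety} (h : V ≤ W) : opVar V ≤ opVar W :=
  fun _ hS => h hS

/-- Duality as an order automorphism. -/
def opIso : EpigroupVariety ≃o EpigroupVariety where
  toFun := opVar
  invFun := opVar
  left_inv := opVar_opVar
  right_inv := opVar_opVar
  map_rel_iff' := by
    intro V W
    constructor
    · intro h
      have := opVar_mono h
      rw [Equiv.coe_fn_mk, opVar_opVar, opVar_opVar] at this
      exact this
    · intro h
      exact opVar_mono h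

theorem opVar_sup (V W : EpigroupVariety) : opVar (V ⊔ W) = opVar V ⊔ opVar W :=
  opIso.map_sup V W

theorem opVar_inf (V W : EpigroupVariety) : opVar (V ⊓ W) = opVar V ⊓ opVar W :=
  opIso.map_inf V W

theorem isUpperModular_op {V : EpigroupVariety} (h : IsUpperModular V) :
    IsUpperModular (opVar V) := by
  intro Y Z hY
  have h1 : opVar Y ≤ V := by
    have := opVar_mono hY
    rwa [opVar_opVar] at this
  have h2 := congrArg opVar (h (opVar Y) (opVar Z) h1)
  rw [opVar_inf, opVar_sup, opVar_sup, opVar_inf, opVar_opVar, opVar_opVar] at h2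
  exact h2

/-! ## Reversal of words -/

theorem reverse_flatten_replicate (n : ℕ) (l : List ℕ) :
    ((List.replicate n l).flatten).reverse = (List.replicate n l.reverse).flatten := by
  rw [List.reverse_flatten, List.map_replicate, List.reverse_replicate]

theorem ex_rev (m : ℕ) (t : Term) : ex m (rev t) = (ex m t).reverse := by
  induction t with
  | var i => rfl
  | mul s t ihs iht =>
    show ex m (rev t) ++ ex m (rev s) = (ex m s ++ ex m t).reverse
    rw [ihs, iht, List.reverse_append]
  | bar s ih =>
    show (List.replicate (m + 1) (ex m (rev s))).flatten =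
      ((List.replicate (m + 1) (ex m s)).flatten).reverse
    rw [ih, reverse_flatten_replicate]

theorem fl_rev (t : Term) : fl (rev t) = (fl t).map List.reverse := by
  induction t with
  | var i => rfl
  | mul s t ihs iht =>
    show fl (.mul (rev t) (rev s)) = _
    cases hs : fl s with
    | none =>
      rw [hs] at ihs
      have h1 : fl (.mul s t) = none := by unfold fl; rw [hs]
      rw [h1]
      cases h2 : fl (.mul (rev t) (rev s)) with
      | none => rfl
      | some u =>
        obtain ⟨a, b, -, h4, -⟩ := fl_mul_eq_some h2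
        rw [ihs] at h4
        simp at h4
    | some a =>
      rw [hs] at ihs
      cases ht : fl t with
      | none =>
        rw [ht] at iht
        have h1 : fl (.mul s t) = none := by unfold fl; rw [hs, ht]
        rw [h1]
        cases h2 : fl (.mul (rev t) (rev s)) with
        | none => rfl
        | some u =>
          obtain ⟨a, b, h3, -, -⟩ := fl_mul_eq_some h2
          rw [iht] at h3
          simp at h3
      | some b =>
        rw [ht] at iht
        rw [fl_mul hs ht, fl_mul iht ihs]
        simp
  | bar s ih => rfl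

/-- The reversed word term. -/
theorem sat_rev_wt {S : UnarySemigroup} {l : List ℕ} (h : l ≠ []) :
    Sat S (rev (wt l)) (wt l.reverse) := by
  intro ρ
  apply eval_of_fl
  rw [fl_rev, fl_wt h]
  rfl

end Pool.Agent.Lib.MP_d7b8a3_al
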