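import Pool.Agent.Lib.MP_d7b8a3_al.Forced

/-!
# Counting and visible prefixes
-/

namespace Pool.Agent.Lib.MP_d7b8a3_al

/-! ## Numbers of occurrences capped at two -/

/-- The relation between values in `Cap 2` and in the opposite of `P`. -/
theorem cap_op_rel (ρ : ℕ → opAlg P3) (ρ' : ℕ → Cap 2)
    (h0 : ∀ i, ofOp (ρ i) = P3.e → Cap.val (ρ' i) = 0)
    (h1 : ∀ i, ofOp (ρ i) = P3.a → Cap.val (ρ' i) = 1)
    (h2 : ∀ i, ofOp (ρ i) = P3.o → Cap.val (ρ' i) = 2) (t : Term) :
    (ofOp (eval (opAlg P3) ρ t) = P3.e ↔ Cap.val (eval (Cap 2) ρ' t) = 0) ∧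
    (ofOp (eval (opAlg P3) ρ t) = P3.a ↔
      Cap.val (eval (Cap 2) ρ' t) = 1 ∧ ofOp (ρ (hd t)) = P3.a) ∧
    (ofOp (eval (opAlg P3) ρ t) = P3.e → ofOp (ρ (hd t)) = P3.e) := by
  induction t with
  | var i =>
    show (ofOp (ρ i) = P3.e ↔ Cap.val (ρ' i) = 0) ∧
      (ofOp (ρ i) = P3.a ↔ Cap.val (ρ' i) = 1 ∧ ofOp (ρ i) = P3.a) ∧
      (ofOp (ρ i) = P3.e → ofOp (ρ i) = P3.e)
    rcases P3.cases (ofOp (ρ i)) with h | h | h
    · rw [h0 i h, h]; simp [P3.e_ne_a]
    · rw [h1 i h, h]; simp [P3.e_ne_a.symm]
    · rw [h2 i h, h]; simp [P3.e_ne_o.symm, P3.a_ne_o.symm]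
  | mul s t ihs iht =>
    have e1 : ofOp (eval (opAlg P3) ρ (.mul s t)) =
        ofOp (eval (opAlg P3) ρ t) * ofOp (eval (opAlg P3) ρ s) := rfl
    have e2 : Cap.val (eval (Cap 2) ρ' (.mul s t)) =
        min (Cap.val (eval (Cap 2) ρ' s) + Cap.val (eval (Cap 2) ρ' t)) 2 := rfl
    have e3 : hd (.mul s t) = hd s := rfl
    rw [e1, e2, e3]
    obtain ⟨a1, a2, a3⟩ := ihs
    obtain ⟨b1, b2, b3⟩ := iht
    have vs := Cap.val_le (eval (Cap 2) ρ' s)
    have vt := Cap.val_le (eval (Cap 2) ρ' t)
    rcases P3.cases (ofOp (eval (opAlg P3) ρ t)) with ht | ht | ht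
    · have v2 := b1.mp ht
      rw [ht, P3.e_mul]
      refine ⟨?_, ?_, a3⟩
      · rw [a1]; omega
      · rw [a2]
        constructor
        · rintro ⟨c1, c2⟩; exact ⟨by omega, c2⟩
        · rintro ⟨c1, c2⟩; exact ⟨by omega, c2⟩
    · have v2 := (b2.mp ht).1
      rw [ht, P3.a_mul]
      refine ⟨⟨fun h => absurd h P3.e_ne_o.symm, fun h => by omega⟩, ⟨fun h => absurd h P3.a_ne_o.symm, ?_⟩,
        fun h => absurd h P3.e_ne_o.symm⟩
      rintro ⟨c1, c2⟩
      have c3 : Cap.val (eval (Cap 2) ρ' s) = 0 := by omega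
      rw [a3 (a1.mpr c3)] at c2
      exact absurd c2 P3.e_ne_a
    · have v2 : Cap.val (eval (Cap 2) ρ' t) ≠ 0 := fun h => by
        rw [b1.mpr h] at ht; exact P3.e_ne_o ht
      rw [ht, P3.o_mul]
      refine ⟨⟨fun h => absurd h P3.e_ne_o.symm, fun h => by omega⟩, ⟨fun h => absurd h P3.a_ne_o.symm, ?_⟩,
        fun h => absurd h P3.e_ne_o.symm⟩
      rintro ⟨c1, c2⟩
      have c3 : Cap.val (eval (Cap 2) ρ' s) = 0 := by omega
      rw [a3 (a1.mpr c3)] at c2
      exact absurd c2 P3.e_ne_a
  | bar s ih =>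
    have e1 : ofOp (eval (opAlg P3) ρ (.bar s)) =
        ofOp (eval (opAlg P3) ρ s) * ofOp (eval (opAlg P3) ρ s) := rfl
    have e2 : Cap.val (eval (Cap 2) ρ' (.bar s)) =
        min ((2 + 1) * Cap.val (eval (Cap 2) ρ' s)) 2 := Cap.pw_val _ 2
    have e3 : hd (.bar s) = hd s := rfl
    rw [e1, e2, e3]
    obtain ⟨a1, a2, a3⟩ := ih
    rcases P3.cases (ofOp (eval (opAlg P3) ρ s)) with hs | hs | hs
    · have v := a1.mp hs
      rw [hs, v, P3.e_mul]
      simp only [P3.e_ne_a, true_iff, false_iff, true_implies, mul_zero]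
      exact ⟨by norm_num, by norm_num, a3 hs⟩
    · have v := (a2.mp hs).1
      rw [hs, v, P3.a_mul]
      simp [P3.e_ne_o.symm, P3.a_ne_o.symm]
    · have v : Cap.val (eval (Cap 2) ρ' s) ≠ 0 := fun h => by
        rw [a1.mpr h] at hs; exact P3.e_ne_o hs
      rw [hs, P3.o_mul]
      refine ⟨⟨fun h => absurd h P3.e_ne_o.symm, fun h => by omega⟩, ⟨fun h => absurd h P3.a_ne_o.symm, ?_⟩,
        fun h => absurd h P3.e_ne_o.symm⟩
      rintro ⟨c1, c2⟩
      omega

theorem sat_op_p3 {s t : Term} (h1 : Sat (Cap 2) s t) (h2 : hd s = hd t) : Sat (opAlg P3) s t := by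
  classical
  intro ρ
  let ρ' : ℕ → Cap 2 := fun i =>
    if ofOp (ρ i) = P3.e then Cap.of 2 0 (by norm_num)
    else if ofOp (ρ i) = P3.a then Cap.of 2 1 (by norm_num) else Cap.of 2 2 (by norm_num)
  have key := cap_op_rel ρ ρ' (fun i hi => by simp only [ρ', if_pos hi, Cap.val_of])
    (fun i hi => by simp only [ρ', if_neg (show ofOp (ρ i) ≠ P3.e by rw [hi]; exact P3.e_ne_a.symm),
      if_pos hi, Cap.val_of])
    (fun i hi => by simp only [ρ', if_neg (show ofOp (ρ i) ≠ P3.e by rw [hi]; exact P3.e_ne_o.symm),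
      if_neg (show ofOp (ρ i) ≠ P3.a by rw [hi]; exact P3.a_ne_o.symm), Cap.val_of])
  obtain ⟨a1, a2, -⟩ := key s
  obtain ⟨b1, b2, -⟩ := key t
  have h3 := h1 ρ'
  apply ofOp_inj
  rw [h3] at a1 a2
  rw [h2] at a2
  rcases P3.cases (ofOp (eval (opAlg P3) ρ s)) with hs | hs | hs
  · rw [hs, b1.mpr (a1.mp hs)]
  · rw [hs, b2.mpr (a2.mp hs)]
  · rcases P3.cases (ofOp (eval (opAlg P3) ρ t)) with ht | ht | ht
    · rw [a1.mpr (b1.mp ht), ht]
    · rw [a2.mpr (b2.mp ht), ht]
    · rw [hs, ht]

/-- There is a member of `V` that is a commutative monoid-like algebra detecting squares. -/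
theorem Good.exists_cap {V : EpigroupVariety} (hV : Good V) :
    ∃ S, S ∈ (CV 2).carrier ∧ S ∈ V.carrier ∧ ¬ Sat S (wt [0, 1, 1]) (wt [0, 0, 1, 1]) := by
  by_contra hcon
  push Not at hcon
  have hA : opAlg P3 ∈ (CV 2 ⊔ LZV).carrier := by
    intro s t h1 h2
    exact sat_op_p3 (CV_satisfies.mp h1) (LZ2.sat_iff.mp (LZV_satisfies.mp h2))
  have h1 := lemmaU hV.um (varOf_le _ hV.lz) hV.p3op hA (s := wt [0, 1, 1]) (t := wt [0, 0, 1, 1])
    (fun S hS => hcon S hS.1 hS.2) (LZV_satisfies.mpr (LZ2.sat_iff.mpr rfl))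
  have h2 := h1 (fun i => if i = 0 then toOp P3.a else toOp P3.e)
  have h3 := congrArg ofOp h2
  exact P3.a_ne_o h3

theorem cap_norm {w : List ℕ} (hw0 : w ≠ []) (hw : ∀ i ∈ w, i = 0 ∨ i = 1) :
    Sat (Cap 2) (wt (w ++ [1, 1])) (wt (List.replicate (min (w.count 0) 2) 0 ++ [1, 1])) := by
  intro ρ
  apply Cap.ext
  rw [Cap.eval_val ρ (by simp), Cap.eval_val ρ (by simp)]
  simp only [List.map_append, List.sum_append, List.map_cons, List.map_nil, List.sum_cons,
    List.sum_nil, List.map_replicate, List.sum_replicate, smul_eq_mul, add_zero]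
  have hsum : (w.map (fun i => Cap.val (ρ i))).sum =
      w.count 0 * Cap.val (ρ 0) + w.count 1 * Cap.val (ρ 1) := by
    clear hw0
    induction w with
    | nil => simp
    | cons b l ih =>
      have hb := hw b (by simp)
      have ih' := ih (fun i hi => hw i (by simp [hi]))
      rw [List.map_cons, List.sum_cons, ih']
      rcases hb with rfl | rfl
      · simp only [List.count_cons_self, List.count_cons]
        simp
        ring
      · simp only [List.count_cons_self, List.count_cons]
        simp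
        ring
  rw [hsum]
  have h0 := Cap.val_le (ρ 0)
  rcases Nat.eq_zero_or_pos (Cap.val (ρ 1)) with h1 | h1
  · rw [h1]
    simp only [mul_zero, add_zero]
    rcases le_total (w.count 0) 2 with h2 | h2
    · rw [min_eq_left h2]
    · rw [min_eq_right h2]
      rcases Nat.eq_zero_or_pos (Cap.val (ρ 0)) with h3 | h3
      · rw [h3]; simp
      · have : 2 ≤ w.count 0 * Cap.val (ρ 0) := by nlinarith
        omega
  · omega

/-- Identities of `V` preserve the numbers of occurrences capped at two. -/
theorem Good.count {V : EpigroupVariety} (hV : Good V) {s t : Term} (h : V.Satisfies s t) {M : ℕ}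
    (hM : 2 ≤ M) (i : ℕ) : min ((ex M s).count i) 2 = min ((ex M t).count i) 2 := by
  obtain ⟨S, hS, hSV, hne⟩ := hV.exists_cap
  have hs : ∀ s, Sat S s (wt (ex M s)) := fun s => hS _ _ (((Cap.aper 2).mono hM).sat_ex s)
  have h' : Sat S (wt (ex M s)) (wt (ex M t)) := ((hs s).symm.trans (h S hSV)).trans (hs t)
  have hn1 := ex_ne_nil M s
  have hn2 := ex_ne_nil M t
  generalize ex M s = l₁ at *
  generalize ex M t = l₂ at *
  clear hs
  let f : ℕ → ℕ := fun j => if j = i then 0 else 1
  have hcount : ∀ l : List ℕ, (l.map f).count 0 = l.count i := by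
    intro l
    induction l with
    | nil => rfl
    | cons b l ih =>
      rw [List.map_cons, List.count_cons, List.count_cons, ih]
      congr 1
      by_cases hb : b = i
      · simp [f, hb]
      · simp [f, hb]
  have hmem : ∀ l : List ℕ, ∀ j ∈ l.map f, j = 0 ∨ j = 1 := by
    intro l j hj
    obtain ⟨k, -, rfl⟩ := List.mem_map.mp hj
    by_cases hk : k = i
    · left; exact if_pos hk
    · right; exact if_neg hk
  have hren := h'.ren hn1 hn2 f
  have h1 := hren.cong_right (by simpa using hn1) (by simpa using hn2) (l := [1, 1]) (by simp)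
  have h2 := hS _ _ (cap_norm (by simpa using hn1) (hmem l₁))
  have h3 := hS _ _ (cap_norm (by simpa using hn2) (hmem l₂))
  rw [hcount] at h2 h3
  have h4 := (h2.symm.trans h1).trans h3
  have hX : ∀ c d, c ≤ 2 → d ≤ 2 → c < d →
      Sat S (wt (List.replicate c 0 ++ [1, 1])) (wt (List.replicate d 0 ++ [1, 1])) → False := by
    intro c d hc hd hcd hX
    apply hne
    have hcases : (c = 0 ∧ d = 1) ∨ (c = 0 ∧ d = 2) ∨ (c = 1 ∧ d = 2) := by omega
    rcases hcases with ⟨rfl, rfl⟩ | ⟨rfl, rfl⟩ | ⟨rfl, rfl⟩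
    · exact hX.cong_left (by simp) (by simp) (l := [0]) (by simp)
    · have h5 := hX.cong_left (by simp) (by simp) (l := [0]) (by simp)
      refine Sat.trans h5 ?_
      apply hS
      intro ρ
      apply Cap.ext
      rw [Cap.eval_val ρ (by simp), Cap.eval_val ρ (by simp)]
      simp only [List.replicate, List.cons_append, List.nil_append, List.map_cons, List.map_nil,
        List.sum_cons, List.sum_nil]
      omega
    · exact hX
  rcases lt_trichotomy (min (l₁.count i) 2) (min (l₂.count i) 2) with h5 | h5 | h5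
  · exact absurd h4 (fun h => hX _ _ (min_le_right _ _) (min_le_right _ _) h5 h)
  · exact h5
  · exact absurd h4.symm (fun h => hX _ _ (min_le_right _ _) (min_le_right _ _) h5 h)

/-! ## Visible prefixes -/

theorem length_take_succ {p : List ℕ} {z : ℕ} {k : ℕ} (h : p.length = k) :
    (p ++ [z]).length = k + 1 := by simp [h]

/-- The key lemma: if the words of `L`, of the form `pz` with `z` new, are closed under the
identities of `V`, then the first `k + 1` letters of `pz` are visible in `V`. -/
theorem lemmaE {V : EpigroupVariety} (hum : IsUpperModular V) (hP : P3 ∈ V.carrier) {k : ℕ}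
    {L : Set (List ℕ)} (hL : ∀ u ∈ L, ∃ p z, u = p ++ [z] ∧ z ∉ p ∧ p.length = k)
    (hmem : ∀ u ∈ L, ∀ t, V.Satisfies (wt u) t → ∃ u' ∈ L, fl t = some u') {p : List ℕ} {z a : ℕ}
    (hpz : p ++ [z] ∈ L) (ha : a ∈ p) :
    ¬ (ZV k ⊓ V).Satisfies (wt (p ++ [z])) (wt (p ++ [a])) := by
  classical
  intro h
  have hlen : ∀ u ∈ L, u.length = k + 1 := by
    intro u hu
    obtain ⟨p, z, rfl, -, hp⟩ := hL u hu
    exact length_take_succ hp
  have hp : p.length = k := by
    have := hlen _ hpz
    simpa using this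
  have hp0 : p ≠ [] := List.ne_nil_of_mem ha
  have hA : Syn L ∈ V.carrier := Syn.mem hmem
  have hA2 : Syn L ∈ (ZV k ⊔ PV).carrier := by
    apply Syn.mem
    intro u hu t ht
    obtain ⟨p, z, rfl, hz, hp⟩ := hL u hu
    refine ⟨_, hu, ?_⟩
    have h1 : Sat (TL k) (wt (p ++ [z])) t :=
      ht _ ((le_sup_left : ZV k ≤ ZV k ⊔ PV) (self_mem_varOf _))
    have h2 : Sat P3 (wt (p ++ [z])) t :=
      ht _ ((le_sup_right : PV ≤ ZV k ⊔ PV) (self_mem_varOf _))
    have h3 := TL.take_eq h1 (M := k + 2) (by omega)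
    rw [ex_of_fl (fl_wt (by simp)), List.take_of_length_le (by simp [hp])] at h3
    have h4 := h2 (fun i => if i = z then P3.a else P3.e)
    have h5 : eval P3 (fun i => if i = z then P3.a else P3.e) (wt (p ++ [z])) = P3.a := by
      rw [P3.eval_a _ (by simp)]
      refine ⟨p, z, rfl, fun i hi => ?_, if_pos rfl⟩
      exact if_neg (by rintro rfl; exact hz hi)
    rw [h5, (P3.aper.mono (show 1 ≤ k + 2 by omega)).eval_ex] at h4
    obtain ⟨l', z', h6, h7, h8⟩ := (P3.eval_a _ (ex_ne_nil _ _)).mp h4.symm
    have hz' : z' = z := by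
      by_contra hne
      rw [if_neg hne] at h8
      exact P3.e_ne_a h8
    subst hz'
    have hzl : z' ∉ l' := by
      intro hmem
      have := h7 z' hmem
      rw [if_pos rfl] at this
      exact P3.e_ne_a this.symm
    have hl' : l'.length ≤ k := by
      by_contra hcon
      push Not at hcon
      rw [h6, List.take_append_of_le_length (by omega)] at h3
      apply hzl
      apply List.mem_of_mem_take (i := k + 1)
      rw [← h3]
      simp
    apply fl_of_ex (m := k + 2)
    · rw [h6, List.take_of_length_le (by simp; omega)] at h3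
      rw [h6, h3]
    · simp [hp]
  have h1 : (ZV k ⊓ V).Satisfies (wt (p ++ [z])) (wt (p ++ [a, z])) := by
    refine h.trans ?_
    intro S hS
    have h2 : Sat (TL k) (wt (p ++ [a])) (wt (p ++ [a, z])) := by
      apply TL.sat_wt (by simp) (by simp)
      have e1 : p ++ [a, z] = (p ++ [a]) ++ [z] := by simp
      have e2 : ((p ++ [a]) ++ [z]).take (k + 1) = (p ++ [a]).take (k + 1) :=
        List.take_append_of_le_length (by simp [hp])
      rw [e1, e2]
    exact hS.1 _ _ h2
  have h2 : PV.Satisfies (wt (p ++ [z])) (wt (p ++ [a, z])) := by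
    rw [PV_satisfies]
    intro ρ
    rw [P3.eval_append ρ hp0 (by simp), P3.eval_append ρ hp0 (by simp)]
    show eval P3 ρ (wt p) * ρ z = eval P3 ρ (wt p) * (ρ a * ρ z)
    by_cases hpe : eval P3 ρ (wt p) = P3.e
    · rw [(P3.eval_e ρ hp0).mp hpe a ha, P3.e_mul]
    · rw [P3.ne_e_mul hpe, P3.ne_e_mul hpe]
  have h3 := lemmaU hum (varOf_le _ hP) hA hA2 h1 h2
  obtain ⟨u', hu', h4⟩ := Syn.sat_mem h3 hpz (by simp)
  rw [fl_wt (by simp)] at h4
  simp only [Option.some.injEq] at h4
  have h5 := hlen u' hu'
  rw [← h4] at h5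
  simp [hp] at h5

/-- Linear words are seen by `V`. -/
theorem Good.linear {V : EpigroupVariety} (hV : Good V) {p : List ℕ} (hp : p.Nodup) {z a : ℕ}
    (hz : z ∉ p) (ha : a ∈ p) :
    ¬ (ZV p.length ⊓ V).Satisfies (wt (p ++ [z])) (wt (p ++ [a])) := by
  apply lemmaE hV.um hV.p3 (L := {u | u.Nodup ∧ u.length = p.length + 1})
  · rintro u ⟨h1, h2⟩
    have hne : u ≠ [] := by
      rintro rfl
      simp at h2
    refine ⟨u.dropLast, u.getLast hne, (List.dropLast_append_getLast hne).symm, ?_, ?_⟩
    · have h3 := h1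
      rw [← List.dropLast_append_getLast hne, List.nodup_append] at h3
      intro hmem
      exact h3.2.2 _ hmem _ (by simp) rfl
    · rw [List.length_dropLast, h2]; rfl
  · rintro u ⟨h1, h2⟩ t ht
    have hne : u ≠ [] := by
      rintro rfl
      simp at h2
    have h3 : ∀ i, (ex (p.length + 2) t).count i = u.count i := by
      intro i
      have h4 := hV.count ht (M := p.length + 2) (by omega) i
      rw [ex_of_fl (fl_wt hne)] at h4
      have h5 := List.nodup_iff_count_le_one.mp h1 i
      omega
    have h4 : (ex (p.length + 2) t).Perm u := List.perm_iff_count.mpr h3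
    refine ⟨ex (p.length + 2) t, ⟨h4.nodup_iff.mpr h1, by rw [h4.length_eq, h2]⟩, ?_⟩
    apply fl_of_ex rfl
    rw [h4.length_eq, h2]
    omega
  · refine ⟨?_, by simp⟩
    rw [List.nodup_append]
    refine ⟨hp, by simp, ?_⟩
    intro x hx y hy
    rw [List.mem_singleton] at hy
    subst hy
    exact fun h => hz (h ▸ hx)
  · exact ha

theorem TL_mem {j k : ℕ} (h : j ≤ k) : ZV j ≤ ZV k := by
  apply varOf_le
  intro s t hst
  apply TL.sat_ex (M := k) (by omega)
  have h1 := TL.take_eq hst (M := k) le_rfl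
  have h2 := congrArg (List.take (j + 1)) h1
  rw [List.take_take, List.take_take, min_eq_left (by omega)] at h2
  exact h2

theorem LZ2_mem_ZV (j : ℕ) : LZ2 ∈ (ZV j).carrier := by
  intro s t hst
  rw [LZ2.sat_iff]
  have h1 := TL.take_eq hst (M := j) le_rfl
  obtain ⟨l, hl⟩ := ex_eq_hd_cons j s
  obtain ⟨l', hl'⟩ := ex_eq_hd_cons j t
  rw [hl, hl'] at h1
  simp only [List.take_succ_cons, List.cons.injEq] at h1
  exact h1.1

/-- The truncation of an identity. -/
theorem trunc {W : EpigroupVariety} {j M : ℕ} (hM : j ≤ M) {w : List ℕ} (hw : w ≠ []) {t : Term}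
    (h : (ZV j ⊓ W).Satisfies (wt w) t) :
    (ZV j ⊓ W).Satisfies (wt (w.take (j + 1))) (wt ((ex M t).take (j + 1))) := by
  intro S hS
  have h1 : Sat (TL j) (wt (w.take (j + 1))) (wt w) := by
    apply TL.sat_wt (take_ne_nil hw j) hw
    rw [List.take_take, min_self]
  have h2 : Sat (TL j) t (wt ((ex M t).take (j + 1))) := by
    refine (((TL.aper j).mono hM).sat_ex t).trans ?_
    apply TL.sat_wt (ex_ne_nil _ _) (take_ne_nil (ex_ne_nil _ _) j)
    rw [List.take_take, min_self]
  exact ((hS.1 _ _ h1).trans (h S hS)).trans (hS.1 _ _ h2)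

/-- The prefix lemma. -/
theorem prefix_lemma {V : EpigroupVariety} (hlz : LZ2 ∈ V.carrier) {K M : ℕ} (hM : K ≤ M)
    {w : List ℕ} (hwK : K ≤ w.length) {t : Term} (htK : K ≤ (ex M t).length)
    (h : ∀ j < K, (ZV j ⊓ V).Satisfies (wt w) t)
    (hcount : ∀ i, min (w.count i) 2 = min ((ex M t).count i) 2)
    (hone : ∀ c, c ≠ 0 → w.count c ≤ 1)
    (hE : ∀ j < K, ∀ z ∉ w.take j, ∀ a ∈ w.take j,
      ¬ (ZV j ⊓ V).Satisfies (wt (w.take j ++ [z])) (wt (w.take j ++ [a]))) :
    w.take K = (ex M t).take K := by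
  have key : ∀ j ≤ K, w.take j = (ex M t).take j := by
    intro j
    induction j with
    | zero => intro _; simp
    | succ j ih =>
      intro hj
      have hpre := ih (by omega)
      have hw0 : w ≠ [] := by
        rintro rfl
        simp at hwK
        omega
      have hlw : j < w.length := by omega
      have hlt : j < (ex M t).length := by omega
      have h1 := trunc (M := M) (by omega) hw0 (h j (by omega))
      have e1 : w.take (j + 1) = w.take j ++ [w[j]] := (List.take_append_getElem hlw).symm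
      have e2 : (ex M t).take (j + 1) = w.take j ++ [(ex M t)[j]] := by
        rw [hpre]
        exact (List.take_append_getElem hlt).symm
      rw [e1, e2] at h1
      rw [e1, e2]
      set p := w.take j with hp
      set a := w[j] with ha
      set b := (ex M t)[j] with hb
      by_contra hne
      have hab : a ≠ b := fun h => hne (by rw [h])
      have hEj := hE j (by omega)
      by_cases hp0 : p = []
      · rw [hp0] at h1
        have h2 := h1 LZ2 ⟨LZ2_mem_ZV j, hlz⟩
        rw [LZ2.sat_iff] at h2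
        exact hab h2
      · by_cases hap : a ∈ p
        · by_cases hbp : b ∈ p
          · -- both old
            have ha2 : 2 ≤ w.count a := by
              have h3 : (p ++ [a]).count a ≤ w.count a := by
                rw [← e1]
                exact (List.take_sublist _ _).count_le a
              rw [List.count_append] at h3
              have h4 := List.count_pos_iff.mpr hap
              simp at h3
              omega
            have ha0 : a = 0 := by
              by_contra hne
              have := hone a hne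
              omega
            have hb2 : 2 ≤ (ex M t).count b := by
              have h3 : (p ++ [b]).count b ≤ (ex M t).count b := by
                rw [← e2]
                exact (List.take_sublist _ _).count_le b
              rw [List.count_append] at h3
              have h4 := List.count_pos_iff.mpr hbp
              simp at h3
              omega
            have hb0 : b = 0 := by
              by_contra hne
              have h5 := hone b hne
              have h6 := hcount b
              omega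
            exact hab (by rw [ha0, hb0])
          · exact hEj b hbp a hap h1.symm
        · by_cases hbp : b ∈ p
          · exact hEj a hap b hbp h1
          · obtain ⟨c, l, hcl⟩ := List.exists_cons_of_ne_nil hp0
            have hcp : c ∈ p := by rw [hcl]; simp
            apply hEj a hap c hcp
            have h2 : ∀ S ∈ (ZV j ⊓ V).carrier, Sat S (wt (p ++ [a])) (wt (p ++ [c])) := by
              intro S hS
              have h3 := (h1 S hS).ren (by simp) (by simp) (fun i => if i = b then c else i)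
              have h4 : p.map (fun i => if i = b then c else i) = p := by
                conv_rhs => rw [← List.map_id p]
                apply List.map_congr_left
                intro i hi
                simp only [id]
                exact if_neg (by rintro rfl; exact hbp hi)
              rw [List.map_append, List.map_append, h4] at h3
              simpa [hab] using h3
            exact h2
  exact key K le_rfl

end Pool.Agent.Lib.MP_d7b8a3_al
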